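import Pool.Agent.MP_c130bd_co.RVG.Defs

set_option autoImplicit false

namespace Pool.Agent.RVG

open Finset

/-! ## [RVG-BSA] the base numbers -/

theorem BSA_UU_le {T : ℕ} (K : Finset (Fin T)) : UU K + K.card ≤ T := by
  unfold UU
  rw [← card_union_of_disjoint]
  · have h := card_le_univ ((univ.filter fun l => l ∉ K ∧ Even (K.filter (· < l)).card) ∪ K)
    rwa [Fintype.card_fin] at h
  · rw [disjoint_left]
    intro l hl
    exact (mem_filter.1 hl).2.1

/-- the elements below `l` of `insert k K`, `k` above `K` -/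
theorem BSA_rank {T : ℕ} (K : Finset (Fin T)) (k l : Fin T) (h1 : ∀ i ∈ K, i < k) :
    ((insert k K).filter (· < l)).card = (K.filter (· < l)).card + if k < l then 1 else 0 := by
  have hk : k ∉ K := fun h => lt_irrefl _ (h1 k h)
  rw [filter_insert]
  split_ifs with h2
  · rw [card_insert_of_notMem (by simp [hk])]
  · rfl

theorem BSA_full {T : ℕ} (K : Finset (Fin T)) (l : Fin T) (h1 : ∀ i ∈ K, i < l) : (K.filter (· < l)).card = K.card := by
  rw [filter_true_of_mem h1]

theorem BSA_inj {T : ℕ} (K : Finset (Fin T)) (k₁ k₂ : Fin T) (h1 : ∀ k ∈ K, k < k₁) (h2 : k₁ < k₂) :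
    (insert k₁ K).card / 2 + UU (insert k₁ K) ≠ (insert k₂ K).card / 2 + UU (insert k₂ K) := by
  have hk1 : k₁ ∉ K := fun h => lt_irrefl _ (h1 k₁ h)
  have h1' : ∀ k ∈ K, k < k₂ := fun k hk => (h1 k hk).trans h2
  have hk2 : k₂ ∉ K := fun h => lt_irrefl _ (h1' k₂ h)
  rw [card_insert_of_notMem hk1, card_insert_of_notMem hk2]
  rcases Nat.even_or_odd K.card with he | ho
  · -- strictly larger for `k₂`
    have h3 : UU (insert k₁ K) < UU (insert k₂ K) := by
      unfold UU
      apply card_lt_card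
      rw [ssubset_iff_of_subset]
      · refine ⟨k₁, ?_, ?_⟩
        · rw [mem_filter, mem_insert, not_or, BSA_rank K k₂ k₁ h1', if_neg (not_lt.2 h2.le), BSA_full K k₁ h1]
          exact ⟨mem_univ _, ⟨h2.ne, hk1⟩, he⟩
        · rw [mem_filter]
          rintro ⟨_, h4, _⟩
          exact h4 (mem_insert_self _ _)
      · intro l hl
        rw [mem_filter, mem_insert, not_or, BSA_rank K k₁ l h1] at hl
        rw [mem_filter, mem_insert, not_or, BSA_rank K k₂ l h1']
        obtain ⟨_, ⟨h4, h5⟩, h6⟩ := hl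
        have h7 : ¬ k₁ < l := by
          intro h7
          rw [if_pos h7, BSA_full K l (fun i hi => (h1 i hi).trans h7), Nat.even_add_one] at h6
          exact h6 he
        have h8 : l < k₁ := lt_of_le_of_ne (not_lt.1 h7) h4
        rw [if_neg h7] at h6
        refine ⟨mem_univ _, ⟨(h8.trans h2).ne, h5⟩, ?_⟩
        rw [if_neg (not_lt.2 (h8.trans h2).le)]
        exact h6
    omega
  · have h3 : UU (insert k₂ K) < UU (insert k₁ K) := by
      unfold UU
      apply card_lt_card
      rw [ssubset_iff_of_subset]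
      · refine ⟨k₂, ?_, ?_⟩
        · rw [mem_filter, mem_insert, not_or, BSA_rank K k₁ k₂ h1, if_pos h2, BSA_full K k₂ h1']
          exact ⟨mem_univ _, ⟨h2.ne', hk2⟩, Nat.even_add_one.2 (Nat.not_even_iff_odd.2 ho)⟩
        · rw [mem_filter]
          rintro ⟨_, h4, _⟩
          exact h4 (mem_insert_self _ _)
      · intro l hl
        rw [mem_filter, mem_insert, not_or, BSA_rank K k₂ l h1'] at hl
        rw [mem_filter, mem_insert, not_or, BSA_rank K k₁ l h1]
        obtain ⟨_, ⟨h4, h5⟩, h6⟩ := hl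
        rcases lt_or_gt_of_ne h4 with h7 | h7
        · -- `l < k₂`
          rw [if_neg (not_lt.2 h7.le)] at h6
          have h8 : l < k₁ := by
            by_contra h8
            have h9 : ∀ i ∈ K, i < l := fun i hi => lt_of_lt_of_le (h1 i hi) (not_lt.1 h8)
            rw [BSA_full K l h9, Nat.add_zero] at h6
            exact (Nat.not_even_iff_odd.2 ho) h6
          refine ⟨mem_univ _, ⟨h8.ne, h5⟩, ?_⟩
          rw [if_neg (not_lt.2 h8.le)]
          exact h6
        · rw [if_pos h7] at h6
          refine ⟨mem_univ _, ⟨(h2.trans h7).ne', h5⟩, ?_⟩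
          rw [if_pos (h2.trans h7)]
          exact h6
    omega

/-- the map which removes the largest element of the second part -/
theorem bs_level (m b T l : ℕ) (hm : 3 ≤ m) :
    (univ.filter fun X : Finset (Fin b ⊕ Fin T) => X.card + 1 = m ∧ X.toRight ≠ ∅ ∧
      X.toRight.card / 2 + UU X.toRight = l).card ≤ (b + T).choose (m - 2) := by
  have htarget : ((univ : Finset (Fin b ⊕ Fin T)).powersetCard (m - 2)).card = (b + T).choose (m - 2) := by
    rw [card_powersetCard, card_univ, Fintype.card_sum, Fintype.card_fin, Fintype.card_fin]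
  rw [← htarget]
  let f : Finset (Fin b ⊕ Fin T) → Finset (Fin b ⊕ Fin T) := fun X =>
    if h : X.toRight.Nonempty then X.erase (Sum.inr (X.toRight.max' h)) else X
  apply card_le_card_of_injOn f
  · intro X hX
    rw [mem_coe, mem_filter] at hX
    obtain ⟨_, h1, h2, _⟩ := hX
    have h3 : X.toRight.Nonempty := nonempty_iff_ne_empty.2 h2
    rw [mem_coe, mem_powersetCard]
    refine ⟨subset_univ _, ?_⟩
    show (if h : X.toRight.Nonempty then X.erase (Sum.inr (X.toRight.max' h)) else X).card = m - 2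
    rw [dif_pos h3, card_erase_of_mem (mem_toRight.1 (max'_mem _ h3))]
    omega
  · intro X hX Y hY hXY
    rw [mem_coe, mem_filter] at hX hY
    obtain ⟨_, hX1, hX2, hX3⟩ := hX
    obtain ⟨_, hY1, hY2, hY3⟩ := hY
    have hXn : X.toRight.Nonempty := nonempty_iff_ne_empty.2 hX2
    have hYn : Y.toRight.Nonempty := nonempty_iff_ne_empty.2 hY2
    have hXY' : X.erase (Sum.inr (X.toRight.max' hXn)) = Y.erase (Sum.inr (Y.toRight.max' hYn)) := by
      have h : (if h : X.toRight.Nonempty then X.erase (Sum.inr (X.toRight.max' h)) else X) =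
        if h : Y.toRight.Nonempty then Y.erase (Sum.inr (Y.toRight.max' h)) else Y := hXY
      rwa [dif_pos hXn, dif_pos hYn] at h
    obtain ⟨kX, hkX⟩ : ∃ kX, kX = X.toRight.max' hXn := ⟨_, rfl⟩
    obtain ⟨kY, hkY⟩ : ∃ kY, kY = Y.toRight.max' hYn := ⟨_, rfl⟩
    rw [← hkX, ← hkY] at hXY'
    have hkXm : kX ∈ X.toRight := by rw [hkX]; exact max'_mem _ _
    have hkYm : kY ∈ Y.toRight := by rw [hkY]; exact max'_mem _ _
    have hR : X.toRight.erase kX = Y.toRight.erase kY := by
      ext k
      have h := Finset.ext_iff.1 hXY' (Sum.inr k)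
      rw [mem_erase, mem_erase] at h
      rw [mem_erase, mem_erase, mem_toRight, mem_toRight]
      simpa using h
    have hKX : ∀ k ∈ X.toRight.erase kX, k < kX := by
      intro k hk
      rw [mem_erase] at hk
      exact lt_of_le_of_ne (by rw [hkX]; exact le_max' _ _ hk.2) hk.1
    have hKY : ∀ k ∈ X.toRight.erase kX, k < kY := by
      intro k hk
      rw [hR, mem_erase] at hk
      exact lt_of_le_of_ne (by rw [hkY]; exact le_max' _ _ hk.2) hk.1
    have hiX : insert kX (X.toRight.erase kX) = X.toRight := insert_erase hkXm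
    have hiY : insert kY (X.toRight.erase kX) = Y.toRight := by rw [hR]; exact insert_erase hkYm
    have hkk : kX = kY := by
      rcases lt_trichotomy kX kY with h | h | h
      · exfalso
        apply BSA_inj (X.toRight.erase kX) kX kY hKX h
        rw [hiX, hiY, hX3, hY3]
      · exact h
      · exfalso
        apply BSA_inj (X.toRight.erase kX) kY kX hKY h
        rw [hiX, hiY, hX3, hY3]
    rw [← hkk] at hXY' hkYm
    rw [← insert_erase (mem_toRight.1 hkXm), hXY', insert_erase (mem_toRight.1 hkYm)]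

theorem bs_zero (m b T : ℕ) (hm : 3 ≤ m) : bs m b T 0 + b.choose (m - 1) = (b + T).choose (m - 1) := by
  have h1 : ((univ : Finset (Fin b ⊕ Fin T)).powersetCard (m - 1)).card = (b + T).choose (m - 1) := by
    rw [card_powersetCard, card_univ, Fintype.card_sum, Fintype.card_fin, Fintype.card_fin]
  have h2 : ((univ : Finset (Fin b)).powersetCard (m - 1)).card = b.choose (m - 1) := by
    rw [card_powersetCard, card_univ, Fintype.card_fin]
  have h3 : (univ.filter fun X : Finset (Fin b ⊕ Fin T) => X.card + 1 = m ∧ X.toRight = ∅).card =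
      ((univ : Finset (Fin b)).powersetCard (m - 1)).card := by
    apply Finset.card_nbij' (fun X => X.toLeft) (fun I => I.disjSum ∅)
    · intro X hX
      rw [mem_coe, mem_filter] at hX
      rw [mem_coe, mem_powersetCard]
      have hcard : X.toLeft.card + X.toRight.card = X.card := Finset.card_toLeft_add_card_toRight
      rw [hX.2.2, card_empty] at hcard
      refine ⟨subset_univ _, ?_⟩
      show X.toLeft.card = m - 1
      omega
    · intro I hI
      rw [mem_coe, mem_powersetCard] at hI
      rw [mem_coe, mem_filter]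
      refine ⟨mem_univ _, ?_, toRight_disjSum⟩
      rw [card_disjSum, card_empty, hI.2]
      omega
    · intro X hX
      rw [mem_coe, mem_filter] at hX
      show X.toLeft.disjSum ∅ = X
      rw [← hX.2.2]
      exact toLeft_disjSum_toRight
    · intro I _
      exact toLeft_disjSum
  rw [← h1, ← h2, ← h3]
  unfold bs
  rw [← card_union_of_disjoint]
  · congr 1
    ext X
    simp only [mem_union, mem_filter, mem_univ, true_and, mem_powersetCard, subset_univ]
    have h4 := BSA_UU_le X.toRight
    constructor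
    · rintro (h | h)
      · omega
      · omega
    · intro h
      by_cases h5 : X.toRight = ∅
      · exact Or.inr ⟨by omega, h5⟩
      · exact Or.inl ⟨by omega, h5, by omega, by omega⟩
  · rw [disjoint_left]
    intro X hX hX'
    rw [mem_filter] at hX hX'
    exact hX.2.2.1 hX'.2.2

theorem bs_step (m b T j : ℕ) (hm : 3 ≤ m) (hj : j ≤ T) :
    bs m b T j ≤ bs m b T (j + 1) + 2 * (b + T).choose (m - 2) := by
  have h1 := bs_level m b T j hm
  have h2 := bs_level m b T (T - j) hm
  have h3 : (univ.filter fun X : Finset (Fin b ⊕ Fin T) => X.card + 1 = m ∧ X.toRight ≠ ∅ ∧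
    j ≤ X.toRight.card / 2 + UU X.toRight ∧ X.toRight.card / 2 + UU X.toRight + j ≤ T) ⊆
    (univ.filter fun X : Finset (Fin b ⊕ Fin T) => X.card + 1 = m ∧ X.toRight ≠ ∅ ∧
    (j + 1) ≤ X.toRight.card / 2 + UU X.toRight ∧ X.toRight.card / 2 + UU X.toRight + (j + 1) ≤ T) ∪
    ((univ.filter fun X : Finset (Fin b ⊕ Fin T) => X.card + 1 = m ∧ X.toRight ≠ ∅ ∧
      X.toRight.card / 2 + UU X.toRight = j) ∪ (univ.filter fun X : Finset (Fin b ⊕ Fin T) => X.card + 1 = m ∧ X.toRight ≠ ∅ ∧
      X.toRight.card / 2 + UU X.toRight = T - j)) := by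
    intro X hX
    rw [mem_filter] at hX
    rw [mem_union, mem_union, mem_filter, mem_filter, mem_filter]
    obtain ⟨_, h4, h5, h6, h7⟩ := hX
    by_cases h8 : X.toRight.card / 2 + UU X.toRight = j
    · exact Or.inr (Or.inl ⟨mem_univ _, h4, h5, h8⟩)
    · by_cases h9 : X.toRight.card / 2 + UU X.toRight = T - j
      · exact Or.inr (Or.inr ⟨mem_univ _, h4, h5, h9⟩)
      · exact Or.inl ⟨mem_univ _, h4, h5, by omega, by omega⟩
  have h4 := card_le_card h3
  have h5 := card_union_le (univ.filter fun X : Finset (Fin b ⊕ Fin T) => X.card + 1 = m ∧ X.toRight ≠ ∅ ∧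
    (j + 1) ≤ X.toRight.card / 2 + UU X.toRight ∧ X.toRight.card / 2 + UU X.toRight + (j + 1) ≤ T)
    ((univ.filter fun X : Finset (Fin b ⊕ Fin T) => X.card + 1 = m ∧ X.toRight ≠ ∅ ∧
      X.toRight.card / 2 + UU X.toRight = j) ∪ (univ.filter fun X : Finset (Fin b ⊕ Fin T) => X.card + 1 = m ∧ X.toRight ≠ ∅ ∧
      X.toRight.card / 2 + UU X.toRight = T - j))
  have h6 := card_union_le (univ.filter fun X : Finset (Fin b ⊕ Fin T) => X.card + 1 = m ∧ X.toRight ≠ ∅ ∧
      X.toRight.card / 2 + UU X.toRight = j) (univ.filter fun X : Finset (Fin b ⊕ Fin T) => X.card + 1 = m ∧ X.toRight ≠ ∅ ∧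
      X.toRight.card / 2 + UU X.toRight = T - j)
  unfold bs
  omega

theorem bs_last (m b T : ℕ) (hm : 3 ≤ m) : bs m b T (T / 2) ≤ 2 * (b + T).choose (m - 2) := by
  have h1 := bs_level m b T (T / 2) hm
  have h2 := bs_level m b T (T - T / 2) hm
  have h3 : (univ.filter fun X : Finset (Fin b ⊕ Fin T) => X.card + 1 = m ∧ X.toRight ≠ ∅ ∧
    T / 2 ≤ X.toRight.card / 2 + UU X.toRight ∧ X.toRight.card / 2 + UU X.toRight + T / 2 ≤ T) ⊆
    ((univ.filter fun X : Finset (Fin b ⊕ Fin T) => X.card + 1 = m ∧ X.toRight ≠ ∅ ∧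
      X.toRight.card / 2 + UU X.toRight = T / 2) ∪ (univ.filter fun X : Finset (Fin b ⊕ Fin T) => X.card + 1 = m ∧ X.toRight ≠ ∅ ∧
      X.toRight.card / 2 + UU X.toRight = T - T / 2)) := by
    intro X hX
    rw [mem_filter] at hX
    rw [mem_union, mem_filter, mem_filter]
    obtain ⟨_, h4, h5, h6, h7⟩ := hX
    by_cases h8 : X.toRight.card / 2 + UU X.toRight = T / 2
    · exact Or.inl ⟨mem_univ _, h4, h5, h8⟩
    · exact Or.inr ⟨mem_univ _, h4, h5, by omega⟩
  have h4 := card_le_card h3
  have h6 := card_union_le (univ.filter fun X : Finset (Fin b ⊕ Fin T) => X.card + 1 = m ∧ X.toRight ≠ ∅ ∧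
      X.toRight.card / 2 + UU X.toRight = T / 2) (univ.filter fun X : Finset (Fin b ⊕ Fin T) => X.card + 1 = m ∧ X.toRight ≠ ∅ ∧
      X.toRight.card / 2 + UU X.toRight = T - T / 2)
  unfold bs
  omega

end Pool.Agent.RVG
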