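import Pool.Agent.MP_c130bd_co.RVG.TAJ

set_option autoImplicit false

namespace Pool.Agent.RVG

open Finset

/-! ## [RVG-BSC] the base numbers for `m = 3` -/

theorem UU_pair {T : ℕ} (k₁ k₂ : Fin T) (h : k₁ < k₂) : UU {k₁, k₂} = (k₁ : ℕ) + (T - 1 - k₂) := by
  unfold UU
  have h1 : (univ.filter fun l : Fin T => l ∉ ({k₁, k₂} : Finset (Fin T)) ∧
      Even (({k₁, k₂} : Finset (Fin T)).filter (· < l)).card) = Finset.Iio k₁ ∪ Finset.Ioi k₂ := by
    ext l
    simp only [mem_filter, mem_univ, true_and, mem_insert, mem_singleton, mem_union, mem_Iio, mem_Ioi, not_or]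
    have hne : k₁ ≠ k₂ := h.ne
    rw [filter_insert, filter_singleton]
    by_cases h2 : k₁ < l
    · rw [if_pos h2]
      by_cases h3 : k₂ < l
      · rw [if_pos h3, card_pair hne]
        constructor
        · intro _
          exact Or.inr h3
        · intro _
          exact ⟨⟨h2.ne', h3.ne'⟩, even_two⟩
      · rw [if_neg h3]
        constructor
        · rintro ⟨_, h4⟩
          exact absurd h4 (by simp)
        · rintro (h4 | h4)
          · exact absurd (h4.trans h2) (lt_irrefl _)
          · exact absurd h4 h3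
    · have h3 : ¬ k₂ < l := fun h3 => h2 (h.trans h3)
      rw [if_neg h2, if_neg h3, card_empty]
      constructor
      · rintro ⟨⟨h4, _⟩, _⟩
        exact Or.inl (lt_of_le_of_ne (not_lt.1 h2) h4)
      · rintro (h4 | h4)
        · exact ⟨⟨h4.ne, (h4.trans h).ne⟩, Even.zero⟩
        · exact absurd h4 h3
  rw [h1, card_union_of_disjoint, Fin.card_Iio, Fin.card_Ioi]
  rw [disjoint_left]
  intro l hl hl'
  rw [mem_Iio] at hl
  rw [mem_Ioi] at hl'
  exact lt_irrefl _ (hl.trans (h.trans hl'))

theorem BSC_sum (j p : ℕ) : 2 * ∑ k ∈ range (2 * j + p), min (p + 1) (j + p - k) = (p + 1) * (2 * j + p) := by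
  rw [show 2 * j + p = j + (p + j) by ring, Finset.sum_range_add, Finset.sum_range_add]
  have h1 : ∑ x ∈ range j, min (p + 1) (j + p - x) = j * (p + 1) := by
    rw [Finset.sum_congr rfl (g := fun _ => p + 1)]
    · rw [sum_const, card_range, smul_eq_mul]
    · intro x hx
      rw [mem_range] at hx
      omega
  have h2 : ∑ x ∈ range p, min (p + 1) (j + p - (j + x)) = ∑ x ∈ range p, (p - x) := by
    apply Finset.sum_congr rfl
    intro x hx
    rw [mem_range] at hx
    omega
  have h3 : ∑ x ∈ range j, min (p + 1) (j + p - (j + (p + x))) = 0 := by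
    apply Finset.sum_eq_zero
    intro x _
    omega
  have h4 : 2 * ∑ x ∈ range p, (p - x) = p * (p + 1) := by
    clear h1 h2 h3
    induction p with
    | zero => simp
    | succ p ih =>
      rw [Finset.sum_range_succ']
      have h5 : ∑ k ∈ range p, (p + 1 - (k + 1)) = ∑ x ∈ range p, (p - x) := by
        apply Finset.sum_congr rfl
        intro x _
        omega
      rw [h5]
      have h6 : 2 * (∑ x ∈ range p, (p - x) + (p + 1 - 0)) = 2 * ∑ x ∈ range p, (p - x) + 2 * (p + 1) := by
        rw [Nat.sub_zero]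
        ring
      rw [h6, ih]
      ring
  rw [h1, h2, h3]
  have h7 : 2 * (j * (p + 1) + (∑ x ∈ range p, (p - x) + 0)) = 2 * (j * (p + 1)) + 2 * ∑ x ∈ range p, (p - x) := by ring
  rw [h7, h4]
  ring

theorem BSC_pairs (T j : ℕ) (hj : 1 ≤ j) (hjT : 2 * j ≤ T) :
    2 * (univ.filter fun p : Fin T × Fin T => (p.1 : ℕ) + j ≤ p.2 ∧ (p.2 : ℕ) ≤ p.1 + (T - j)).card = (T + 1 - 2 * j) * T := by
  obtain ⟨q, rfl⟩ : ∃ q, T = 2 * j + q := ⟨T - 2 * j, by omega⟩
  have h1 : (univ.filter fun p : Fin (2 * j + q) × Fin (2 * j + q) => (p.1 : ℕ) + j ≤ p.2 ∧ (p.2 : ℕ) ≤ p.1 + (2 * j + q - j)).card =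
      ∑ k ∈ range (2 * j + q), min (q + 1) (j + q - k) := by
    rw [card_filter, Fintype.sum_prod_type, ← Fin.sum_univ_eq_sum_range (fun k => min (q + 1) (j + q - k)) (2 * j + q)]
    apply sum_congr rfl
    intro k _
    rw [← card_filter]
    have hk := k.2
    have h2 : (univ.filter fun l : Fin (2 * j + q) => (k : ℕ) + j ≤ l ∧ (l : ℕ) ≤ k + (2 * j + q - j)).card =
        (Icc ((k : ℕ) + j) (min (2 * j + q - 1) (k + (j + q)))).card := by
      rw [← card_map Fin.valEmbedding]
      congr 1
      ext n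
      simp only [mem_map, mem_filter, mem_univ, true_and, Fin.valEmbedding_apply, mem_Icc]
      constructor
      · rintro ⟨l, h3, rfl⟩
        have := l.2
        omega
      · intro h3
        exact ⟨⟨n, by omega⟩, by show (k : ℕ) + j ≤ n ∧ n ≤ k + (2 * j + q - j); omega, rfl⟩
    have h3 : (univ.filter fun l : Fin (2 * j + q) => ((k, l).1 : ℕ) + j ≤ (k, l).2 ∧ ((k, l).2 : ℕ) ≤ (k, l).1 + (2 * j + q - j)).card =
      (univ.filter fun l : Fin (2 * j + q) => (k : ℕ) + j ≤ l ∧ (l : ℕ) ≤ k + (2 * j + q - j)).card := rfl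
    rw [h3, h2, Nat.card_Icc]
    omega
  rw [h1, BSC_sum, show 2 * j + q + 1 - 2 * j = q + 1 by omega]

theorem bs_three (b T j : ℕ) (hj : 1 ≤ j) (hjT : 2 * j ≤ T) :
    2 * bs 3 b T j = (T + 1 - 2 * j) * (2 * b + T) := by
  have hsplit : bs 3 b T j = (univ.filter fun X : Finset (Fin b ⊕ Fin T) => X.toRight.card = 1 ∧ ∀ k ∈ X.toRight,
        (X.toLeft.card + 2 = 3 ∧ j ≤ (k : ℕ) ∧ (k : ℕ) + j ≤ T)).card +
      (univ.filter fun p : Fin T × Fin T => (p.1 : ℕ) + j ≤ p.2 ∧ (p.2 : ℕ) ≤ p.1 + (T - j)).card := by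
    have h1 : (univ.filter fun p : Fin T × Fin T => (p.1 : ℕ) + j ≤ p.2 ∧ (p.2 : ℕ) ≤ p.1 + (T - j)).card =
        (univ.filter fun X : Finset (Fin b ⊕ Fin T) => X.card = 2 ∧ X.toRight.card = 2 ∧
          j ≤ X.toRight.card / 2 + UU X.toRight ∧ X.toRight.card / 2 + UU X.toRight + j ≤ T).card := by
      apply Finset.card_bij (fun p _ => (∅ : Finset (Fin b)).disjSum {p.1, p.2})
      · rintro ⟨k, l⟩ hp
        rw [mem_filter] at hp ⊢
        obtain ⟨_, h2, h3⟩ := hp
        have h2' : (k : ℕ) + j ≤ l := h2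
        have h3' : (l : ℕ) ≤ k + (T - j) := h3
        have hkl : k < l := by
          show (k : ℕ) < l
          omega
        have hl := l.2
        rw [toRight_disjSum, card_disjSum, card_empty, card_pair hkl.ne, UU_pair k l hkl]
        refine ⟨mem_univ _, rfl, rfl, ?_, ?_⟩ <;> omega
      · rintro ⟨k, l⟩ hp ⟨k', l'⟩ hp' h
        rw [mem_filter] at hp hp'
        obtain ⟨_, h2, _⟩ := hp
        obtain ⟨_, h2', _⟩ := hp'
        have h3 := congrArg toRight h
        rw [toRight_disjSum, toRight_disjSum] at h3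
        have g1 : (k : ℕ) + j ≤ l := h2
        have g2 : (k' : ℕ) + j ≤ l' := h2'
        have h3' : ({k, l} : Finset (Fin T)) = {k', l'} := h3
        have h4 : k ∈ ({k', l'} : Finset (Fin T)) := by rw [← h3']; exact mem_insert_self _ _
        have h5 : l ∈ ({k', l'} : Finset (Fin T)) := by rw [← h3']; exact mem_insert_of_mem (mem_singleton_self _)
        rw [mem_insert, mem_singleton] at h4 h5
        rcases h4 with h4 | h4
        · rcases h5 with h5 | h5
          · exfalso
            rw [h4, h5] at g1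
            omega
          · rw [h4, h5]
        · rcases h5 with h5 | h5
          · exfalso
            rw [h4, h5] at g1
            omega
          · exfalso
            rw [h4, h5] at g1
            omega
      · intro X hX
        rw [mem_filter] at hX
        obtain ⟨_, h2, h3, h4, h5⟩ := hX
        have hcard : X.toLeft.card + X.toRight.card = X.card := Finset.card_toLeft_add_card_toRight
        have hL : X.toLeft = ∅ := card_eq_zero.1 (by omega)
        obtain ⟨u, w, huw, hR⟩ := card_eq_two.1 h3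
        have hX' : (∅ : Finset (Fin b)).disjSum X.toRight = X := by
          rw [← hL]
          exact toLeft_disjSum_toRight
        have key : ∀ k l : Fin T, k < l → X.toRight = {k, l} → ∃ a, ∃ (_ : a ∈ univ.filter fun p : Fin T × Fin T =>
            (p.1 : ℕ) + j ≤ p.2 ∧ (p.2 : ℕ) ≤ p.1 + (T - j)), (∅ : Finset (Fin b)).disjSum {a.1, a.2} = X := by
          intro k l hkl hR
          refine ⟨(k, l), ?_, ?_⟩
          · rw [mem_filter]
            rw [hR, card_pair hkl.ne, UU_pair k l hkl] at h4 h5
            have hl := l.2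
            have hkl' : (k : ℕ) < l := hkl
            refine ⟨mem_univ _, ?_, ?_⟩
            · show (k : ℕ) + j ≤ l
              omega
            · show (l : ℕ) ≤ k + (T - j)
              omega
          · show (∅ : Finset (Fin b)).disjSum {k, l} = X
            rw [← hR]
            exact hX'
        rcases lt_or_gt_of_ne huw with h6 | h6
        · exact key u w h6 hR
        · exact key w u h6 (by rw [hR, pair_comm])
    rw [h1]
    unfold bs
    rw [← card_union_of_disjoint]
    · congr 1
      ext X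
      simp only [mem_union, mem_filter, mem_univ, true_and]
      have hcard : X.toLeft.card + X.toRight.card = X.card := Finset.card_toLeft_add_card_toRight
      by_cases hr : X.toRight.card = 1
      · obtain ⟨k, hk⟩ := card_eq_one.1 hr
        have hne : X.toRight ≠ ∅ := by
          rw [hk]
          exact singleton_ne_empty k
        rw [hr] at hcard
        have hU : UU X.toRight = k := by rw [hk, UU_single]
        rw [hr, hU]
        have hall : (∀ k' ∈ X.toRight, (X.toLeft.card + 2 = 3 ∧ j ≤ (k' : ℕ) ∧ (k' : ℕ) + j ≤ T)) ↔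
            (X.toLeft.card + 2 = 3 ∧ j ≤ (k : ℕ) ∧ (k : ℕ) + j ≤ T) := by
          rw [hk]
          simp only [mem_singleton, forall_eq]
        rw [hall]
        constructor
        · rintro ⟨h2, _, h3, h4⟩
          exact Or.inl ⟨rfl, by omega, by omega, by omega⟩
        · rintro (⟨_, h2, h3, h4⟩ | ⟨_, h2, _⟩)
          · exact ⟨by omega, hne, by omega, by omega⟩
          · omega
      · constructor
        · rintro ⟨h2, h3, h4, h5⟩
          have h6 : X.toRight.card ≠ 0 := fun h => h3 (card_eq_zero.1 h)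
          have h7 : X.toRight.card = 2 := by omega
          exact Or.inr ⟨by omega, h7, h4, h5⟩
        · rintro (⟨h2, _⟩ | ⟨h2, h3, h4, h5⟩)
          · exact absurd h2 hr
          · refine ⟨by omega, ?_, h4, h5⟩
            intro h6
            rw [h6, card_empty] at h3
            omega
    · rw [disjoint_left]
      intro X hX hX'
      rw [mem_filter] at hX hX'
      omega
  have h1 : (univ.filter fun X : Finset (Fin b ⊕ Fin T) => X.toRight.card = 1 ∧ ∀ k ∈ X.toRight,
        (X.toLeft.card + 2 = 3 ∧ j ≤ (k : ℕ) ∧ (k : ℕ) + j ≤ T)).card = b * (T + 1 - 2 * j) := by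
    rw [TAJ_pairs (fun (J : Finset (Fin b)) (k : Fin T) => J.card + 2 = 3 ∧ j ≤ (k : ℕ) ∧ (k : ℕ) + j ≤ T)]
    have h2 : (univ.filter fun k : Fin T => j ≤ (k : ℕ) ∧ (k : ℕ) + j ≤ T).card = T + 1 - 2 * j := by
      have h3 : (univ.filter fun k : Fin T => j ≤ (k : ℕ) ∧ (k : ℕ) + j ≤ T).card = (Icc j (T - j)).card := by
        rw [← card_map Fin.valEmbedding]
        congr 1
        ext n
        simp only [mem_map, mem_filter, mem_univ, true_and, Fin.valEmbedding_apply, mem_Icc]
        constructor
        · rintro ⟨l, h3, rfl⟩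
          omega
        · intro h3
          exact ⟨⟨n, by omega⟩, by show j ≤ n ∧ n + j ≤ T; omega, rfl⟩
      rw [h3, Nat.card_Icc]
      omega
    have h3 : ∀ J : Finset (Fin b), (univ.filter fun k : Fin T => J.card + 2 = 3 ∧ j ≤ (k : ℕ) ∧ (k : ℕ) + j ≤ T).card =
        if J.card = 1 then T + 1 - 2 * j else 0 := by
      intro J
      by_cases h4 : J.card = 1
      · rw [if_pos h4, ← h2, h4]
        simp
      · rw [if_neg h4, card_eq_zero, filter_eq_empty_iff]
        rintro k - ⟨h5, _⟩
        omega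
    rw [sum_congr rfl fun J _ => h3 J, ← sum_filter, sum_const, smul_eq_mul]
    congr 1
    have h4 : (univ.filter fun J : Finset (Fin b) => J.card = 1) = (univ : Finset (Fin b)).powersetCard 1 := by
      ext J
      simp
    rw [h4, card_powersetCard, card_univ, Fintype.card_fin, Nat.choose_one_right]
  rw [hsplit, h1, mul_add, BSC_pairs T j hj hjT]
  ring

end Pool.Agent.RVG
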