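import Mathlib

/-!
# Primitive Radon vectors with a zero block (MP_c130bd_co): definitions
-/

set_option autoImplicit false

namespace Pool.Agent.RVG

open Finset

variable {b T : ℕ}

/-! ## the combinatorial description of the configurations -/

/-- the number of the `l ∉ K` with an even number of elements of `K` below them -/
def UU (K : Finset (Fin T)) : ℕ :=
  (univ.filter fun l => l ∉ K ∧ Even (K.filter (· < l)).card).card

/-- the number of the `j ∉ J` with `∑_J a + a j < x` -/
def dg (a : Fin b → ℕ) (J : Finset (Fin b)) (x : ℕ) : ℕ :=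
  (univ.filter fun j => j ∉ J ∧ ∑ i ∈ J, a i + a j < x).card

/-- the level of `X` -/
def lev (β : ℕ) (a : Fin b → ℕ) (x : Fin T → ℕ) (X : Finset (Fin b ⊕ Fin T)) : ℕ :=
  if X.toRight = ∅ then β + (univ.filter fun k => ∑ i ∈ X.toLeft, a i < x k).card
  else β + (X.toRight.card / 2 + UU X.toRight) +
    if X.toRight.card = 1 then (∑ k ∈ X.toRight, dg a X.toLeft (x k)) % 2 else 0

/-- the number of the `(m-1)`-subsets with the sum `< x` plus the number of the `(m-2)`-subsets of odd degree -/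
def CC (m : ℕ) (a : Fin b → ℕ) (x : ℕ) : ℕ :=
  (univ.filter fun I : Finset (Fin b) => I.card + 1 = m ∧ ∑ i ∈ I, a i < x).card +
  (univ.filter fun J : Finset (Fin b) => J.card + 2 = m ∧ Odd (dg a J x)).card

/-- the number of the `(m-1)`-subsets which meet the second part and have the base level between `j` and `T - j` -/
def bs (m b T j : ℕ) : ℕ :=
  (univ.filter fun X : Finset (Fin b ⊕ Fin T) => X.card + 1 = m ∧ X.toRight ≠ ∅ ∧
    j ≤ X.toRight.card / 2 + UU X.toRight ∧ X.toRight.card / 2 + UU X.toRight + j ≤ T).card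

/-- the change of `CC` at the sum of `I` -/
def cI (I : Finset (Fin b)) : ℤ := 1 + ∑ i ∈ I, (-1) ^ (univ.filter fun j => j ∉ I ∧ j < i).card

/-- the rank of the sum of `I₀` -/
def rk (m : ℕ) (a : Fin b → ℕ) (I₀ : Finset (Fin b)) : ℕ :=
  (univ.filter fun I : Finset (Fin b) => I.card + 1 = m ∧ ∑ i ∈ I, a i < ∑ i ∈ I₀, a i).card

/-! ## the vectors -/

/-- `t, 1, t², t³, …` -/
noncomputable def psi (t : ℝ) (j : ℕ) : ℝ := if j = 0 then t else if j = 1 then 1 else t ^ j

/-- the Gale vectors: the coordinate `n` of the vectors of the second part is `ζ^(m-2-n) t^(m-1-n)`, the last two coordinates are `1` and `t` -/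
noncomputable def VV (m : ℕ) (a : Fin b → ℝ) (t : Fin T → ℝ) (ζ : ℝ) : Fin b ⊕ Fin T → Fin m → ℝ
  | Sum.inl i => fun n => (-1) ^ ((i : ℕ) + (m - 1)) * a i ^ (n : ℕ)
  | Sum.inr k => fun n => ζ ^ (m - 1 - n - 1) * psi (t k) (m - 1 - n)

/-- the sign of the product with the normal vector of `X`, first part -/
noncomputable def sgB (m : ℕ) (a : Fin b → ℝ) (t : Fin T → ℝ) (X : Finset (Fin b ⊕ Fin T)) (i : Fin b) : ℝ :=
  (-1) ^ ((i : ℕ) + (m - 1)) * (∏ i' ∈ X.toLeft, (a i - a i')) *
    if X.toRight.card = 1 then ∏ k ∈ X.toRight, (a i + ∑ i' ∈ X.toLeft, a i' - t k) else 1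

/-- the sign of the product with the normal vector of `X`, second part -/
noncomputable def sgU (a : Fin b → ℝ) (t : Fin T → ℝ) (X : Finset (Fin b ⊕ Fin T)) (l : Fin T) : ℝ :=
  if X.toRight = ∅ then t l - ∑ i ∈ X.toLeft, a i else ∏ k ∈ X.toRight, (t l - t k)

/-- the sign of the product with the normal vector of `X` -/
noncomputable def sg (m : ℕ) (a : Fin b → ℝ) (t : Fin T → ℝ) (X : Finset (Fin b ⊕ Fin T)) :
    Fin b ⊕ Fin T → ℝ := Sum.elim (sgB m a t X) (sgU a t X)

end Pool.Agent.RVG
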