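import Pool.Agent.MP_c130bd_co.RVG.M3D

set_option autoImplicit false

namespace Pool.Agent.RVG

open Finset

/-! ## [RVG-M3B] the order of the states and the windows -/

/-- the beginnings of the blocks -/
theorem M3B_block {q q' : ℕ} (h : q < q') : q * (2 * q + 1) + 4 * q + 3 ≤ q' * (2 * q' + 1) := by
  obtain ⟨u, rfl⟩ : ∃ u, q' = q + 1 + u := ⟨q' - q - 1, by omega⟩
  nlinarith [Nat.zero_le (q * u), Nat.zero_le (u * u)]

theorem M3B_w {w : ℕ} (h : w < 3) : w * (w + 1) / 2 ≤ 3 ∧ w ≤ w * (w + 1) / 2 ∧ (w * (w + 1) / 2 = 0 ∨ w * (w + 1) / 2 = 1 ∨ w * (w + 1) / 2 = 3) := by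
  interval_cases w <;> simp

theorem vl_le (M q r w : ℕ) (h : St M q r w) : vl q r w ≤ M * (2 * M + 1) := by
  unfold vl
  rcases h with ⟨hr, hq, hw⟩ | ⟨hr, hq, hw⟩ | ⟨hq, hr, hw⟩
  · have h1 := M3B_block hq
    have h2 := M3B_w hw
    omega
  · subst hw
    have h1 := M3B_block hq
    omega
  · subst hq hr hw
    simp

theorem M3B_pow {x y : ℕ} (h : x < y) : 4 * 4 ^ x ≤ 4 ^ y := by
  have h1 : 4 ^ (x + 1) ≤ 4 ^ y := Nat.pow_le_pow_right (by norm_num) h
  rw [pow_succ] at h1
  omega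

theorem M3B_pos (x : ℕ) : 1 ≤ 4 ^ x := Nat.one_le_pow _ _ (by norm_num)

/-- the block of a state is determined by the value -/
theorem M3B_rng (M q r w : ℕ) (h : St M q r w) : q * (2 * q + 1) ≤ vl q r w ∧ vl q r w < q * (2 * q + 1) + 4 * q + 3 ∧
    2 * 4 ^ q + 1 ≤ thr q r w ∧ thr q r w ≤ 4 * 4 ^ q + 1 := by
  have hQ := M3B_pos q
  have hR := M3B_pos r
  unfold vl thr
  rcases h with ⟨hr, hq, hw⟩ | ⟨hr, hq, hw⟩ | ⟨hq, hr, hw⟩
  · have h2 := M3B_w hw
    have h3 := M3B_pow hr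
    rw [if_neg (by omega)]
    omega
  · subst hr hw
    rw [if_pos rfl]
    omega
  · subst hr hw
    split_ifs with h1
    · rw [← h1]
      simp
    · rw [pow_zero]
      omega

theorem thr_mono (M q r w q' r' w' : ℕ) (h : St M q r w) (h' : St M q' r' w') (hv : vl q r w ≤ vl q' r' w') :
    thr q r w ≤ thr q' r' w' := by
  have e1 := M3B_rng M q r w h
  have e2 := M3B_rng M q' r' w' h'
  have hQ := M3B_pos q
  have hR := M3B_pos r
  have hR' := M3B_pos r'
  rcases lt_trichotomy q q' with h1 | h1 | h1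
  · have h2 := M3B_pow h1
    omega
  · subst h1
    unfold vl at hv
    unfold thr
    rcases h with ⟨hr, hq, hw⟩ | ⟨hr, hq, hw⟩ | ⟨hq, hr, hw⟩
    · rcases h' with ⟨hr', hq', hw'⟩ | ⟨hr', hq', hw'⟩ | ⟨hq', hr', hw'⟩
      · rw [if_neg (by omega), if_neg (by omega)]
        have h2 := M3B_w hw
        have h3 := M3B_w hw'
        rcases lt_trichotomy r r' with h4 | h4 | h4
        · have h5 := M3B_pow h4
          omega
        · subst h4
          have h6 : w ≤ w' := by
            by_contra h7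
            interval_cases w <;> interval_cases w' <;> simp_all
          omega
        · omega
      · rw [if_neg (by omega), if_pos hr']
        have h5 := M3B_pow hr
        omega
      · omega
    · rcases h' with ⟨hr', hq', hw'⟩ | ⟨hr', hq', hw'⟩ | ⟨hq', hr', hw'⟩
      · exfalso
        subst hr hw
        have h3 := M3B_w hw'
        omega
      · rw [if_pos hr, if_pos hr']
      · omega
    · rcases h' with ⟨hr', hq', hw'⟩ | ⟨hr', hq', hw'⟩ | ⟨hq', hr', hw'⟩
      · omega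
      · omega
      · subst hr hr' hw hw'
        exact le_rfl
  · exfalso
    have h2 := M3B_block h1
    omega

/-- the value with the offset `f` in the block `q` -/
theorem M3B_mem (M q f : ℕ) (hq : q < M) (hf : (f % 4 ≠ 2 ∧ f < 4 * q) ∨ f = 4 * q) :
    ∃ q' r w, St M q' r w ∧ vl q' r w = q * (2 * q + 1) + f := by
  rcases hf with ⟨h1, h2⟩ | h1
  · have h3 : f / 4 < q := by omega
    have h4 : f % 4 = 0 ∨ f % 4 = 1 ∨ f % 4 = 3 := by omega
    rcases h4 with h4 | h4 | h4
    · refine ⟨q, f / 4, 0, Or.inl ⟨h3, hq, by norm_num⟩, ?_⟩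
      unfold vl
      omega
    · refine ⟨q, f / 4, 1, Or.inl ⟨h3, hq, by norm_num⟩, ?_⟩
      unfold vl
      omega
    · refine ⟨q, f / 4, 2, Or.inl ⟨h3, hq, by norm_num⟩, ?_⟩
      unfold vl
      omega
  · refine ⟨q, q, 0, Or.inr (Or.inl ⟨rfl, hq, rfl⟩), ?_⟩
    unfold vl
    omega

/-- the value with the offset `4 q + 3 + f` in the block `q` -/
theorem M3B_mem' (M q f : ℕ) (hq : q < M) (hf : f = 0 ∨ (q + 1 < M ∧ (f = 1 ∨ f = 3 ∨ f = 4))) :
    ∃ q' r w, St M q' r w ∧ vl q' r w = q * (2 * q + 1) + (4 * q + 3 + f) := by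
  have e : (q + 1) * (2 * (q + 1) + 1) = q * (2 * q + 1) + (4 * q + 3) := by ring
  rcases hf with h1 | ⟨h0, h1⟩
  · subst h1
    rcases Nat.lt_or_ge (q + 1) M with h2 | h2
    · obtain ⟨q', r, w, h3, h4⟩ := M3B_mem M (q + 1) 0 h2 (Or.inl ⟨by norm_num, by omega⟩)
      exact ⟨q', r, w, h3, by omega⟩
    · refine ⟨q + 1, 0, 0, Or.inr (Or.inr ⟨by omega, rfl, rfl⟩), ?_⟩
      unfold vl
      omega
  · obtain ⟨q', r, w, h3, h4⟩ := M3B_mem M (q + 1) f h0 (by omega)
    exact ⟨q', r, w, h3, by omega⟩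

theorem window (M y : ℕ) (hy : y + 6 ≤ M * (2 * M + 1)) : ∃ F : Finset ℕ, F.card = 4 ∧
    ∀ e ∈ F, y ≤ e ∧ e ≤ y + 6 ∧ ∃ q r w, St M q r w ∧ vl q r w = e := by
  -- the block
  have hex : ∃ q, q < M ∧ q * (2 * q + 1) ≤ y ∧ y < q * (2 * q + 1) + 4 * q + 3 := by
    have h1 : ∃ q, y < q * (2 * q + 1) := ⟨M, by omega⟩
    classical
    have h2 := Nat.find_spec h1
    have h3 : Nat.find h1 ≠ 0 := by
      intro h3
      rw [h3] at h2
      omega
    obtain ⟨q, hq⟩ : ∃ q, Nat.find h1 = q + 1 := ⟨Nat.find h1 - 1, by omega⟩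
    have h4 : ¬ y < q * (2 * q + 1) := Nat.find_min h1 (by omega)
    have h5 : Nat.find h1 ≤ M := Nat.find_min' h1 (by omega)
    rw [hq] at h2
    have e : (q + 1) * (2 * (q + 1) + 1) = q * (2 * q + 1) + (4 * q + 3) := by ring
    exact ⟨q, by omega, by omega, by omega⟩
  obtain ⟨q, hq, h1, h2⟩ := hex
  obtain ⟨f, hf⟩ : ∃ f, y = q * (2 * q + 1) + f := ⟨y - q * (2 * q + 1), by omega⟩
  obtain ⟨B, hB⟩ : ∃ B, B = q * (2 * q + 1) := ⟨_, rfl⟩
  -- is the next block complete
  have hnext : q + 1 < M ∨ f + 6 ≤ 4 * q + 3 := by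
    rcases Nat.lt_or_ge (q + 1) M with h3 | h3
    · exact Or.inl h3
    · right
      have h4 : M = q + 1 := by omega
      rw [h4] at hy
      have e : (q + 1) * (2 * (q + 1) + 1) = q * (2 * q + 1) + (4 * q + 3) := by ring
      omega
  have m1 := fun f hf => M3B_mem M q f hq hf
  have m2 := fun f hf => M3B_mem' M q f hq hf
  rw [← hB] at m1 m2 hf h2
  -- the four values
  have key : ∃ f1 f2 f3 f4 : ℕ, f ≤ f1 ∧ f1 < f2 ∧ f2 < f3 ∧ f3 < f4 ∧ f4 ≤ f + 6 ∧
      ∀ g, g = f1 ∨ g = f2 ∨ g = f3 ∨ g = f4 → ((g % 4 ≠ 2 ∧ g < 4 * q) ∨ g = 4 * q) ∨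
        ∃ g', g = 4 * q + 3 + g' ∧ (g' = 0 ∨ (q + 1 < M ∧ (g' = 1 ∨ g' = 3 ∨ g' = 4))) := by
    rcases Nat.lt_or_ge f (4 * q) with h3 | h3
    · obtain ⟨r, hr⟩ : ∃ r, r = f / 4 := ⟨_, rfl⟩
      have h4 : f % 4 = 0 ∨ f % 4 = 1 ∨ f % 4 = 2 ∨ f % 4 = 3 := by omega
      rcases Nat.lt_or_ge (r + 1) q with h5 | h5
      · rcases h4 with h4 | h4 | h4
        · refine ⟨4 * r, 4 * r + 1, 4 * r + 3, 4 * r + 4, by omega, by omega, by omega, by omega, by omega, ?_⟩
          intro g hg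
          left
          omega
        · refine ⟨4 * r + 1, 4 * r + 3, 4 * r + 4, 4 * r + 5, by omega, by omega, by omega, by omega, by omega, ?_⟩
          intro g hg
          left
          omega
        · refine ⟨4 * r + 3, 4 * r + 4, 4 * r + 5, 4 * r + 7, by omega, by omega, by omega, by omega, by omega, ?_⟩
          intro g hg
          left
          omega
      · have h6 : r + 1 = q := by omega
        rcases h4 with h4 | h4 | h4
        · refine ⟨4 * r, 4 * r + 1, 4 * r + 3, 4 * r + 4, by omega, by omega, by omega, by omega, by omega, ?_⟩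
          intro g hg
          left
          omega
        · refine ⟨4 * r + 1, 4 * r + 3, 4 * r + 4, 4 * q + 3, by omega, by omega, by omega, by omega, by omega, ?_⟩
          intro g hg
          rcases hg with hg | hg | hg | hg
          · left; omega
          · left; omega
          · left; omega
          · right; exact ⟨0, by omega, Or.inl rfl⟩
        · refine ⟨4 * r + 3, 4 * r + 4, 4 * q + 3, 4 * q + 4, by omega, by omega, by omega, by omega, by omega, ?_⟩
          intro g hg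
          rcases hg with hg | hg | hg | hg
          · left; omega
          · left; omega
          · right; exact ⟨0, by omega, Or.inl rfl⟩
          · right; exact ⟨1, by omega, Or.inr ⟨by omega, Or.inl rfl⟩⟩
    · have h5 : q + 1 < M := by omega
      rcases Nat.eq_or_lt_of_le h3 with h4 | h4
      · refine ⟨4 * q, 4 * q + 3, 4 * q + 4, 4 * q + 6, by omega, by omega, by omega, by omega, by omega, ?_⟩
        intro g hg
        rcases hg with hg | hg | hg | hg
        · left; omega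
        · right; exact ⟨0, by omega, Or.inl rfl⟩
        · right; exact ⟨1, by omega, Or.inr ⟨h5, Or.inl rfl⟩⟩
        · right; exact ⟨3, by omega, Or.inr ⟨h5, Or.inr (Or.inl rfl)⟩⟩
      · refine ⟨4 * q + 3, 4 * q + 4, 4 * q + 6, 4 * q + 7, by omega, by omega, by omega, by omega, by omega, ?_⟩
        intro g hg
        rcases hg with hg | hg | hg | hg
        · right; exact ⟨0, by omega, Or.inl rfl⟩
        · right; exact ⟨1, by omega, Or.inr ⟨h5, Or.inl rfl⟩⟩
        · right; exact ⟨3, by omega, Or.inr ⟨h5, Or.inr (Or.inl rfl)⟩⟩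
        · right; exact ⟨4, by omega, Or.inr ⟨h5, Or.inr (Or.inr rfl)⟩⟩
  obtain ⟨f1, f2, f3, f4, k1, k2, k3, k4, k5, k6⟩ := key
  refine ⟨{B + f1, B + f2, B + f3, B + f4}, ?_, ?_⟩
  · rw [card_insert_of_notMem, card_insert_of_notMem, card_pair]
    · omega
    · rw [mem_insert, mem_singleton]
      omega
    · rw [mem_insert, mem_insert, mem_singleton]
      omega
  · intro e he
    rw [mem_insert, mem_insert, mem_insert, mem_singleton] at he
    have hval : ∀ g, g = f1 ∨ g = f2 ∨ g = f3 ∨ g = f4 → ∃ q r w, St M q r w ∧ vl q r w = B + g := by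
      intro g hg
      rcases k6 g hg with h3 | ⟨g', h3, h4⟩
      · exact m1 g h3
      · rw [h3]
        exact m2 g' h4
    rcases he with rfl | rfl | rfl | rfl
    · exact ⟨by omega, by omega, hval f1 (Or.inl rfl)⟩
    · exact ⟨by omega, by omega, hval f2 (Or.inr (Or.inl rfl))⟩
    · exact ⟨by omega, by omega, hval f3 (Or.inr (Or.inr (Or.inl rfl)))⟩
    · exact ⟨by omega, by omega, hval f4 (Or.inr (Or.inr (Or.inr rfl)))⟩

end Pool.Agent.RVG
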