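import Pool.Agent.MP_c130bd_co.RVG.M3F
import Pool.Agent.MP_c130bd_co.RVG.M3B

set_option autoImplicit false

namespace Pool.Agent.RVG

open Finset

/-! ## [RVG-M3V] the values for `m = 3` -/

theorem m3v (M : ℕ) (hM : 2 ≤ M) : ∃ a : Fin (2 * M) → ℕ, StrictMono a ∧ ∃ (A : Finset ℕ) (x : ℕ → ℕ),
    (∀ e ∈ A, e ≤ M * (2 * M + 1)) ∧ (∀ e ∈ A, ∀ e' ∈ A, e ≤ e' → x e ≤ x e') ∧
    (∀ e ∈ A, CC 3 a (x e) = e) ∧ (∀ e ∈ A, ∀ I : Finset (Fin (2 * M)), I.card + 1 = 3 → ∑ i ∈ I, a i ≠ x e) ∧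
    ∀ y, y + 6 ≤ M * (2 * M + 1) → 4 ≤ (A.filter fun e => y ≤ e ∧ e ≤ y + 6).card := by
  classical
  have hx : ∀ e : ℕ, ∃ x : ℕ, ∀ q r w, St M q r w → vl q r w = e → thr q r w = x := by
    intro e
    by_cases h : ∃ q r w, St M q r w ∧ vl q r w = e
    · obtain ⟨q, r, w, h1, h2⟩ := h
      refine ⟨thr q r w, ?_⟩
      intro q' r' w' h1' h2'
      exact le_antisymm (thr_mono M _ _ _ _ _ _ h1' h1 (by omega)) (thr_mono M _ _ _ _ _ _ h1 h1' (by omega))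
    · exact ⟨0, fun q r w h1 h2 => absurd ⟨q, r, w, h1, h2⟩ h⟩
  choose x hx using hx
  refine ⟨a3 M, a3_mono M, (range (M * (2 * M + 1) + 1)).filter fun e => ∃ q r w, St M q r w ∧ vl q r w = e, x,
    ?_, ?_, ?_, ?_, ?_⟩
  · intro e he
    have := Finset.mem_range.1 (Finset.mem_filter.1 he).1
    omega
  · intro e he e' he' hle
    obtain ⟨q, r, w, h1, h2⟩ := (Finset.mem_filter.1 he).2
    obtain ⟨q', r', w', h1', h2'⟩ := (Finset.mem_filter.1 he').2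
    rw [← hx e q r w h1 h2, ← hx e' q' r' w' h1' h2']
    exact thr_mono M _ _ _ _ _ _ h1 h1' (by omega)
  · intro e he
    obtain ⟨q, r, w, h1, h2⟩ := (Finset.mem_filter.1 he).2
    rw [← hx e q r w h1 h2, CC_state M q r w h1 (by omega), h2]
  · intro e he I hI
    obtain ⟨q, r, w, h1, h2⟩ := (Finset.mem_filter.1 he).2
    rw [← hx e q r w h1 h2]
    exact thr_ne M q r w h1 I hI
  · intro y hy
    obtain ⟨F, hF, hF'⟩ := window M y hy
    rw [← hF]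
    apply Finset.card_le_card
    intro e he
    obtain ⟨h1, h2, q, r, w, h3, h4⟩ := hF' e he
    simp only [Finset.mem_filter, Finset.mem_range]
    exact ⟨⟨by omega, q, r, w, h3, h4⟩, h1, h2⟩

end Pool.Agent.RVG
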