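import Mathlib

set_option autoImplicit false

namespace Pool.Agent.RVG

open Finset

/-! ## [RVG-SL3] the selection of the thresholds for `m = 3` -/

/-- two windows of length `7` with `4` elements each have elements in the same place -/
theorem SL3_pigeon (A : Finset ℕ) (y z : ℕ) (hy : 4 ≤ (A.filter fun e => y ≤ e ∧ e ≤ y + 6).card)
    (hz : 4 ≤ (A.filter fun e => z ≤ e ∧ e ≤ z + 6).card) : ∃ e, e ≤ 6 ∧ y + e ∈ A ∧ z + e ∈ A := by
  have key : ∀ y, (A.filter fun e => y ≤ e ∧ e ≤ y + 6).card = ((range 7).filter fun e => y + e ∈ A).card := by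
    intro y
    symm
    apply Finset.card_bij (fun e _ => y + e)
    · intro e he
      rw [mem_filter, mem_range] at he
      rw [mem_filter]
      exact ⟨he.2, by omega, by omega⟩
    · intro e _ e' _ h
      omega
    · intro e he
      rw [mem_filter] at he
      refine ⟨e - y, ?_, by omega⟩
      rw [mem_filter, mem_range, show y + (e - y) = e by omega]
      exact ⟨by omega, he.1⟩
  rw [key] at hy hz
  by_contra hcon
  push Not at hcon
  have hdis : Disjoint ((range 7).filter fun e => y + e ∈ A) ((range 7).filter fun e => z + e ∈ A) := by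
    rw [disjoint_left]
    intro e he he'
    rw [mem_filter, mem_range] at he he'
    exact hcon e (by omega) he.2 he'.2
  have h1 := card_union_of_disjoint hdis
  have h2 : ((range 7).filter fun e => y + e ∈ A) ∪ ((range 7).filter fun e => z + e ∈ A) ⊆ range 7 :=
    union_subset (filter_subset _ _) (filter_subset _ _)
  have h3 := card_le_card h2
  rw [card_range] at h3
  omega

theorem sel3 (A : Finset ℕ) (N h : ℕ) (hA : ∀ y, y + 6 ≤ N → 4 ≤ (A.filter fun e => y ≤ e ∧ e ≤ y + 6).card)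
    (E : ℕ → ℕ) (H1 : ∀ j, 1 ≤ j → j < h → E (j + 1) + 6 ≤ E j) (H3 : 1 ≤ h → E 1 + 6 ≤ N) :
    ∃ L : ℕ → ℕ, (∀ j, 1 ≤ j → j ≤ h → L j ∈ A ∧ L j + E j ∈ A) ∧
      ∀ j, 1 ≤ j → j < h → L j ≤ L (j + 1) ∧ L (j + 1) + E (j + 1) ≤ L j + E j := by
  have hex : ∀ L e : ℕ, ∃ s : ℕ, s ≤ 6 ∧ (L + e + 6 ≤ N → L + s ∈ A ∧ L + e + s ∈ A) := by
    intro L e
    by_cases h1 : L + e + 6 ≤ N
    · obtain ⟨s, h2, h3, h4⟩ := SL3_pigeon A L (L + e) (hA L (by omega)) (hA (L + e) h1)
      exact ⟨s, h2, fun _ => ⟨h3, h4⟩⟩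
    · exact ⟨0, by norm_num, fun h2 => absurd h2 h1⟩
  choose f hf1 hf2 using hex
  let L : ℕ → ℕ := fun n => Nat.rec 0 (fun n L => L + f L (E (n + 1))) n
  have hL : ∀ n, L (n + 1) = L n + f (L n) (E (n + 1)) := fun n => rfl
  have hinv : ∀ n, n < h → L n + E (n + 1) + 6 ≤ N := by
    intro n
    induction n with
    | zero =>
      intro hn
      show 0 + E 1 + 6 ≤ N
      have := H3 hn
      omega
    | succ n ih =>
      intro hn
      have h1 := ih (by omega)
      have h2 := H1 (n + 1) (by omega) (by omega)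
      have h3 := hf1 (L n) (E (n + 1))
      rw [hL]
      omega
  refine ⟨L, ?_, ?_⟩
  · intro j hj hjh
    obtain ⟨n, rfl⟩ : ∃ n, j = n + 1 := ⟨j - 1, by omega⟩
    have h1 := hf2 (L n) (E (n + 1)) (hinv n (by omega))
    rw [hL]
    refine ⟨h1.1, ?_⟩
    rw [show L n + f (L n) (E (n + 1)) + E (n + 1) = L n + E (n + 1) + f (L n) (E (n + 1)) by ring]
    exact h1.2
  · intro j hj hjh
    have h2 := H1 j hj hjh
    have h3 := hf1 (L j) (E (j + 1))
    rw [hL]
    constructor
    · omega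
    · omega

end Pool.Agent.RVG
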