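import Pool.Agent.MP_c130bd_co.RVG.PRM
import Pool.Agent.MP_c130bd_co.RVG.BSC
import Pool.Agent.MP_c130bd_co.RVG.SL3
import Pool.Agent.MP_c130bd_co.RVG.M3V

set_option autoImplicit false

namespace Pool.Agent.RVG

open Finset Pool.Agent.RVM

/-! ## [RVG-F3] the case `s = d + 4` -/

/-- the thresholds -/
def glue (T h : ℕ) (lo hi : ℕ → ℕ) (mid : ℕ) (k : Fin T) : ℕ :=
  if (k : ℕ) < h then hi ((k : ℕ) + 1) else if T ≤ (k : ℕ) + h then lo (T - k) else mid

theorem chain_le (h : ℕ) (lo hi : ℕ → ℕ) (h1 : ∀ j, 1 ≤ j → j < h → lo j ≤ lo (j + 1) ∧ hi (j + 1) ≤ hi j)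
    (j j' : ℕ) (hj : 1 ≤ j) (hjj : j ≤ j') (hj' : j' ≤ h) : lo j ≤ lo j' ∧ hi j' ≤ hi j := by
  induction j', hjj using Nat.le_induction with
  | base => exact ⟨le_rfl, le_rfl⟩
  | succ n hn ih =>
    have h2 := ih (by omega)
    have h3 := h1 n (by omega) (by omega)
    exact ⟨h2.1.trans h3.1, h3.2.trans h2.2⟩

theorem glue_anti (T h : ℕ) (lo hi : ℕ → ℕ) (mid : ℕ)
    (h1 : ∀ j, 1 ≤ j → j < h → lo j ≤ lo (j + 1) ∧ hi (j + 1) ≤ hi j)
    (h2 : 1 ≤ h → lo h ≤ mid ∧ mid ≤ hi h) : Antitone (glue T h lo hi mid) := by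
  intro k k' hkk
  have hk : (k : ℕ) ≤ k' := hkk
  have hk' := k'.2
  have hk2 := k.2
  have c := chain_le h lo hi h1
  unfold glue
  split_ifs with a1 a2 a3 a4 a5 a6 a7
  · exact (c (k + 1) (k' + 1) (by omega) (by omega) (by omega)).2
  · omega
  · omega
  · have e1 := (c (k + 1) h (by omega) (by omega) le_rfl).2
    have e2 := (c (T - k') h (by omega) (by omega) le_rfl).1
    have e3 := h2 (by omega)
    omega
  · exact (c (T - k') (T - k) (by omega) (by omega) (by omega)).1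
  · have e2 := (c (T - k') h (by omega) (by omega) le_rfl).1
    have e3 := h2 (by omega)
    omega
  · have e1 := (c (k + 1) h (by omega) (by omega) le_rfl).2
    have e3 := h2 (by omega)
    omega
  · omega
  · exact le_rfl

theorem glue_hi (T h : ℕ) (lo hi : ℕ → ℕ) (mid : ℕ) (j : ℕ) (hj : 1 ≤ j) (hjh : j ≤ h) (hT : j - 1 < T) :
    glue T h lo hi mid ⟨j - 1, hT⟩ = hi j := by
  unfold glue
  rw [if_pos (by show j - 1 < h; omega)]
  show hi (j - 1 + 1) = hi j
  rw [Nat.sub_add_cancel hj]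

theorem glue_lo (T h : ℕ) (hT2 : 2 * h ≤ T) (lo hi : ℕ → ℕ) (mid : ℕ) (j : ℕ) (hj : 1 ≤ j) (hjh : j ≤ h) (hT : T - j < T) :
    glue T h lo hi mid ⟨T - j, hT⟩ = lo j := by
  unfold glue
  rw [if_neg (by show ¬ T - j < h; omega), if_pos (by show T ≤ T - j + h; omega)]
  show lo (T - (T - j)) = lo j
  rw [show T - (T - j) = j by omega]

theorem glue_mem (T h : ℕ) (lo hi : ℕ → ℕ) (mid : ℕ) (P : ℕ → Prop) (h1 : ∀ j, 1 ≤ j → j ≤ h → P (lo j) ∧ P (hi j))
    (h2 : P mid) (k : Fin T) : P (glue T h lo hi mid k) := by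
  have hk := k.2
  unfold glue
  split_ifs with a1 a2
  · exact (h1 (k + 1) (by omega) (by omega)).2
  · exact (h1 (T - k) (by omega) (by omega)).1
  · exact h2

theorem fin3 (d k : ℕ) (hd : 1 ≤ d) (hk : k ≤ d / 2) (v : ℕ → ℕ) (h0 : ∀ i, 1 ≤ i → i ≤ k → v i = 0)
    (hs : ∑ i ∈ Icc 1 (d / 2 + 1), v i = (d + 4).choose (d + 2)) (h1 : k < d / 2 → 6 ≤ v (k + 1))
    (h2 : ∀ i, k + 1 < i → i < d / 2 + 1 → d + 2 * k + 14 ≤ v i)
    (h3 : k < d / 2 → (Even d → d + 2 * k + 8 ≤ 2 * v (d / 2 + 1)) ∧ (Odd d → d + 2 * k + 8 ≤ v (d / 2 + 1))) :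
    IsPrimVec d (d + 4) v := by
  obtain ⟨M, hM⟩ : ∃ M, M = k + 2 := ⟨_, rfl⟩
  obtain ⟨T, hT⟩ : ∃ T, T = d - 2 * k := ⟨_, rfl⟩
  obtain ⟨h, hh⟩ : ∃ h, h = T / 2 := ⟨_, rfl⟩
  obtain ⟨a, ha, A, X, hA1, hA2, hA3, hA4, hA5⟩ := m3v M (by omega)
  have hbT : 2 * M + T = d + 4 := by omega
  have hch : 2 * (d + 4).choose (d + 2) = (d + 4) * (d + 3) := by
    have e1 : (d + 4).choose (d + 2) = (d + 4).choose 2 := by
      rw [← Nat.choose_symm (by omega : 2 ≤ d + 4)]
      congr 1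
    rw [e1, Nat.choose_two_right, show d + 4 - 1 = d + 3 by omega]
    exact Nat.mul_div_cancel' (Nat.even_mul_pred_self (d + 4)).two_dvd
  -- the sum of the entries with the numbers `≥ k + 1`
  have hsk : ∑ i ∈ Icc (k + 1) (d / 2 + 1), v i = (d + 4).choose (d + 2) := by
    rw [← hs]
    apply Finset.sum_subset
    · intro i hi
      rw [mem_Icc] at hi ⊢
      omega
    · intro i hi hi'
      rw [mem_Icc] at hi hi'
      exact h0 i hi.1 (by omega)
  have hbs := fun j hj hjT => bs_three (2 * M) T j hj hjT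
  obtain ⟨W, hW⟩ : ∃ W : ℕ → ℕ, ∀ j, W j = ∑ i ∈ Icc (k + 1 + j) (d / 2 + 1), v i := ⟨_, fun _ => rfl⟩
  have hWs : ∀ j, j ≤ h → W j = v (k + 1 + j) + W (j + 1) := by
    intro j hj
    rw [hW, hW, Icc_split v _ _ (by omega), Nat.add_assoc (k + 1) j 1]
  have hWh : W h = v (d / 2 + 1) := by
    rw [hWs h le_rfl, hW, show k + 1 + h = d / 2 + 1 by omega, show k + 1 + (h + 1) = d / 2 + 1 + 1 by omega]
    simp
  have hb1 : ∀ j, 1 ≤ j → j < h → bs 3 (2 * M) T j = bs 3 (2 * M) T (j + 1) + (4 * M + T) := by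
    intro j hj hjh
    have e1 := hbs j hj (by omega)
    have e2 := hbs (j + 1) (by omega) (by omega)
    obtain ⟨p, hp⟩ : ∃ p, T + 1 - 2 * (j + 1) = p := ⟨_, rfl⟩
    rw [show T + 1 - 2 * j = p + 2 by omega] at e1
    rw [hp] at e2
    have e3 : (p + 2) * (2 * (2 * M) + T) = p * (2 * (2 * M) + T) + 2 * (4 * M + T) := by ring
    omega
  have hbh : 1 ≤ h → (Even d → 2 * bs 3 (2 * M) T h = 4 * M + T) ∧ (Odd d → bs 3 (2 * M) T h = 4 * M + T) := by
    intro h1'
    have e1 := hbs h h1' (by omega)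
    constructor
    · intro he
      obtain ⟨r, hr⟩ := he
      rw [show T + 1 - 2 * h = 1 by omega] at e1
      omega
    · intro ho
      obtain ⟨r, hr⟩ := ho
      rw [show T + 1 - 2 * h = 2 by omega] at e1
      omega
  have hvh : 1 ≤ h → bs 3 (2 * M) T h ≤ W h := by
    intro h1'
    rw [hWh]
    obtain ⟨e1, e2⟩ := hbh h1'
    obtain ⟨e3, e4⟩ := h3 (by omega)
    rcases Nat.even_or_odd d with he | ho
    · have := e1 he
      have := e3 he
      omega
    · have := e2 ho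
      have := e4 ho
      omega
  have hv0 : ∀ j, 1 ≤ j → j ≤ h → bs 3 (2 * M) T j ≤ W j := by
    have key : ∀ i, i < h → bs 3 (2 * M) T (h - i) ≤ W (h - i) := by
      intro i
      induction i with
      | zero => intro hi; exact hvh (by omega)
      | succ i ih =>
        intro hi
        have e1 := ih (by omega)
        have e2 := hb1 (h - (i + 1)) (by omega) (by omega)
        have e3 := hWs (h - (i + 1)) (by omega)
        have e4 := h2 (k + 1 + (h - (i + 1))) (by omega) (by omega)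
        rw [show h - (i + 1) + 1 = h - i by omega] at e2 e3
        omega
    intro j hj hjh
    have := key (h - j) (by omega)
    rwa [show h - (h - j) = j by omega] at this
  have hE1 : ∀ j, 1 ≤ j → j < h → W (j + 1) - bs 3 (2 * M) T (j + 1) + 6 ≤ W j - bs 3 (2 * M) T j := by
    intro j hj hjh
    have e1 := hv0 j hj (by omega)
    have e2 := hv0 (j + 1) (by omega) (by omega)
    have e3 := hb1 j hj hjh
    have e4 := hWs j (by omega)
    have e5 := h2 (k + 1 + j) (by omega) (by omega)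
    omega
  have hE3 : 1 ≤ h → W 1 - bs 3 (2 * M) T 1 + 6 ≤ M * (2 * M + 1) := by
    intro h1'
    have e1 := hbs 1 le_rfl (by omega)
    have e2 := hWs 0 (by omega)
    have e3 : W 0 = (d + 4).choose (d + 2) := by rw [hW]; exact hsk
    have e4 := h1 (by omega)
    have e5 := hv0 1 le_rfl h1'
    obtain ⟨p, hp⟩ : ∃ p, T = p + 1 := ⟨T - 1, by omega⟩
    rw [show T + 1 - 2 * 1 = p by omega, hp] at e1
    have e6 : (d + 4) * (d + 3) = (2 * M + p + 1) * (2 * M + p) := by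
      rw [show d + 4 = 2 * M + p + 1 by omega, show d + 3 = 2 * M + p by omega]
    have e7 : (2 * M + p + 1) * (2 * M + p) = 2 * (M * (2 * M + 1)) + p * (2 * (2 * M) + (p + 1)) := by ring
    rw [e6, e7, ← e3] at hch
    simp only [Nat.add_zero, Nat.zero_add] at e2
    rw [hp] at e5 ⊢
    omega
  obtain ⟨L, hL1, hL2⟩ := sel3 A (M * (2 * M + 1)) h hA5 (fun j => W j - bs 3 (2 * M) T j) hE1 hE3
  -- an element of `A`
  obtain ⟨e₀, he₀⟩ : A.Nonempty := by
    have h4 := hA5 0 (by nlinarith)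
    obtain ⟨e, he⟩ := Finset.card_pos.1 (by omega : 0 < (A.filter fun e => 0 ≤ e ∧ e ≤ 0 + 6).card)
    exact ⟨e, (mem_filter.1 he).1⟩
  obtain ⟨mid, hmid⟩ : ∃ mid, mid = if h = 0 then X e₀ else X (L h) := ⟨_, rfl⟩
  have hanti : Antitone (glue T h (fun j => X (L j)) (fun j => X (L j + (W j - bs 3 (2 * M) T j))) mid) := by
    apply glue_anti
    · intro j hj hjh
      have e1 := hL1 j hj (by omega)
      have e2 := hL1 (j + 1) (by omega) (by omega)
      have e3 := hL2 j hj hjh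
      exact ⟨hA2 _ e1.1 _ e2.1 e3.1, hA2 _ e2.2 _ e1.2 e3.2⟩
    · intro h1'
      rw [hmid, if_neg (by omega)]
      have e1 := hL1 h h1' le_rfl
      exact ⟨le_rfl, hA2 _ e1.1 _ e1.2 (by omega)⟩
  have hres := prim_of (b := 2 * M) (T := T) 3 (k + 1) d le_rfl hd (by omega) (by omega) (by omega) a ha _ hanti
    (by
      intro I hI k'
      apply glue_mem T h _ _ _ (fun y => ∑ i ∈ I, a i ≠ y)
      · intro j hj hjh
        have e1 := hL1 j hj hjh
        exact ⟨hA4 _ e1.1 I hI, hA4 _ e1.2 I hI⟩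
      · rw [hmid]
        split_ifs with h5
        · exact hA4 _ he₀ I hI
        · exact hA4 _ (hL1 h (by omega) le_rfl).1 I hI)
    v (fun i hi1 hi2 => h0 i hi1 (by omega)) (by rw [hbT]; exact hs)
    (by
      intro j hj hjT
      rw [glue_lo T h (by omega) _ _ _ j hj (by omega), glue_hi T h _ _ _ j hj (by omega)]
      have e1 := hL1 j hj (by omega)
      have e2 := hv0 j hj (by omega)
      rw [hA3 _ e1.1, hA3 _ e1.2, ← hW]
      show W j + L j = bs 3 (2 * M) T j + (L j + (W j - bs 3 (2 * M) T j))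
      omega)
  rwa [hbT] at hres

end Pool.Agent.RVG
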