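import Pool.Agent.MP_c130bd_co.RVG.RKA

set_option autoImplicit false

namespace Pool.Agent.RVG

open Finset

/-! ## [RVG-RKB] the sequence of the thresholds -/

theorem RKB_card (b m : ℕ) (hm : 1 ≤ m) :
    (univ.filter fun I : Finset (Fin b) => I.card + 1 = m).card = b.choose (m - 1) := by
  have h1 : (univ.filter fun I : Finset (Fin b) => I.card + 1 = m) =
      powersetCard (m - 1) (univ : Finset (Fin b)) := by
    ext I
    rw [mem_filter, mem_powersetCard]
    constructor
    · rintro ⟨-, h1⟩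
      exact ⟨subset_univ _, by omega⟩
    · rintro ⟨-, h1⟩
      exact ⟨mem_univ _, by omega⟩
  rw [h1, card_powersetCard, card_univ, Fintype.card_fin]

theorem RKB_le {b : ℕ} (m : ℕ) (a : Fin b → ℕ) (I I' : Finset (Fin b))
    (h : ∑ i ∈ I, a i ≤ ∑ i ∈ I', a i) : rk m a I ≤ rk m a I' := by
  unfold rk
  refine card_le_card fun J hJ => ?_
  rw [mem_filter] at hJ ⊢
  exact ⟨hJ.1, hJ.2.1, hJ.2.2.trans_le h⟩

theorem RKB_lt {b : ℕ} (m : ℕ) (a : Fin b → ℕ) (I I' : Finset (Fin b)) (hI : I.card + 1 = m)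
    (h : ∑ i ∈ I, a i < ∑ i ∈ I', a i) : rk m a I < rk m a I' := by
  unfold rk
  refine card_lt_card ?_
  rw [ssubset_iff_of_subset]
  · refine ⟨I, ?_, ?_⟩
    · rw [mem_filter]
      exact ⟨mem_univ _, hI, h⟩
    · rw [mem_filter]
      rintro ⟨-, -, h1⟩
      exact lt_irrefl _ h1
  · intro J hJ
    rw [mem_filter] at hJ ⊢
    exact ⟨hJ.1, hJ.2.1, hJ.2.2.trans h⟩

/-- Proof. The rank `rk m a` is injective on `{I | I.card + 1 = m}` (different sums, `hs`), its values are `< N = b.choose (m - 1)`, so it is a bijection to `range N`. -/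
theorem RKB_bij {b : ℕ} (m : ℕ) (hm : 1 ≤ m) (a : Fin b → ℕ)
    (hs : ∀ I I' : Finset (Fin b), I.card + 1 = m → I'.card + 1 = m →
      ∑ i ∈ I, a i = ∑ i ∈ I', a i → I = I') :
    (∀ I : Finset (Fin b), I.card + 1 = m → rk m a I < b.choose (m - 1)) ∧
    (∀ I I' : Finset (Fin b), I.card + 1 = m → I'.card + 1 = m →
      (rk m a I ≤ rk m a I' ↔ ∑ i ∈ I, a i ≤ ∑ i ∈ I', a i)) ∧
    ∀ t, t < b.choose (m - 1) → ∃ I₀ : Finset (Fin b), I₀.card + 1 = m ∧ rk m a I₀ = t := by
  have hle : ∀ I I' : Finset (Fin b), I.card + 1 = m → I'.card + 1 = m →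
      (rk m a I ≤ rk m a I' ↔ ∑ i ∈ I, a i ≤ ∑ i ∈ I', a i) := by
    intro I I' _ hI'
    refine ⟨fun h => ?_, RKB_le m a I I'⟩
    by_contra h1
    exact absurd h (not_le.2 (RKB_lt m a I' I hI' (not_le.1 h1)))
  have hlt : ∀ I : Finset (Fin b), I.card + 1 = m → rk m a I < b.choose (m - 1) := by
    intro I hI
    rw [← RKB_card b m hm]
    unfold rk
    refine card_lt_card ?_
    rw [ssubset_iff_of_subset]
    · refine ⟨I, ?_, ?_⟩
      · rw [mem_filter]
        exact ⟨mem_univ _, hI⟩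
      · rw [mem_filter]
        rintro ⟨-, -, h1⟩
        exact lt_irrefl _ h1
    · intro J hJ
      rw [mem_filter] at hJ ⊢
      exact ⟨hJ.1, hJ.2.1⟩
  refine ⟨hlt, hle, ?_⟩
  have hinj : Set.InjOn (rk m a) (univ.filter fun I : Finset (Fin b) => I.card + 1 = m) := by
    intro I hI I' hI' h
    rw [mem_coe, mem_filter] at hI hI'
    exact hs I I' hI.2 hI'.2
      (le_antisymm ((hle I I' hI.2 hI'.2).1 h.le) ((hle I' I hI'.2 hI.2).1 h.ge))
  have himg : (univ.filter fun I : Finset (Fin b) => I.card + 1 = m).image (rk m a) =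
      range (b.choose (m - 1)) := by
    apply eq_of_subset_of_card_le
    · intro t ht
      rw [mem_image] at ht
      obtain ⟨I, hI, rfl⟩ := ht
      rw [mem_filter] at hI
      rw [mem_range]
      exact hlt I hI.2
    · rw [card_image_of_injOn hinj, card_range, RKB_card b m hm]
  intro t ht
  have h1 : t ∈ (univ.filter fun I : Finset (Fin b) => I.card + 1 = m).image (rk m a) := by
    rw [himg, mem_range]
    exact ht
  rw [mem_image] at h1
  obtain ⟨I, hI, hI2⟩ := h1
  rw [mem_filter] at hI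
  exact ⟨I, hI.2, hI2⟩

/-- Proof. `x t = sup over the I with I.card + 1 = m and rk m a I < t of (∑_I a + 1)` (`Finset.sup`, `0` for `t = 0`). `x` is monotone; `x t` is `0` or odd, the sums are positive and even, so `x t` is not a sum. For `t ≤ N` and `I` with
`I.card + 1 = m`: `∑_I < x t ↔ rk m a I < t` (`RKB_bij`). So `CC m a (x (t + 1)) = CC m a (x t) + cI I₀` for `rk m a I₀ = t` by `cc_step`; `CC m a 0 = 0`; the first term of `CC m a (x N)` is `N`. -/
theorem rnk {b : ℕ} (m : ℕ) (hm : 3 ≤ m) (a : Fin b → ℕ) (ha : StrictMono a) (he : ∀ i, Even (a i))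
    (hp : ∀ i, 0 < a i) (hs : ∀ I I' : Finset (Fin b), I.card + 1 = m → I'.card + 1 = m →
      ∑ i ∈ I, a i = ∑ i ∈ I', a i → I = I') :
    ∃ x : ℕ → ℕ, (∀ t t', t ≤ t' → x t ≤ x t') ∧
      (∀ t, ∀ I : Finset (Fin b), I.card + 1 = m → ∑ i ∈ I, a i ≠ x t) ∧
      CC m a (x 0) = 0 ∧ b.choose (m - 1) ≤ CC m a (x (b.choose (m - 1))) ∧
      (∀ I₀ : Finset (Fin b), I₀.card + 1 = m → rk m a I₀ < b.choose (m - 1) ∧
        (CC m a (x (rk m a I₀ + 1)) : ℤ) = CC m a (x (rk m a I₀)) + cI I₀) ∧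
      (∀ t, t < b.choose (m - 1) → ∃ I₀ : Finset (Fin b), I₀.card + 1 = m ∧ rk m a I₀ = t) ∧
      ∀ t, CC m a (x t) ≤ t + b.choose (m - 2) := by
  obtain ⟨hlt, hle, hsur⟩ := RKB_bij m (by omega) a hs
  let A : ℕ → Finset (Finset (Fin b)) :=
    fun t => univ.filter fun I : Finset (Fin b) => I.card + 1 = m ∧ rk m a I < t
  let x : ℕ → ℕ := fun t => (A t).sup fun I => ∑ i ∈ I, a i + 1
  have hx : ∀ t, ∀ I : Finset (Fin b), I.card + 1 = m →
      (∑ i ∈ I, a i < x t ↔ rk m a I < t) := by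
    intro t I hI
    constructor
    · intro h
      have hne : (A t).Nonempty := by
        rw [nonempty_iff_ne_empty]
        intro h0
        have h1 : x t = 0 := by
          show (A t).sup _ = 0
          rw [h0]
          exact sup_empty
        rw [h1] at h
        exact absurd h (Nat.not_lt_zero _)
      obtain ⟨I', hI', hI'2⟩ := exists_mem_eq_sup (A t) hne fun I => ∑ i ∈ I, a i + 1
      rw [mem_filter] at hI'
      have h1 : ∑ i ∈ I, a i < ∑ i ∈ I', a i + 1 := by
        rw [← hI'2]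
        exact h
      exact ((hle I I' hI hI'.2.1).2 (Nat.lt_succ_iff.1 h1)).trans_lt hI'.2.2
    · intro h
      have h1 : I ∈ A t := mem_filter.2 ⟨mem_univ _, hI, h⟩
      exact Nat.lt_of_succ_le (le_sup (f := fun I : Finset (Fin b) => ∑ i ∈ I, a i + 1) h1)
  refine ⟨x, ?_, ?_, ?_, ?_, ?_, hsur, ?_⟩
  · intro t t' htt
    refine sup_mono fun I hI => ?_
    rw [mem_filter] at hI ⊢
    exact ⟨hI.1, hI.2.1, hI.2.2.trans_le htt⟩
  · intro t I hI h
    have hpos : 0 < ∑ i ∈ I, a i := by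
      refine sum_pos (fun i _ => hp i) ?_
      rw [← card_pos]
      omega
    have heven : ∀ J : Finset (Fin b), Even (∑ i ∈ J, a i) := fun J => even_sum _ fun i _ => he i
    rcases (A t).eq_empty_or_nonempty with h0 | hne
    · have h1 : x t = 0 := by
        show (A t).sup _ = 0
        rw [h0]
        exact sup_empty
      omega
    · obtain ⟨I', -, hI'2⟩ := exists_mem_eq_sup (A t) hne fun I => ∑ i ∈ I, a i + 1
      have h1 : ∑ i ∈ I, a i = ∑ i ∈ I', a i + 1 := by
        rw [← hI'2]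
        exact h
      have h2 := heven I
      rw [h1] at h2
      exact absurd (heven I') (Nat.not_even_iff_odd.2 (by
        rcases Nat.even_or_odd (∑ i ∈ I', a i) with h3 | h3
        · exact absurd h2 (Nat.not_even_iff_odd.2 h3.add_one)
        · exact h3))
  · have h0 : x 0 = 0 := by
      have h1 : A 0 = ∅ := by
        rw [← not_nonempty_iff_eq_empty]
        rintro ⟨I, hI⟩
        rw [mem_filter] at hI
        exact absurd hI.2.2 (Nat.not_lt_zero _)
      show (A 0).sup _ = 0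
      rw [h1]
      exact sup_empty
    rw [h0]
    unfold CC
    have h1 : ∀ J : Finset (Fin b), dg a J 0 = 0 := by
      intro J
      unfold dg
      rw [card_eq_zero, ← not_nonempty_iff_eq_empty]
      rintro ⟨j, hj⟩
      rw [mem_filter] at hj
      exact absurd hj.2.2 (Nat.not_lt_zero _)
    rw [Nat.add_eq_zero_iff]
    constructor
    · rw [card_eq_zero, ← not_nonempty_iff_eq_empty]
      rintro ⟨I, hI⟩
      rw [mem_filter] at hI
      exact absurd hI.2.2 (Nat.not_lt_zero _)
    · rw [card_eq_zero, ← not_nonempty_iff_eq_empty]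
      rintro ⟨J, hJ⟩
      rw [mem_filter, h1] at hJ
      exact absurd hJ.2.2 (by decide)
  · unfold CC
    refine le_trans (le_of_eq ?_) (Nat.le_add_right _ _)
    rw [← RKB_card b m (by omega)]
    congr 1
    ext I
    rw [mem_filter, mem_filter]
    refine and_congr_right fun _ => ⟨fun h => ⟨h, ?_⟩, fun h => h.1⟩
    rw [RKB_card b m (by omega)]
    exact (hx _ I h).2 (hlt I h)
  · intro I₀ hI₀
    refine ⟨hlt I₀ hI₀, ?_⟩
    apply cc_step m (by omega) a ha _ _ I₀ hI₀
    · by_contra h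
      exact absurd ((hx _ I₀ hI₀).1 (not_le.1 h)) (lt_irrefl _)
    · intro I hI
      rw [hx _ I hI, hx _ I hI, Nat.lt_succ_iff, le_iff_lt_or_eq]
      refine or_congr_right ⟨fun h => ?_, fun h => by rw [h]⟩
      exact hs I I₀ hI hI₀ (le_antisymm ((hle I I₀ hI hI₀).1 h.le) ((hle I₀ I hI₀ hI).1 h.ge))
  · intro t
    unfold CC
    apply Nat.add_le_add
    · have h1 : ((univ.filter fun I : Finset (Fin b) => I.card + 1 = m ∧ ∑ i ∈ I, a i < x t).image
          (rk m a)) ⊆ range t := by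
        intro r hr
        rw [mem_image] at hr
        obtain ⟨I, hI, rfl⟩ := hr
        rw [mem_filter] at hI
        exact mem_range.2 ((hx t I hI.2.1).1 hI.2.2)
      have h2 := card_le_card h1
      rw [card_range, card_image_of_injOn] at h2
      · exact h2
      · intro I hI I' hI' hII
        have hI1 := (mem_filter.1 (mem_coe.1 hI)).2.1
        have hI2 := (mem_filter.1 (mem_coe.1 hI')).2.1
        exact hs I I' hI1 hI2 (le_antisymm ((hle I I' hI1 hI2).1 hII.le) ((hle I' I hI2 hI1).1 hII.ge))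
    · rw [← show m - 1 - 1 = m - 2 from rfl, ← RKB_card b (m - 1) (by omega)]
      apply card_le_card
      intro J hJ
      rw [mem_filter] at hJ ⊢
      exact ⟨hJ.1, by omega⟩

end Pool.Agent.RVG
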