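import Pool.Agent.MP_c130bd_co.RVG.RUC

set_option autoImplicit false

namespace Pool.Agent.RVG

open Finset

/-! ## [RVG-RUE] the ranks of the sets of the run -/

/-- the number of the main elements is the first digit -/
theorem RUE_dA (m b : ℕ) (I : Finset (Fin b)) :
    ∑ i ∈ I, dA m i = (I.filter fun i : Fin b => ¬ (i : ℕ) < m - 2).card := by
  rw [card_filter]
  refine sum_congr rfl fun i _ => ?_
  unfold dA
  by_cases h : (i : ℕ) < m - 2
  · rw [if_pos h, if_neg (not_not.2 h)]
  · rw [if_neg h, if_pos h]

/-- the number of the special elements -/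
theorem RUE_sp (m b : ℕ) (hb : m ≤ b) :
    (univ.filter fun i : Fin b => (i : ℕ) < m - 2).card = m - 2 := by
  have h1 : ((univ.filter fun i : Fin b => (i : ℕ) < m - 2).map Fin.valEmbedding) =
      range (m - 2) := by
    ext j
    rw [mem_map, mem_range]
    constructor
    · rintro ⟨i, hi, rfl⟩
      rw [mem_filter] at hi
      exact hi.2
    · intro hj
      refine ⟨⟨j, by omega⟩, ?_, rfl⟩
      rw [mem_filter]
      exact ⟨mem_univ _, hj⟩
  rw [← card_map Fin.valEmbedding, h1, card_range]

/-- the set with all the special elements but `s` and the main elements `i`, `j` -/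
def RUE_g (m b : ℕ) (x : ℕ × Fin b × Fin b) : Finset (Fin b) :=
  if x.2.1 = x.2.2 then (univ.filter fun l : Fin b => (l : ℕ) < m - 2) ∪ {x.2.1} else
    (univ.filter fun l : Fin b => (l : ℕ) < m - 2 ∧ (l : ℕ) ≠ x.1) ∪ {x.2.1, x.2.2}

/-- Proof. The sets `I` counted have the first digit `∑ dA ≤ 2`, i.e. one or two main elements (`I.card = m - 1`, there are only `m - 2` special ones) and at most one special index is missing. The map `I ↦` (the missing special index or `0`, the least and the largest main element) is
injective, so there are at most `(m - 2) * b * b` sets. -/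
theorem rk_Iq_zero (m b : ℕ) (hm : 4 ≤ m) (hb : m + 1 ≤ b) : rk m (aa m b) (Iq m b 0) ≤ (m - 2) * b ^ 2 := by
  have h0 : ∀ I : Finset (Fin b), I.card + 1 = m → ∑ i ∈ I, aa m b i < ∑ i ∈ Iq m b 0, aa m b i →
      I ∈ (range (m - 2) ×ˢ (univ : Finset (Fin b)) ×ˢ (univ : Finset (Fin b))).image
        (RUE_g m b) := by
    intro I hI hlt
    have hdig : ∑ i ∈ I, dA m i ≤ 2 := by
      rw [← (Iq_dig m b 0 hm (by omega)).1]
      rcases (lt_aa m b I (Iq m b 0)).1 hlt with h | ⟨h, -⟩
      · exact h.le
      · exact h.le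
    rw [RUE_dA] at hdig
    have hsum := card_filter_add_card_filter_not (s := I) (fun i : Fin b => (i : ℕ) < m - 2)
    have hsp := RUE_sp m b (by omega)
    have hsub : (I.filter fun i : Fin b => (i : ℕ) < m - 2) ⊆
        univ.filter fun i : Fin b => (i : ℕ) < m - 2 := by
      intro i hi
      rw [mem_filter] at hi ⊢
      exact ⟨mem_univ _, hi.2⟩
    have hle := card_le_card hsub
    rw [hsp] at hle
    have hIeq : I = (I.filter fun i : Fin b => (i : ℕ) < m - 2) ∪
        (I.filter fun i : Fin b => ¬ (i : ℕ) < m - 2) := (filter_union_filter_not_eq _ _).symm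
    rw [mem_image]
    obtain h1 | h1 : (I.filter fun i : Fin b => ¬ (i : ℕ) < m - 2).card = 1 ∨
        (I.filter fun i : Fin b => ¬ (i : ℕ) < m - 2).card = 2 := by omega
    · obtain ⟨i, hi⟩ := card_eq_one.1 h1
      have h2 : (I.filter fun i : Fin b => (i : ℕ) < m - 2) =
          univ.filter fun i : Fin b => (i : ℕ) < m - 2 :=
        eq_of_subset_of_card_le hsub (by rw [hsp]; omega)
      refine ⟨(0, i, i), ?_, ?_⟩
      · rw [mem_product, mem_product, mem_range]
        exact ⟨by omega, mem_univ _, mem_univ _⟩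
      · unfold RUE_g
        rw [if_pos rfl, ← h2, ← hi]
        exact hIeq.symm
    · obtain ⟨i, j, hij, hi⟩ := card_eq_two.1 h1
      have h2 : ((univ.filter fun i : Fin b => (i : ℕ) < m - 2) \
          (I.filter fun i : Fin b => (i : ℕ) < m - 2)).card = 1 := by
        rw [card_sdiff_of_subset hsub, hsp]
        omega
      obtain ⟨s, hs⟩ := card_eq_one.1 h2
      have hsm : s ∈ (univ.filter fun i : Fin b => (i : ℕ) < m - 2) \
          (I.filter fun i : Fin b => (i : ℕ) < m - 2) := by
        rw [hs]
        exact mem_singleton_self _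
      rw [mem_sdiff, mem_filter] at hsm
      refine ⟨((s : ℕ), i, j), ?_, ?_⟩
      · rw [mem_product, mem_product, mem_range]
        exact ⟨hsm.1.2, mem_univ _, mem_univ _⟩
      · unfold RUE_g
        rw [if_neg hij, ← hi]
        conv_rhs => rw [hIeq]
        congr 1
        ext l
        rw [mem_filter, mem_filter]
        constructor
        · rintro ⟨-, h3, h4⟩
          by_contra h5
          have h6 : l ∈ (univ.filter fun i : Fin b => (i : ℕ) < m - 2) \
              (I.filter fun i : Fin b => (i : ℕ) < m - 2) := by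
            rw [mem_sdiff, mem_filter, mem_filter]
            exact ⟨⟨mem_univ _, h3⟩, h5⟩
          rw [hs, mem_singleton] at h6
          exact h4 (by rw [h6])
        · rintro ⟨h3, h4⟩
          refine ⟨mem_univ _, h4, fun h5 => hsm.2 ?_⟩
          have h6 : l = s := Fin.ext h5
          rw [← h6, mem_filter]
          exact ⟨h3, h4⟩
  unfold rk
  refine (card_le_card (t := (range (m - 2) ×ˢ (univ : Finset (Fin b)) ×ˢ
    (univ : Finset (Fin b))).image (RUE_g m b)) ?_).trans (card_image_le.trans (le_of_eq ?_))
  · intro I hI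
    rw [mem_filter] at hI
    exact h0 I hI.2.1 hI.2.2
  · rw [card_product, card_product, card_range, card_univ, Fintype.card_fin, sq]

/-- Proof. Induction on `q` with `Iq_next` (`Iq m b q` itself is not counted by `rk m a (Iq m b q)`). -/
theorem rk_Iq (m b q : ℕ) (hm : 4 ≤ m) (hq : 2 * q + m + 1 ≤ b) :
    rk m (aa m b) (Iq m b q) = rk m (aa m b) (Iq m b 0) + q := by
  induction q with
  | zero => rfl
  | succ q ih =>
    have ih := ih (by omega)
    rw [← add_assoc, ← ih]
    unfold rk
    have h1 : (univ.filter fun I : Finset (Fin b) => I.card + 1 = m ∧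
        ∑ i ∈ I, aa m b i < ∑ i ∈ Iq m b (q + 1), aa m b i) =
        insert (Iq m b q) (univ.filter fun I : Finset (Fin b) => I.card + 1 = m ∧
          ∑ i ∈ I, aa m b i < ∑ i ∈ Iq m b q, aa m b i) := by
      ext I
      rw [mem_insert, mem_filter, mem_filter]
      constructor
      · rintro ⟨-, h2, h3⟩
        rcases (Iq_next m b q hm hq I h2).1 h3 with h4 | h4
        · exact Or.inr ⟨mem_univ _, h2, h4⟩
        · exact Or.inl h4
      · rintro (h2 | ⟨-, h2, h3⟩)
        · have h3 : I.card + 1 = m := by rw [h2]; exact Iq_card m b q hm (by omega)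
          exact ⟨mem_univ _, h3, (Iq_next m b q hm hq I h3).2 (Or.inr h2)⟩
        · exact ⟨mem_univ _, h2, (Iq_next m b q hm hq I h2).2 (Or.inl h3)⟩
    rw [h1, card_insert_of_notMem]
    rw [mem_filter]
    rintro ⟨-, -, h2⟩
    exact lt_irrefl _ h2

end Pool.Agent.RVG
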