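import Mathlib

set_option autoImplicit false

namespace Pool.Agent.RVG

open Finset

/-! ## [RVG-SEL] the selection of the thresholds -/

theorem SEL_min (c : ℕ → ℤ) (m N P : ℕ) (hstep : ∀ t, t < N → |c (t + 1) - c t| ≤ m)
    (x : ℤ) (hE : ∀ t, t ≤ P → c t < x) (hN : x ≤ c N) :
    P < sInf {t | x ≤ c t} ∧ sInf {t | x ≤ c t} ≤ N ∧ x ≤ c (sInf {t | x ≤ c t}) ∧
      c (sInf {t | x ≤ c t}) + 1 ≤ x + m ∧ ∀ t, t < sInf {t | x ≤ c t} → c t < x := by
  have hne : {t | x ≤ c t}.Nonempty := ⟨N, hN⟩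
  have hmem : x ≤ c (sInf {t | x ≤ c t}) := Nat.sInf_mem hne
  have hle : sInf {t | x ≤ c t} ≤ N := Nat.sInf_le hN
  have hlt : ∀ t, t < sInf {t | x ≤ c t} → c t < x := by
    intro t ht
    have := Nat.notMem_of_lt_sInf ht
    simp only [Set.mem_ofPred_eq, not_le] at this
    exact this
  have hP : P < sInf {t | x ≤ c t} := by
    by_contra hc
    push Not at hc
    exact absurd hmem (not_le.2 (hE _ hc))
  refine ⟨hP, hle, hmem, ?_, hlt⟩
  obtain ⟨k, hk⟩ : ∃ k, sInf {t | x ≤ c t} = k + 1 := ⟨sInf {t | x ≤ c t} - 1, by omega⟩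
  have h1 := hlt k (by omega)
  have h2 := (abs_le.1 (hstep k (by omega))).2
  rw [hk]
  linarith

/-- Proof. Define by recursion `L 0 = c t0` and `L (j + 1) = c (hi (j+1)) - E (j + 1)`, `hi (j + 1)` from `SEL_min` with `P = t0 + n`, `E = E (j + 1)`, `L = L j` (classical choice). Invariants for `j ≤ h`: `c t0 ≤ L j ≤ c t0 + (m - 1) j`,
`L j ≤ L (j + 1) ≤ L j + m - 1`, `E (j + 1) + L j ≤ c N` and `m (t0 + n) < E (j + 1) + L j` (`E (j+1) ≥ E h` by `H1`, `L j ≥ c t0 ≥ 0`; `E (j + 1) + L j ≤ E j + L (j - 1)` by `H1`), hence `hi (j + 2) ≤ hi (j + 1)` (the least `t` with `c t ≥` a smaller number). If `u = 2`, all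
`L j - c t0` are even (`hpar`). So `lo j = t0 + ((L j - c t0) / u).toNat ≤ t0 + n` (`H4`) satisfies `c (lo j) = L j` (`hrun`) and is monotone. -/
theorem sel (c : ℕ → ℤ) (m N t0 n h : ℕ) (u : ℤ) (hu : u = 1 ∨ u = 2) (E : ℕ → ℤ)
    (hpos : ∀ t, t ≤ N → 0 ≤ c t) (hstep : ∀ t, t < N → |c (t + 1) - c t| ≤ m)
    (hpar : u = 2 → (∀ t, t ≤ N → Even (c t)) ∧ ∀ j, 1 ≤ j → j ≤ h → Even (E j))
    (hrun : ∀ q, q ≤ n → c (t0 + q) = c t0 + u * q) (hN : t0 + n ≤ N)
    (H1 : ∀ j, 1 ≤ j → j < h → E (j + 1) + m ≤ E j + 1) (H2 : 1 ≤ h → ∀ t, t ≤ t0 + n → c t < E h)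
    (H3 : 1 ≤ h → E 1 + c t0 ≤ c N) (H4 : ((m : ℤ) - 1) * h ≤ u * n) (hm : 1 ≤ m) :
    ∃ lo hi : ℕ → ℕ, (∀ j, 1 ≤ j → j ≤ h → t0 ≤ lo j ∧ lo j ≤ t0 + n ∧ t0 + n ≤ hi j ∧ hi j ≤ N ∧
      c (hi j) - c (lo j) = E j) ∧ ∀ j, 1 ≤ j → j < h → lo j ≤ lo (j + 1) ∧ hi (j + 1) ≤ hi j := by
  obtain ⟨L, hL0, hLs⟩ : ∃ L : ℕ → ℤ, L 0 = c t0 ∧ ∀ j, L (j + 1) = c (sInf {t | E (j + 1) + L j ≤ c t}) - E (j + 1) :=
    ⟨fun j => Nat.rec (c t0) (fun j Lj => c (sInf {t | E (j + 1) + Lj ≤ c t}) - E (j + 1)) j, rfl, fun j => rfl⟩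
  have hm1 : (1 : ℤ) ≤ m := by exact_mod_cast hm
  have hc0 : 0 ≤ c t0 := hpos t0 (by omega)
  -- `E` is decreasing
  have hEh : ∀ k, ∀ j, 1 ≤ j → j + k = h → E h ≤ E j := by
    intro k
    induction k with
    | zero => intro j _ hj; rw [← hj]; simp
    | succ k ih =>
      intro j h1 hj
      have h2 := ih (j + 1) (by omega) (by omega)
      have h3 := H1 j h1 (by omega)
      linarith
  have hEh' : ∀ j, 1 ≤ j → j ≤ h → E h ≤ E j := fun j h1 h2 => hEh (h - j) j h1 (by omega)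
  -- the invariants
  have inv : ∀ j, j ≤ h → c t0 ≤ L j ∧ L j ≤ c t0 + ((m : ℤ) - 1) * j ∧ (j < h → E (j + 1) + L j ≤ c N) := by
    intro j
    induction j with
    | zero =>
      intro _
      rw [hL0]
      refine ⟨le_refl _, by simp, fun hj => ?_⟩
      have := H3 (by omega)
      simpa using this
    | succ j ih =>
      intro hj
      obtain ⟨i1, i2, i3⟩ := ih (by omega)
      have i4 := i3 (by omega)
      have h2 := H2 (by omega)
      have h3 := hEh' (j + 1) (by omega) hj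
      obtain ⟨s1, s2, s3, s4, s5⟩ := SEL_min c m N (t0 + n) hstep (E (j + 1) + L j) (fun t ht => by have := h2 t ht; linarith) i4
      rw [hLs]
      refine ⟨by linarith, ?_, fun hj2 => ?_⟩
      · push_cast
        linarith
      · have h5 := H1 (j + 1) (by omega) hj2
        linarith
  have stp : ∀ j, j < h → t0 + n < sInf {t | E (j + 1) + L j ≤ c t} ∧ sInf {t | E (j + 1) + L j ≤ c t} ≤ N ∧
      E (j + 1) + L j ≤ c (sInf {t | E (j + 1) + L j ≤ c t}) ∧
      c (sInf {t | E (j + 1) + L j ≤ c t}) + 1 ≤ E (j + 1) + L j + m ∧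
      ∀ t, t < sInf {t | E (j + 1) + L j ≤ c t} → c t < E (j + 1) + L j := by
    intro j hj
    obtain ⟨i1, i2, i3⟩ := inv j (by omega)
    have h2 := H2 (by omega)
    have h3 := hEh' (j + 1) (by omega) hj
    exact SEL_min c m N (t0 + n) hstep (E (j + 1) + L j) (fun t ht => by have := h2 t ht; linarith) (i3 hj)
  -- parity
  have par : ∀ j, j ≤ h → u ∣ L j - c t0 := by
    intro j hj
    rcases hu with rfl | rfl
    · exact one_dvd _
    · obtain ⟨p1, p2⟩ := hpar rfl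
      have e0 := (p1 t0 (by omega)).two_dvd
      have e1 : (2 : ℤ) ∣ L j := by
        rcases Nat.eq_zero_or_pos j with h1 | h1
        · subst h1; rw [hL0]; exact e0
        · obtain ⟨i, rfl⟩ : ∃ i, j = i + 1 := ⟨j - 1, by omega⟩
          rw [hLs]
          exact dvd_sub (p1 _ (stp i (by omega)).2.1).two_dvd (p2 _ (by omega) hj).two_dvd
      exact dvd_sub e1 e0
  have hu0 : 0 < u := by rcases hu with rfl | rfl <;> norm_num
  -- the numbers `q j`
  have hq : ∀ j, j ≤ h → ((((L j - c t0) / u).toNat : ℕ) : ℤ) * u = L j - c t0 ∧ ((L j - c t0) / u).toNat ≤ n := by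
    intro j hj
    obtain ⟨i1, i2, -⟩ := inv j hj
    obtain ⟨k, hk⟩ := par j hj
    have hk0 : 0 ≤ k := by
      by_contra hc
      push Not at hc
      nlinarith
    have h1 : (L j - c t0) / u = k := by rw [hk, Int.mul_ediv_cancel_left _ hu0.ne']
    rw [h1, Int.toNat_of_nonneg hk0]
    refine ⟨by rw [hk]; ring, ?_⟩
    have h2 : ((m : ℤ) - 1) * j ≤ ((m : ℤ) - 1) * h := by
      apply mul_le_mul_of_nonneg_left _ (by linarith)
      exact_mod_cast hj
    have h3 : u * k ≤ u * n := by rw [← hk]; linarith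
    have h4 : k ≤ n := le_of_mul_le_mul_left h3 hu0
    omega
  have hlo : ∀ j, j ≤ h → c (t0 + ((L j - c t0) / u).toNat) = L j := by
    intro j hj
    obtain ⟨h1, h2⟩ := hq j hj
    rw [hrun _ h2]
    linarith
  refine ⟨fun j => t0 + ((L j - c t0) / u).toNat, fun j => sInf {t | E j + L (j - 1) ≤ c t}, ?_, ?_⟩
  · intro j h1 hj
    obtain ⟨i, rfl⟩ : ∃ i, j = i + 1 := ⟨j - 1, by omega⟩
    obtain ⟨s1, s2, s3, s4, s5⟩ := stp i (by omega)
    refine ⟨Nat.le_add_right _ _, ?_, ?_, ?_, ?_⟩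
    · have := (hq (i + 1) hj).2
      simp only
      omega
    · simp only [Nat.add_sub_cancel]
      exact s1.le
    · simp only [Nat.add_sub_cancel]
      exact s2
    · simp only [Nat.add_sub_cancel]
      rw [hlo _ hj, hLs]
      ring
  · intro j h1 hj
    obtain ⟨i, rfl⟩ : ∃ i, j = i + 1 := ⟨j - 1, by omega⟩
    obtain ⟨s1, s2, s3, s4, s5⟩ := stp i (by omega)
    constructor
    · simp only
      have a1 := (hq (i + 1) (by omega)).1
      have a2 := (hq (i + 1 + 1) (by omega)).1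
      obtain ⟨r1, r2, r3, r4, r5⟩ := stp (i + 1) (by omega)
      have a3 : L (i + 1) ≤ L (i + 1 + 1) := by
        rw [hLs (i + 1)]; linarith
      have a4 : ((((L (i + 1) - c t0) / u).toNat : ℕ) : ℤ) * u ≤ ((((L (i + 1 + 1) - c t0) / u).toNat : ℕ) : ℤ) * u := by
        rw [a1, a2]; linarith
      have a5 := le_of_mul_le_mul_right a4 hu0
      omega
    · simp only [Nat.add_sub_cancel]
      apply Nat.sInf_le
      simp only [Set.mem_ofPred_eq]
      have a6 := H1 (i + 1) (by omega) hj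
      have a7 := hLs i
      linarith

end Pool.Agent.RVG
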