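import Pool.Agent.MP_c130bd_co.RVG.F3
import Pool.Agent.MP_c130bd_co.RVG.BSA
import Pool.Agent.MP_c130bd_co.RVG.RKB
import Pool.Agent.MP_c130bd_co.RVG.RUE
import Pool.Agent.MP_c130bd_co.RVG.SEL

set_option autoImplicit false

namespace Pool.Agent.RVG

open Finset Pool.Agent.RVM

/-! ## [RVG-F4] the case `s = d + m + 1`, `m ≥ 4` -/

theorem CC_zero {b : ℕ} (m : ℕ) (a : Fin b → ℕ) : CC m a 0 = 0 := by
  unfold CC dg
  simp

theorem tail_even (t s : ℕ) (v : ℕ → ℕ) (n : ℕ) (hs : ∑ i ∈ Icc 1 (t + 1), v i = n)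
    (hv : ∀ i, 1 ≤ i → i ≤ t → Even (v i)) (h1 : 1 ≤ s) (h2 : s ≤ t + 1) :
    (∑ i ∈ Icc s (t + 1), v i) % 2 = n % 2 := by
  induction s, h1 using Nat.le_induction with
  | base => rw [hs]
  | succ p hp ih =>
    have h3 := ih (by omega)
    rw [Icc_split v p _ (by omega)] at h3
    obtain ⟨r, hr⟩ := hv p hp (by omega)
    omega

/-- the parity of the base numbers -/
theorem bs_par {b T : ℕ} (m β d : ℕ) (hm : 3 ≤ m) (hme : Even m) (hd : 1 ≤ d) (hβ : 1 ≤ β)
    (hb : b + 1 = 2 * β + m) (hdT : d + 2 = 2 * β + T) (j : ℕ) (hj : 1 ≤ j) (hjT : 2 * j ≤ T) :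
    bs m b T j % 2 = ((b + T).choose (d + 2)) % 2 := by
  have ha : StrictMono (fun i : Fin b => (i : ℕ) + 1) := by
    intro i j h
    have : (i : ℕ) < j := h
    show (i : ℕ) + 1 < (j : ℕ) + 1
    omega
  have hne : ∀ I : Finset (Fin b), I.card + 1 = m → ∀ k : Fin T,
      ∑ i ∈ I, (fun i : Fin b => (i : ℕ) + 1) i ≠ (fun _ : Fin T => 0) k := by
    intro I hI k h0
    have hI0 : I.Nonempty := Finset.card_pos.1 (by omega)
    obtain ⟨i, hi⟩ := hI0
    have h1 := Finset.sum_eq_zero_iff.1 h0 i hi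
    simp at h1
  have hx : Antitone (fun _ : Fin T => 0) := fun _ _ _ => le_rfl
  obtain ⟨S, hSc, hS, hP⟩ := geo m β d hm hd hβ hb hdT _ ha _ hx hne
  have ht := tail_PP m β d hdT _ _ hx S hP j hj hjT
  simp only [CC_zero, add_zero] at ht
  have hsd : Odd (b + T + d) := by
    obtain ⟨r, hr⟩ := hme
    exact ⟨β + r + β + T - 2, by omega⟩
  rw [← ht]
  have h1 := pp_sum hd hS (by omega)
  rw [hSc] at h1
  exact tail_even (d / 2) (β + j) _ _ h1 (fun i hi1 hi2 => even_P hd (by omega) hsd hS hSc hi1 hi2)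
    (by omega) (by omega)

theorem fin4 (d m k : ℕ) (hm : 4 ≤ m) (hd : 1 ≤ d) (hk : k ≤ d / 2) (v : ℕ → ℕ) (h0 : ∀ i, 1 ≤ i → i ≤ k → v i = 0)
    (hs : ∑ i ∈ Icc 1 (d / 2 + 1), v i = (d + m + 1).choose (d + 2))
    (hpar : Even m → ∀ i, 1 ≤ i → i ≤ d / 2 → Even (v i))
    (h1 : ∀ i, k < i → i ≤ d / 2 + 1 → 3 * (d + m + 1).choose (d + 3) + (m - 1) * (d + m + 1) ^ 2 ≤ v i) :
    IsPrimVec d (d + m + 1) v := by
  obtain ⟨T, hT⟩ : ∃ T, T = d - 2 * k := ⟨_, rfl⟩
  obtain ⟨h, hh⟩ : ∃ h, h = T / 2 := ⟨_, rfl⟩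
  obtain ⟨b, hb⟩ : ∃ b, b = 2 * k + m + 1 := ⟨_, rfl⟩
  obtain ⟨s, hsd⟩ : ∃ s, s = d + m + 1 := ⟨_, rfl⟩
  have hbT : b + T = s := by omega
  rw [← hsd] at hs h1 ⊢
  -- the sum of the entries with the numbers `≥ k + 1`
  have hsk : ∑ i ∈ Icc (k + 1) (d / 2 + 1), v i = s.choose (d + 2) := by
    rw [← hs]
    apply Finset.sum_subset
    · intro i hi
      rw [mem_Icc] at hi ⊢
      omega
    · intro i hi hi'
      rw [mem_Icc] at hi hi'
      exact h0 i hi.1 (by omega)
  obtain ⟨W, hW⟩ : ∃ W : ℕ → ℕ, ∀ j, W j = ∑ i ∈ Icc (k + 1 + j) (d / 2 + 1), v i := ⟨_, fun _ => rfl⟩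
  have hWs : ∀ j, j ≤ h → W j = v (k + 1 + j) + W (j + 1) := by
    intro j hj
    rw [hW, hW, Icc_split v _ _ (by omega), Nat.add_assoc (k + 1) j 1]
  have hWh : W h = v (d / 2 + 1) := by
    rw [hWs h le_rfl, hW, show k + 1 + h = d / 2 + 1 by omega, show k + 1 + (h + 1) = d / 2 + 1 + 1 by omega]
    simp
  have hW0 : W 0 = s.choose (d + 2) := by rw [hW]; exact hsk
  rcases Nat.eq_zero_or_pos h with hh0 | hhpos
  · -- the neighborly case
    obtain ⟨S, hSc, hS, hP, hP'⟩ := moment d s hd (by omega)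
    refine ⟨S, hSc, hS, ?_⟩
    intro i hi1 hi2
    rcases Nat.lt_or_ge (d / 2) i with hi3 | hi3
    · rw [show i = d / 2 + 1 by omega, hP', ← hWh, hh0, hW0]
    · rw [hP i hi1 hi3, h0 i hi1 (by omega)]
  · obtain ⟨A2, hA2⟩ : ∃ A2, A2 = s.choose (d + 3) := ⟨_, rfl⟩
    rw [← hA2] at h1
    have hA2' : s.choose (m - 2) = A2 := by
      rw [hA2, ← Nat.choose_symm (by omega : d + 3 ≤ s)]
      congr 1
      omega
    have hA2p : 0 < A2 := by rw [hA2]; exact Nat.choose_pos (by omega)
    have hN' : s.choose (m - 1) = s.choose (d + 2) := by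
      rw [← Nat.choose_symm (by omega : d + 2 ≤ s)]
      congr 1
      omega
    -- the number of the entries
    have hcount : 3 * (h + 1) * (m - 1) ≤ d + 3 := by
      have e1 : (h + 1) * (3 * A2) ≤ s.choose (d + 2) := by
        rw [← hsk]
        have e2 : (Icc (k + 1) (d / 2 + 1)).card = h + 1 := by
          rw [Nat.card_Icc]
          omega
        rw [← e2, ← smul_eq_mul]
        apply Finset.card_nsmul_le_sum
        intro i hi
        rw [mem_Icc] at hi
        have := h1 i (by omega) hi.2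
        exact (Nat.le_add_right _ _).trans this
      have e3 := Nat.choose_succ_right_eq s (m - 2)
      rw [show m - 2 + 1 = m - 1 by omega, hN', hA2', show s - (m - 2) = d + 3 by omega] at e3
      have e4 : A2 * (3 * (h + 1) * (m - 1)) ≤ A2 * (d + 3) := by
        rw [← e3]
        calc A2 * (3 * (h + 1) * (m - 1)) = (h + 1) * (3 * A2) * (m - 1) := by ring
          _ ≤ _ := Nat.mul_le_mul_right _ e1
      exact Nat.le_of_mul_le_mul_left e4 hA2p
    have hcount' : (m - 1) * h ≤ k + 1 := by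
      obtain ⟨p, hp⟩ : ∃ p, m = p + 4 := ⟨m - 4, by omega⟩
      subst hp
      rw [show p + 4 - 1 = p + 3 by omega] at hcount ⊢
      have e1 : d ≤ 2 * k + 2 * h + 1 := by omega
      nlinarith
    have hk1 : 1 ≤ k := by
      obtain ⟨p, hp⟩ : ∃ p, m = p + 4 := ⟨m - 4, by omega⟩
      subst hp
      rw [show p + 4 - 1 = p + 3 by omega] at hcount'
      nlinarith
    -- the numbers `a`
    obtain ⟨x, hx1, hx2, hx3, hx4, hx5, hx6, hx7⟩ := rnk m (by omega) (aa m b) (aa_mono m b hm) (aa_even m b) (aa_pos m b)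
      (fun I I' _ _ hII => aa_inj m b hm I I' hII)
    obtain ⟨N, hN⟩ : ∃ N, N = b.choose (m - 1) := ⟨_, rfl⟩
    rw [← hN] at hx4 hx5 hx6
    obtain ⟨c, hc⟩ : ∃ c : ℕ → ℤ, ∀ t, c t = (CC m (aa m b) (x t) : ℤ) := ⟨_, fun _ => rfl⟩
    obtain ⟨t0, ht0⟩ : ∃ t0, t0 = rk m (aa m b) (Iq m b 0) := ⟨_, rfl⟩
    have ht0b : t0 ≤ (m - 2) * b ^ 2 := by rw [ht0]; exact rk_Iq_zero m b hm (by omega)
    have hc0 : c 0 = 0 := by rw [hc, hx3]; rfl
    have hstep : ∀ t, t < N → |c (t + 1) - c t| ≤ m := by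
      intro t ht
      obtain ⟨I₀, hI1, hI2⟩ := hx6 t ht
      have e1 := (hx5 I₀ hI1).2
      rw [hI2, ← hc, ← hc] at e1
      rw [e1, add_sub_cancel_left]
      exact (cI_bound I₀ m hI1).1
    obtain ⟨u, hu⟩ : ∃ u : ℤ, u = if Even m then 2 else 1 := ⟨_, rfl⟩
    have hu12 : u = 1 ∨ u = 2 := by
      rw [hu]
      split_ifs
      · exact Or.inr rfl
      · exact Or.inl rfl
    have hrun : ∀ q, q ≤ k + 1 → c (t0 + q) = c t0 + u * q := by
      intro q
      induction q with
      | zero => intro _; simp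
      | succ q ih =>
        intro hq
        have e1 := ih (by omega)
        have e2 := (hx5 (Iq m b q) (Iq_card m b q hm (by omega))).2
        rw [rk_Iq m b q hm (by omega), ← ht0, ← hc, ← hc, Iq_cI m b q hm (by omega), ← hu, e1] at e2
        rw [← Nat.add_assoc, e2]
        push_cast
        ring
    have hNt : t0 + (k + 1) ≤ N := by
      have e1 := (hx5 (Iq m b k) (Iq_card m b k hm (by omega))).1
      rw [rk_Iq m b k hm (by omega), ← ht0] at e1
      omega
    have hcle : ∀ t, c t ≤ t + (A2 : ℤ) := by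
      intro t
      have e1 := hx7 t
      have e2 : b.choose (m - 2) ≤ A2 := by
        rw [← hA2']
        exact Nat.choose_le_choose _ (by omega)
      rw [hc]
      exact_mod_cast e1.trans (Nat.add_le_add_left e2 _)
    -- the numbers `E j`
    have hbst : ∀ j, j ≤ T → bs m b T j ≤ bs m b T (j + 1) + 2 * A2 := by
      intro j hj
      have := bs_step m b T j (by omega) hj
      rwa [hbT, hA2'] at this
    have hbl : bs m b T h ≤ 2 * A2 := by
      have := bs_last m b T (by omega)
      rwa [hbT, hA2', ← hh] at this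
    have hbz : bs m b T 0 + N = s.choose (d + 2) := by
      have := bs_zero m b T (by omega)
      rwa [hbT, hN', ← hN] at this
    have hb2 : b ^ 2 ≤ s ^ 2 := Nat.pow_le_pow_left (by omega) 2
    have hs2 : s ≤ s ^ 2 := Nat.le_self_pow (by norm_num) s
    have hms : m ≤ (m - 1) * s ^ 2 := by
      have e1 : 2 ≤ s ^ 2 := le_trans (by omega : 2 ≤ s) (Nat.le_self_pow (by norm_num) s)
      calc m ≤ (m - 1) * 2 := by omega
        _ ≤ (m - 1) * s ^ 2 := Nat.mul_le_mul_left _ e1
    have hkey : t0 + (k + 1) + 1 ≤ (m - 1) * s ^ 2 := by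
      obtain ⟨p, hp⟩ : ∃ p, m = p + 4 := ⟨m - 4, by omega⟩
      rw [hp, show p + 4 - 2 = p + 2 by omega] at ht0b
      rw [hp, show p + 4 - 1 = p + 3 by omega]
      calc t0 + (k + 1) + 1 ≤ (p + 2) * b ^ 2 + s := by
            rw [Nat.add_assoc]
            exact Nat.add_le_add ht0b (by omega)
        _ ≤ (p + 2) * s ^ 2 + s ^ 2 := Nat.add_le_add (Nat.mul_le_mul_left _ hb2) hs2
        _ = (p + 3) * s ^ 2 := by ring
    obtain ⟨lo, hi, hlh1, hlh2⟩ := sel c m N t0 (k + 1) h u hu12 (fun j => (W j : ℤ) - bs m b T j)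
      (by
        intro t _
        rw [hc]
        positivity)
      hstep
      (by
        intro hu2
        have hme : Even m := by
          by_contra hno
          rw [if_neg hno] at hu
          omega
        constructor
        · intro t
          induction t with
          | zero => intro _; rw [hc0]; exact Even.zero
          | succ t ih =>
            intro ht
            obtain ⟨I₀, hI1, hI2⟩ := hx6 t (by omega)
            have e1 := (hx5 I₀ hI1).2
            rw [hI2, ← hc, ← hc] at e1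
            rw [e1]
            exact (ih (by omega)).add ((cI_bound I₀ m hI1).2 hme)
        · intro j hj hjh
          have e1 := bs_par (b := b) (T := T) m (k + 1) d (by omega) hme hd (by omega) (by omega) (by omega) j hj (by omega)
          have e2 := tail_even (d / 2) (k + 1 + j) v _ hs (fun i hi1 hi2 => hpar hme i hi1 hi2) (by omega) (by omega)
          rw [hbT] at e1
          rw [← hW] at e2
          rw [Int.even_iff]
          omega)
      hrun hNt
      (by
        intro j hj hjh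
        have e1 := hWs j (by omega)
        have e2 := hbst j (by omega)
        have e3 := h1 (k + 1 + j) (by omega) (by omega)
        show ((W (j + 1) : ℤ) - bs m b T (j + 1)) + m ≤ ((W j : ℤ) - bs m b T j) + 1
        omega)
      (by
        intro _ t ht
        have e3 := h1 (d / 2 + 1) (by omega) (by omega)
        show c t < (W h : ℤ) - bs m b T h
        rw [hWh]
        have e4 := hcle t
        omega)
      (by
        intro _
        show (W 1 : ℤ) - bs m b T 1 + c t0 ≤ c N
        have e1 := hWs 0 (by omega)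
        have e2 := hbst 0 (by omega)
        have e3 := h1 (k + 1 + 0) (by omega) (by omega)
        have e4 := hcle t0
        have e5 : (N : ℤ) ≤ c N := by rw [hc]; exact_mod_cast hx4
        simp only [Nat.zero_add] at e1 e2
        omega)
      (by
        have e1 : ((m : ℤ) - 1) * h = (((m - 1) * h : ℕ) : ℤ) := by
          push_cast [Nat.cast_sub (by omega : 1 ≤ m)]
          ring
        rw [e1]
        have e2 : ((k + 1 : ℕ) : ℤ) ≤ u * ((k + 1 : ℕ) : ℤ) := by
          rcases hu12 with e | e <;> rw [e] <;> push_cast <;> linarith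
        omega)
      (by omega)
    have hanti : Antitone (glue T h (fun j => x (lo j)) (fun j => x (hi j)) (x (t0 + (k + 1)))) := by
      apply glue_anti
      · intro j hj hjh
        have e3 := hlh2 j hj hjh
        exact ⟨hx1 _ _ e3.1, hx1 _ _ e3.2⟩
      · intro h1'
        have e1 := hlh1 h h1' le_rfl
        exact ⟨hx1 _ _ e1.2.1, hx1 _ _ e1.2.2.1⟩
    have hres := prim_of (b := b) (T := T) m (k + 1) d (by omega) hd (by omega) (by omega) (by omega) (aa m b)
      (aa_mono m b hm) _ hanti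
      (by
        intro I hI k'
        apply glue_mem T h _ _ _ (fun y => ∑ i ∈ I, aa m b i ≠ y)
        · intro j _ _
          exact ⟨hx2 _ I hI, hx2 _ I hI⟩
        · exact hx2 _ I hI)
      v (fun i hi1 hi2 => h0 i hi1 (by omega)) (by rw [hbT]; exact hs)
      (by
        intro j hj hjT
        rw [glue_lo T h (by omega) _ _ _ j hj (by omega), glue_hi T h _ _ _ j hj (by omega), ← hW]
        have e1 := (hlh1 j hj (by omega)).2.2.2.2
        rw [hc, hc] at e1
        show W j + CC m (aa m b) (x (lo j)) = bs m b T j + CC m (aa m b) (x (hi j))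
        omega)
    rwa [hbT] at hres

end Pool.Agent.RVG
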