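import Pool.Agent.MP_c130bd_co.RVG.Defs
import Pool.Agent.MP_c130bd_co.RVM.LinkP

set_option autoImplicit false

namespace Pool.Agent.RVG

open Finset Pool.Agent.RVM

/-! ## [RVG-GAL] a point set from its Gale vectors -/

/-- `m` or fewer of the vectors are independent. -/
theorem GAL_indep {ι : Type} [Fintype ι] [DecidableEq ι] {m : ℕ} (hm : 1 ≤ m)
    (hι : m ≤ Fintype.card ι) (V : ι → Fin m → ℝ) (Y : Finset ι → Fin m → ℝ)
    (hY : ∀ X : Finset ι, X.card + 1 = m → ∀ j, V j ⬝ᵥ Y X = 0 ↔ j ∈ X) (Z : Finset ι) (hZ : Z.card ≤ m)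
    (g : ι → ℝ) (hg : ∑ j ∈ Z, g j • V j = 0) (j : ι) (hj : j ∈ Z) : g j = 0 := by
  have hsub : Z.erase j ⊆ univ.erase j := Finset.erase_subset_erase _ (subset_univ _)
  have h1 : (Z.erase j).card ≤ m - 1 := by
    rw [card_erase_of_mem hj]
    omega
  have h2 : m - 1 ≤ (univ.erase j : Finset ι).card := by
    rw [card_erase_of_mem (mem_univ _), card_univ]
    omega
  obtain ⟨X, hX1, hX2, hX3⟩ := Finset.exists_subsuperset_card_eq hsub h1 h2
  have hXc : X.card + 1 = m := by omega
  have hjX : j ∉ X := fun h => (mem_erase.1 (hX2 h)).1 rfl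
  have h3 : (∑ i ∈ Z, g i • V i) ⬝ᵥ Y X = 0 := by rw [hg, zero_dotProduct]
  rw [sum_dotProduct, Finset.sum_eq_single_of_mem j hj] at h3
  · rw [smul_dotProduct, smul_eq_mul] at h3
    rcases mul_eq_zero.1 h3 with h4 | h4
    · exact h4
    · exact absurd ((hY X hXc j).1 h4) hjX
  · intro i hi hij
    rw [smul_dotProduct, (hY X hXc i).2 (hX1 (mem_erase.2 ⟨hij, hi⟩)), smul_zero]

theorem GAL_basis {ι : Type} [Fintype ι] [DecidableEq ι] {d m : ℕ}
    (hι : Fintype.card ι = d + m + 1) (V : ι → Fin m → ℝ) (c : ι → ℝ)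
    (hV : ∑ j, c j • V j = 0) :
    ∃ B : Fin (d + 1) → ι → ℝ, (∀ j, B 0 j = 1) ∧ LinearIndependent ℝ B ∧
      ∀ k, ∑ j, (B k j * c j) • V j = 0 := by
  classical
  let L : (ι → ℝ) →ₗ[ℝ] (Fin m → ℝ) :=
    { toFun := fun α => ∑ j, (α j * c j) • V j
      map_add' := by
        intro α β
        rw [← Finset.sum_add_distrib]
        apply Finset.sum_congr rfl
        intro j _
        rw [← add_smul, Pi.add_apply, add_mul]
      map_smul' := by
        intro r α
        rw [RingHom.id_apply, Finset.smul_sum]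
        apply Finset.sum_congr rfl
        intro j _
        rw [smul_smul, Pi.smul_apply, smul_eq_mul, mul_assoc] }
  have hL : ∀ α : ι → ℝ, α ∈ LinearMap.ker L ↔ ∑ j, (α j * c j) • V j = 0 := fun α => LinearMap.mem_ker
  have hdim : d + 1 ≤ Module.finrank ℝ (LinearMap.ker L) := by
    have h1 := LinearMap.finrank_range_add_finrank_ker L
    have h2 : Module.finrank ℝ (LinearMap.range L) ≤ m := by
      have := Submodule.finrank_le (LinearMap.range L)
      rwa [Module.finrank_fin_fun] at this
    rw [Module.finrank_fintype_fun_eq_card, hι] at h1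
    omega
  have hone : (fun _ => 1 : ι → ℝ) ∈ LinearMap.ker L := by
    rw [hL]
    simpa using hV
  have hex : ∀ n, n ≤ d → ∃ v : Fin (n + 1) → LinearMap.ker L, ((v 0 : LinearMap.ker L) : ι → ℝ) = (fun _ => 1) ∧
      LinearIndependent ℝ v := by
    intro n
    induction n with
    | zero =>
      intro _
      refine ⟨fun _ => ⟨fun _ => 1, hone⟩, rfl, ?_⟩
      have hne : Nonempty ι := by
        rw [← Fintype.card_pos_iff]
        omega
      obtain ⟨j⟩ := hne
      have hss : Subsingleton (Fin (0 + 1)) := inferInstanceAs (Subsingleton (Fin 1))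
      apply LinearIndependent.of_subsingleton 0
      intro h0
      have h1 := congrFun (congrArg Subtype.val h0) j
      simp at h1
    | succ n ih =>
      intro hn
      obtain ⟨v, hv1, hv2⟩ := ih (by omega)
      obtain ⟨w, hw⟩ := exists_linearIndependent_snoc_of_lt_finrank hv2 (by omega)
      refine ⟨Fin.snoc v w, ?_, hw⟩
      rw [← hv1]
      have : (0 : Fin (n + 1 + 1)) = Fin.castSucc 0 := rfl
      rw [this, Fin.snoc_castSucc]
  obtain ⟨v, hv1, hv2⟩ := hex d le_rfl
  refine ⟨fun k => (v k : ι → ℝ), fun j => by show ((v 0 : LinearMap.ker L) : ι → ℝ) j = 1; rw [hv1], ?_, fun k => (hL _).1 (v k).2⟩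
  exact hv2.map' (Submodule.subtype _) (Submodule.ker_subtype _)

theorem gale {ι : Type} [Fintype ι] [DecidableEq ι] {d m : ℕ} (hd : 1 ≤ d) (hm : 1 ≤ m)
    (hι : Fintype.card ι = d + m + 1) (V : ι → Fin m → ℝ) (c : ι → ℝ) (hc : ∀ j, 0 < c j)
    (hV : ∑ j, c j • V j = 0) (Y : Finset ι → Fin m → ℝ)
    (hY : ∀ X : Finset ι, X.card + 1 = m → ∀ j, V j ⬝ᵥ Y X = 0 ↔ j ∈ X) :
    ∃ S : Finset (E d), S.card = d + m + 1 ∧ GP S ∧ ∀ i, PP S i =
      (univ.filter fun X : Finset ι => X.card + 1 = m ∧
        ((univ.filter fun j => 0 < V j ⬝ᵥ Y X).card = i ∨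
          (univ.filter fun j => 0 < V j ⬝ᵥ Y X).card + i = d + 2)).card := by
  classical
  obtain ⟨B, hB0, hBi, hBV⟩ := GAL_basis (d := d) hι V c hV
  let p : ι → E d := fun j k => B k.succ j
  have hhv : ∀ j k, hv (p j) k = B k j := by
    intro j k
    refine Fin.cases ?_ (fun k => ?_) k
    · rw [hB0]
      simp [hv]
    · simp [hv, p]
  have hgp : GPc p := by
    intro I hI h0
    obtain ⟨x, hx0, hx⟩ := (Matrix.exists_mulVec_eq_zero_iff (M := Matrix.of fun r c => hv (p (I r)) c)).2 h0
    let α : ι → ℝ := fun j => ∑ k, x k * B k j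
    have hα : ∑ j, (α j * c j) • V j = 0 := by
      have h1 : ∀ j, (α j * c j) • V j = ∑ k, x k • ((B k j * c j) • V j) := by
        intro j
        show ((∑ k, x k * B k j) * c j) • V j = _
        rw [Finset.sum_mul, Finset.sum_smul]
        apply Finset.sum_congr rfl
        intro k _
        rw [smul_smul, mul_assoc]
      rw [Finset.sum_congr rfl fun j _ => h1 j, Finset.sum_comm]
      apply Finset.sum_eq_zero
      intro k _
      rw [← Finset.smul_sum, hBV, smul_zero]
    have hαI : ∀ r, α (I r) = 0 := by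
      intro r
      have h1 := congrFun hx r
      rw [Pi.zero_apply] at h1
      rw [← h1]
      show ∑ k, x k * B k (I r) = ∑ k, (Matrix.of fun r c => hv (p (I r)) c) r k * x k
      apply Finset.sum_congr rfl
      intro k _
      rw [Matrix.of_apply, hhv, mul_comm]
    have hsupp : ∀ j, α j = 0 := by
      intro j
      by_cases hj : j ∈ univ.image I
      · obtain ⟨r, _, rfl⟩ := Finset.mem_image.1 hj
        exact hαI r
      · have hZ : ((univ.image I)ᶜ : Finset ι).card ≤ m := by
          rw [Finset.card_compl, Finset.card_image_of_injective _ hI, Finset.card_univ, Fintype.card_fin, hι]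
          omega
        have h1 : ∑ j ∈ (univ.image I)ᶜ, (α j * c j) • V j = 0 := by
          rw [← hα]
          apply Finset.sum_subset (subset_univ _)
          intro i _ hi
          rw [Finset.mem_compl, not_not] at hi
          obtain ⟨r, _, rfl⟩ := Finset.mem_image.1 hi
          rw [hαI, zero_mul, zero_smul]
        have h2 := GAL_indep hm (by omega) V Y hY _ hZ (fun j => α j * c j) h1 j (Finset.mem_compl.2 hj)
        exact (mul_eq_zero.1 h2).resolve_right (hc j).ne'
    apply hx0
    have h3 : ∑ k, x k • B k = 0 := by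
      funext j
      rw [Finset.sum_apply, Pi.zero_apply, ← hsupp j]
      apply Finset.sum_congr rfl
      intro k _
      rw [Pi.smul_apply, smul_eq_mul]
    funext k
    exact Fintype.linearIndependent_iff.1 hBi x h3 k
  have hι' : d + 1 ≤ Fintype.card ι := by omega
  have hinj := inj_of_gpc hgp hι' hd
  refine ⟨univ.image p, ?_, (gp_iff hinj hι').2 hgp, ?_⟩
  · rw [Finset.card_image_of_injective _ hinj, Finset.card_univ, hι]
  · intro i
    rw [pp_eq hgp hι' hd]
    unfold Pc
    -- the type of the complement of `X`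
    have hty : ∀ X : Finset ι, X.card + 1 = m → ∀ i, Ty p Xᶜ i ↔
        ((univ.filter fun j => 0 < V j ⬝ᵥ Y X).card = i ∨
          (univ.filter fun j => 0 < V j ⬝ᵥ Y X).card + i = d + 2) := by
      intro X hX i
      have hXc : (Xᶜ).card = d + 2 := by
        rw [Finset.card_compl, hι]
        omega
      have h0 : Ty p Xᶜ (univ.filter fun j => 0 < V j ⬝ᵥ Y X).card := by
        refine ⟨fun j => c j * (V j ⬝ᵥ Y X), ?_, ?_, ?_⟩
        · unfold Dep
          funext k
          rw [Finset.sum_apply, Pi.zero_apply]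
          have h1 : (∑ j, (B k j * c j) • V j) ⬝ᵥ Y X = 0 := by rw [hBV, zero_dotProduct]
          rw [sum_dotProduct] at h1
          rw [← h1]
          apply Finset.sum_congr rfl
          intro j _
          rw [Pi.smul_apply, smul_eq_mul, hhv, smul_dotProduct, smul_eq_mul]
          ring
        · intro j
          rw [Finset.mem_compl, ← hY X hX j]
          constructor
          · intro h h1
            exact h (by show c j * (V j ⬝ᵥ Y X) = 0; rw [h1, mul_zero])
          · intro h
            exact mul_ne_zero (hc j).ne' h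
        · congr 1
          apply Finset.filter_congr
          intro j _
          exact mul_pos_iff_of_pos_left (hc j)
      rw [ty_cases hgp hXc h0]
      constructor
      · rintro (h | h)
        · exact Or.inl h.symm
        · exact Or.inr h
      · rintro (h | h)
        · exact Or.inl h.symm
        · exact Or.inr h
    apply Finset.card_nbij' (fun Z => Zᶜ) (fun X => Xᶜ)
    · intro Z hZ
      rw [Finset.mem_coe, Finset.mem_filter, Finset.mem_powersetCard] at hZ
      obtain ⟨⟨-, h1⟩, h2⟩ := hZ
      have h3 : (Zᶜ).card + 1 = m := by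
        rw [Finset.card_compl, hι, h1]
        omega
      rw [Finset.mem_coe, Finset.mem_filter]
      refine ⟨mem_univ _, h3, ?_⟩
      rw [← hty _ h3, compl_compl]
      exact h2
    · intro X hX
      rw [Finset.mem_coe, Finset.mem_filter] at hX
      obtain ⟨-, h1, h2⟩ := hX
      rw [Finset.mem_coe, Finset.mem_filter, Finset.mem_powersetCard]
      refine ⟨⟨subset_univ _, ?_⟩, (hty X h1 i).2 h2⟩
      rw [Finset.card_compl, hι]
      omega
    · intro Z _
      exact compl_compl Z
    · intro X _
      exact compl_compl X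

end Pool.Agent.RVG
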