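import Pool.Agent.MP_c130bd_co.RVG.LVA

set_option autoImplicit false

namespace Pool.Agent.RVG

open Finset

/-! ## [RVG-LVB] the levels -/

theorem LVB_rank {b : ℕ} (a : Fin b → ℕ) (ha : StrictMono a) (I : Finset (Fin b)) (y : ℕ) (i : Fin b) (hi : i ∉ I) :
    (Iᶜ.filter (· < i)).card < dg a I y ↔ ∑ j ∈ I, a j + a i < y := by
  unfold dg
  constructor
  · intro h
    by_contra hcon
    apply absurd h
    rw [not_lt]
    apply card_le_card
    intro j hj
    rw [mem_filter] at hj ⊢
    refine ⟨mem_compl.2 hj.2.1, ?_⟩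
    by_contra h2
    have h3 : a i ≤ a j := ha.monotone (not_lt.1 h2)
    omega
  · intro h
    have h1 : insert i (Iᶜ.filter (· < i)) ⊆ univ.filter fun j => j ∉ I ∧ ∑ i ∈ I, a i + a j < y := by
      intro j hj
      rw [mem_insert] at hj
      rw [mem_filter]
      rcases hj with rfl | hj
      · exact ⟨mem_univ _, hi, h⟩
      · rw [mem_filter, mem_compl] at hj
        have := ha hj.2
        exact ⟨mem_univ _, hj.1, by omega⟩
    have h2 := card_le_card h1
    rw [card_insert_of_notMem (by simp)] at h2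
    omega

theorem lvB1 {b T : ℕ} (m β : ℕ) (hb : b + 1 = 2 * β + m) (a : Fin b → ℕ) (ha : StrictMono a)
    (x : Fin T → ℕ) (hne : ∀ I : Finset (Fin b), I.card + 1 = m → ∀ k, ∑ i ∈ I, a i ≠ x k)
    (X : Finset (Fin b ⊕ Fin T)) (hX : X.card + 1 = m) (k : Fin T) (hr : X.toRight = {k}) :
    (univ.filter fun i : Fin b => i ∉ X.toLeft ∧ 0 < sgB m (fun i => (a i : ℝ)) (fun k => (x k : ℝ)) X i).card =
      β + dg a X.toLeft (x k) % 2 := by
  have hcard : X.toLeft.card + X.toRight.card = X.card := Finset.card_toLeft_add_card_toRight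
  have hr1 : X.toRight.card = 1 := by rw [hr, card_singleton]
  have h1 : (univ.filter fun i : Fin b => i ∉ X.toLeft ∧ 0 < sgB m (fun i => (a i : ℝ)) (fun k => (x k : ℝ)) X i) =
      (X.toLeft)ᶜ.filter fun i => (Even ((X.toLeft)ᶜ.filter (· < i)).card ∧ ((X.toLeft)ᶜ.filter (· < i)).card < dg a X.toLeft (x k)) ∨
        (Odd ((X.toLeft)ᶜ.filter (· < i)).card ∧ dg a X.toLeft (x k) ≤ ((X.toLeft)ᶜ.filter (· < i)).card) := by
    ext i
    simp only [mem_filter, mem_univ, true_and, mem_compl]
    apply and_congr_right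
    intro hi
    have hrk := LVB_rank a ha X.toLeft (x k) i hi
    obtain ⟨ρ, hρ⟩ : ∃ ρ, ρ = ((X.toLeft)ᶜ.filter (· < i)).card := ⟨_, rfl⟩
    obtain ⟨D, hD⟩ : ∃ D, D = dg a X.toLeft (x k) := ⟨_, rfl⟩
    have hs := LVA_sign a ha _ i hi
    have hpos := LVA_pos X.toLeft i hi
    rw [← hρ, ← hD] at hrk ⊢
    rw [← hρ] at hpos
    have hpm := LVA_pm ((i : ℕ) + (m - 1)) _ _ hs
    have hev : Even ((i : ℕ) + (m - 1) + (X.toLeft.filter (i < ·)).card) ↔ Odd ρ := by
      have h3 : (i : ℕ) + (m - 1) + (X.toLeft.filter (i < ·)).card = ρ + 1 + 2 * X.toLeft.card := by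
        omega
      rw [h3, Nat.even_add, Nat.even_add_one, Nat.not_even_iff_odd]
      constructor
      · intro h4
        exact h4.2 (even_two_mul _)
      · intro h4
        exact ⟨fun _ => even_two_mul _, fun _ => h4⟩
    rw [hev] at hpm
    obtain ⟨P, hP⟩ : ∃ P : ℝ, P = (-1 : ℝ) ^ ((i : ℕ) + (m - 1)) * ∏ i' ∈ X.toLeft, ((a i : ℝ) - a i') := ⟨_, rfl⟩
    rw [← hP] at hpm
    have hP0 : P ≠ 0 := by
      rw [hP]
      apply mul_ne_zero (pow_ne_zero _ (by norm_num))
      intro h
      rw [h, mul_zero] at hs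
      exact lt_irrefl _ hs
    have hsg : sgB m (fun i => (a i : ℝ)) (fun k => (x k : ℝ)) X i = P * ((a i : ℝ) + ∑ i' ∈ X.toLeft, (a i' : ℝ) - x k) := by
      unfold sgB
      rw [if_pos hr1, hr, prod_singleton, hP]
    rw [hsg]
    have hne' : ∑ j ∈ X.toLeft, a j + a i ≠ x k := by
      rw [add_comm, ← sum_insert hi]
      apply hne
      rw [card_insert_of_notMem hi]
      omega
    rcases lt_or_gt_of_ne hne' with h2 | h2
    · have h3 : (a i : ℝ) + ∑ i' ∈ X.toLeft, (a i' : ℝ) - x k < 0 := by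
        have h4 : ((∑ j ∈ X.toLeft, a j + a i : ℕ) : ℝ) < x k := by exact_mod_cast h2
        push_cast at h4
        linarith
      have h5 := hrk.2 h2
      constructor
      · intro h4
        left
        refine ⟨?_, h5⟩
        by_contra h6
        rw [Nat.not_even_iff_odd] at h6
        have h7 := hpm.2 h6
        nlinarith
      · rintro (h4 | h4)
        · have h6 : ¬ 0 < P := fun h7 => (Nat.not_odd_iff_even.2 h4.1) (hpm.1 h7)
          have h8 : P < 0 := lt_of_le_of_ne (not_lt.1 h6) hP0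
          exact mul_pos_of_neg_of_neg h8 h3
        · omega
    · have h3 : 0 < (a i : ℝ) + ∑ i' ∈ X.toLeft, (a i' : ℝ) - x k := by
        have h4 : (x k : ℝ) < ((∑ j ∈ X.toLeft, a j + a i : ℕ) : ℝ) := by exact_mod_cast h2
        push_cast at h4
        linarith
      have h5 : ¬ ρ < D := fun h => by
        have := hrk.1 h
        omega
      rw [mul_pos_iff_of_pos_right h3, hpm]
      constructor
      · intro h4
        exact Or.inr ⟨h4, not_lt.1 h5⟩
      · rintro (h4 | h4)
        · exact absurd h4.2 h5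
        · exact h4.1
  have hDle : dg a X.toLeft (x k) ≤ 2 * β + 1 := by
    unfold dg
    have h2 : (univ.filter fun j => j ∉ X.toLeft ∧ ∑ i ∈ X.toLeft, a i + a j < x k) ⊆ (X.toLeft)ᶜ := by
      intro j hj
      rw [mem_filter] at hj
      exact mem_compl.2 hj.2.1
    have h3 := card_le_card h2
    rw [card_compl, Fintype.card_fin] at h3
    omega
  rw [h1, rank_card (X.toLeft)ᶜ (fun q => (Even q ∧ q < dg a X.toLeft (x k)) ∨ (Odd q ∧ dg a X.toLeft (x k) ≤ q)),
    card_compl, Fintype.card_fin, show b - X.toLeft.card = 2 * β + 1 by omega, LVA_odd _ _ hDle]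

theorem lvU {b T : ℕ} (a : Fin b → ℕ) (x : Fin T → ℕ) (hx : StrictAnti x) (X : Finset (Fin b ⊕ Fin T)) :
    (univ.filter fun l : Fin T => l ∉ X.toRight ∧ 0 < sgU (fun i => (a i : ℝ)) (fun k => (x k : ℝ)) X l).card =
      if X.toRight = ∅ then (univ.filter fun k => ∑ i ∈ X.toLeft, a i < x k).card else UU X.toRight := by
  by_cases hr : X.toRight = ∅
  · rw [if_pos hr]
    congr 1
    ext l
    simp only [mem_filter, mem_univ, true_and]
    unfold sgU
    rw [if_pos hr, hr]
    simp only [notMem_empty, not_false_iff, true_and, sub_pos]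
    exact_mod_cast Iff.rfl
  · rw [if_neg hr]
    unfold UU
    congr 1
    ext l
    simp only [mem_filter, mem_univ, true_and]
    apply and_congr_right
    intro hl
    unfold sgU
    rw [if_neg hr]
    have key : ∀ K : Finset (Fin T), l ∉ K → 0 < (-1 : ℝ) ^ (K.filter (· < l)).card * ∏ k ∈ K, ((x l : ℝ) - x k) := by
      intro K
      induction K using Finset.induction_on with
      | empty => intro _; simp
      | insert j K hj ih =>
        intro hi
        rw [mem_insert, not_or] at hi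
        have h1 := ih hi.2
        rw [filter_insert, prod_insert hj]
        rcases lt_or_gt_of_ne hi.1 with h2 | h2
        · rw [if_neg (not_lt.2 h2.le)]
          have h3 : (x j : ℝ) < x l := by exact_mod_cast hx h2
          have h4 : (-1 : ℝ) ^ (K.filter (· < l)).card * (((x l : ℝ) - x j) * ∏ k ∈ K, ((x l : ℝ) - x k)) =
            ((x l : ℝ) - x j) * ((-1 : ℝ) ^ (K.filter (· < l)).card * ∏ k ∈ K, ((x l : ℝ) - x k)) := by ring
          rw [h4]
          exact mul_pos (by linarith) h1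
        · rw [if_pos h2, card_insert_of_notMem (by simp [hj]), pow_succ]
          have h3 : (x l : ℝ) < x j := by exact_mod_cast hx h2
          have h4 : (-1 : ℝ) ^ (K.filter (· < l)).card * -1 * (((x l : ℝ) - x j) * ∏ k ∈ K, ((x l : ℝ) - x k)) =
            ((x j : ℝ) - x l) * ((-1 : ℝ) ^ (K.filter (· < l)).card * ∏ k ∈ K, ((x l : ℝ) - x k)) := by ring
          rw [h4]
          exact mul_pos (by linarith) h1
    have h5 := LVA_pm 0 _ _ (key X.toRight hl)
    rw [pow_zero, one_mul, Nat.zero_add] at h5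
    exact h5

theorem lev_card {b T : ℕ} (m β : ℕ) (hm : 3 ≤ m) (hb : b + 1 = 2 * β + m) (a : Fin b → ℕ) (ha : StrictMono a)
    (x : Fin T → ℕ) (hx : StrictAnti x)
    (hne : ∀ I : Finset (Fin b), I.card + 1 = m → ∀ k, ∑ i ∈ I, a i ≠ x k)
    (X : Finset (Fin b ⊕ Fin T)) (hX : X.card + 1 = m) :
    (univ.filter fun j => j ∉ X ∧ 0 < sg m (fun i => (a i : ℝ)) (fun k => (x k : ℝ)) X j).card =
      lev β a x X := by
  have hsplit : (univ.filter fun j => j ∉ X ∧ 0 < sg m (fun i => (a i : ℝ)) (fun k => (x k : ℝ)) X j) =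
      (univ.filter fun i : Fin b => i ∉ X.toLeft ∧ 0 < sgB m (fun i => (a i : ℝ)) (fun k => (x k : ℝ)) X i).disjSum
      (univ.filter fun l : Fin T => l ∉ X.toRight ∧ 0 < sgU (fun i => (a i : ℝ)) (fun k => (x k : ℝ)) X l) := by
    ext j
    rcases j with i | l
    · simp only [mem_filter, mem_univ, true_and, inl_mem_disjSum, mem_toLeft]
      rfl
    · simp only [mem_filter, mem_univ, true_and, inr_mem_disjSum, mem_toRight]
      rfl
  rw [hsplit, card_disjSum, lvU a x hx X]
  unfold lev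
  by_cases hr : X.toRight = ∅
  · rw [if_pos hr, if_pos hr, lvB0 m β hb a ha x X hX (by rw [hr]; simp), hr, card_empty]
    simp
  · rw [if_neg hr, if_neg hr]
    by_cases hr1 : X.toRight.card = 1
    · obtain ⟨k, hk⟩ := card_eq_one.1 hr1
      rw [lvB1 m β hb a ha x hne X hX k hk, if_pos hr1, hr1, hk, sum_singleton]
      omega
    · rw [lvB0 m β hb a ha x X hX hr1, if_neg hr1]
      omega

end Pool.Agent.RVG
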