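import Pool.Agent.MP_c130bd_co.RVG.Defs
import Pool.Agent.MP_c130bd_co.RVM.Dep

set_option autoImplicit false

namespace Pool.Agent.RVG

open Finset Pool.Agent.RVM

/-! ## [RVG-POS] a positive dependence of the Gale vectors -/

/-- points of the moment curve -/
noncomputable def POS_p (d : ℕ) {n : ℕ} (a : Fin n → ℝ) (i : Fin n) : E d := fun k => a i ^ ((k : ℕ) + 1)

theorem POS_hv (d : ℕ) {n : ℕ} (a : Fin n → ℝ) (i : Fin n) (k : Fin (d + 1)) :
    hv (POS_p d a i) k = a i ^ (k : ℕ) := by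
  refine Fin.cases ?_ (fun k => ?_) k
  · simp [hv]
  · simp [hv, POS_p]

theorem POS_D (d : ℕ) {n : ℕ} (a : Fin n → ℝ) (ha : StrictMono a) (I : Fin (d + 1) → Fin n) (hI : StrictMono I) :
    0 < D (POS_p d a) I := by
  have h1 : D (POS_p d a) I = Matrix.det (Matrix.vandermonde fun r => a (I r)) := by
    unfold D
    congr 1
    ext r c
    rw [Matrix.of_apply, POS_hv, Matrix.vandermonde_apply]
  rw [h1, Matrix.det_vandermonde]
  apply Finset.prod_pos
  intro i _
  apply Finset.prod_pos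
  intro j hj
  have hij : i < j := Finset.mem_Ioi.mp hj
  have := ha (hI hij)
  linarith

/-- `m + 1` vectors `(-1)^i (1, a i, …, a i^(m-1))` with increasing `a i` have a positive dependence, and they span. -/
theorem POS_core (m : ℕ) (hm : 1 ≤ m) (a : Fin (m + 1) → ℝ) (ha : StrictMono a) :
    (∃ c : Fin (m + 1) → ℝ, (∀ i, 0 < c i) ∧
      ∀ n : Fin m, ∑ i, c i * ((-1) ^ (i : ℕ) * a i ^ (n : ℕ)) = 0) ∧
    ∀ w : Fin m → ℝ, ∃ μ : Fin (m + 1) → ℝ, ∀ n : Fin m, ∑ i, μ i * ((-1) ^ (i : ℕ) * a i ^ (n : ℕ)) = w n := by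
  obtain ⟨d, rfl⟩ : ∃ d, m = d + 1 := ⟨m - 1, by omega⟩
  constructor
  · refine ⟨fun i => D (POS_p d a) (id ∘ i.succAbove), ?_, ?_⟩
    · intro i
      exact POS_D d a ha _ (strictMono_id.comp (Fin.strictMono_succAbove i))
    · intro n
      have h1 := congrFun (lam_dep (POS_p d a) id) n
      rw [Finset.sum_apply, Pi.zero_apply] at h1
      rw [← h1]
      apply Finset.sum_congr rfl
      intro i _
      rw [Pi.smul_apply, smul_eq_mul, id, POS_hv, Lam]
      ring
  · intro w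
    have hdet : (Matrix.vandermonde fun r : Fin (d + 1) => a r.castSucc).det ≠ 0 := by
      rw [Matrix.det_vandermonde_ne_zero_iff]
      intro i j hij
      exact Fin.castSucc_injective _ (ha.injective hij)
    have hu : IsUnit (Matrix.vandermonde fun r : Fin (d + 1) => a r.castSucc).det := isUnit_iff_ne_zero.2 hdet
    obtain ⟨ν, hν⟩ : ∃ ν : Fin (d + 1) → ℝ, Matrix.vecMul ν (Matrix.vandermonde fun r : Fin (d + 1) => a r.castSucc) = w := by
      refine ⟨Matrix.vecMul w (Matrix.vandermonde fun r : Fin (d + 1) => a r.castSucc)⁻¹, ?_⟩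
      rw [Matrix.vecMul_vecMul, Matrix.nonsing_inv_mul _ hu, Matrix.vecMul_one]
    refine ⟨Fin.snoc (fun i => (-1) ^ (i : ℕ) * ν i) 0, ?_⟩
    intro n
    rw [Fin.sum_univ_castSucc]
    simp only [Fin.snoc_castSucc, Fin.snoc_last, zero_mul, add_zero, Fin.val_castSucc]
    rw [← hν]
    show _ = ∑ i, ν i * a i.castSucc ^ (n : ℕ)
    apply Finset.sum_congr rfl
    intro i _
    have h2 : ((-1 : ℝ) ^ (i : ℕ)) * ((-1 : ℝ) ^ (i : ℕ)) = 1 := by
      rw [← mul_pow]
      norm_num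
    calc (-1) ^ (i : ℕ) * ν i * ((-1) ^ (i : ℕ) * a i.castSucc ^ (n : ℕ)) =
        ((-1 : ℝ) ^ (i : ℕ)) * ((-1 : ℝ) ^ (i : ℕ)) * (ν i * a i.castSucc ^ (n : ℕ)) := by ring
      _ = _ := by rw [h2, one_mul]

theorem pos_dep {b T : ℕ} (m : ℕ) (hm : 1 ≤ m) (hb : m + 1 ≤ b) (a : Fin b → ℝ) (ha : StrictMono a)
    (t : Fin T → ℝ) (ζ : ℝ) :
    ∃ c : Fin b ⊕ Fin T → ℝ, (∀ j, 0 < c j) ∧ ∑ j, c j • VV m a t ζ j = 0 := by
  classical
  obtain ⟨⟨c₀, hc₀, hc₀'⟩, hspan⟩ := POS_core m hm (fun i => a (Fin.castLE hb i)) (fun i j h => ha (by exact h))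
  let e : Fin (m + 1) → Fin b ⊕ Fin T := fun i => Sum.inl (Fin.castLE hb i)
  have he : Function.Injective e := fun i j h => Fin.castLE_injective hb (Sum.inl_injective h)
  have hVe : ∀ i (n : Fin m), VV m a t ζ (e i) n = (-1) ^ (m - 1) * ((-1) ^ (i : ℕ) * a (Fin.castLE hb i) ^ (n : ℕ)) := by
    intro i n
    show (-1) ^ (((Fin.castLE hb i : Fin b) : ℕ) + (m - 1)) * a (Fin.castLE hb i) ^ (n : ℕ) = _
    rw [Fin.val_castLE, pow_add]
    ring
  obtain ⟨μ, hμ⟩ := hspan (fun n => -((-1) ^ (m - 1) * ∑ j ∈ univ.filter (fun j => j ∉ univ.image e), VV m a t ζ j n))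
  obtain ⟨L, hL⟩ : ∃ L : ℝ, ∀ i, 0 < μ i + L * c₀ i := by
    refine ⟨∑ i, |μ i| / c₀ i + 1, ?_⟩
    intro i
    have h1 : |μ i| / c₀ i ≤ ∑ i, |μ i| / c₀ i :=
      Finset.single_le_sum (f := fun i => |μ i| / c₀ i) (fun j _ => div_nonneg (abs_nonneg _) (hc₀ j).le) (mem_univ i)
    have h2 : |μ i| = |μ i| / c₀ i * c₀ i := (div_mul_cancel₀ _ (hc₀ i).ne').symm
    have h3 := neg_abs_le (μ i)
    have h4 := hc₀ i
    nlinarith
  refine ⟨fun j => ∑ i, (if e i = j then μ i + L * c₀ i else 0) + if j ∈ univ.image e then 0 else 1, ?_, ?_⟩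
  · intro j
    by_cases hj : j ∈ univ.image e
    · obtain ⟨i, _, rfl⟩ := Finset.mem_image.1 hj
      show 0 < ∑ i', (if e i' = e i then μ i' + L * c₀ i' else 0) + if e i ∈ univ.image e then 0 else 1
      rw [if_pos hj, add_zero, Finset.sum_eq_single i]
      · rw [if_pos rfl]
        exact hL i
      · intro i' _ hi'
        rw [if_neg fun h => hi' (he h)]
      · intro h
        exact absurd (mem_univ i) h
    · show 0 < ∑ i', (if e i' = j then μ i' + L * c₀ i' else 0) + if j ∈ univ.image e then 0 else 1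
      rw [if_neg hj, Finset.sum_eq_zero]
      · norm_num
      · intro i _
        rw [if_neg fun h => hj (Finset.mem_image.2 ⟨i, mem_univ _, h⟩)]
  · funext n
    rw [Finset.sum_apply, Pi.zero_apply]
    have h1 : ∀ j, ((∑ i, (if e i = j then μ i + L * c₀ i else 0) + if j ∈ univ.image e then 0 else 1) • VV m a t ζ j) n =
        ∑ i, (if e i = j then (μ i + L * c₀ i) * VV m a t ζ j n else 0) +
          if j ∉ univ.image e then VV m a t ζ j n else 0 := by
      intro j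
      rw [Pi.smul_apply, smul_eq_mul, add_mul, Finset.sum_mul]
      congr 1
      · apply Finset.sum_congr rfl
        intro i _
        split_ifs <;> simp
      · by_cases hj : j ∈ univ.image e
        · rw [if_pos hj, if_neg (not_not.2 hj), zero_mul]
        · rw [if_neg hj, if_pos hj, one_mul]
    rw [Finset.sum_congr rfl fun j _ => h1 j, Finset.sum_add_distrib, Finset.sum_comm, ← Finset.sum_filter]
    have h2 : ∀ i, ∑ j, (if e i = j then (μ i + L * c₀ i) * VV m a t ζ j n else 0) = (μ i + L * c₀ i) * VV m a t ζ (e i) n := by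
      intro i
      rw [Finset.sum_ite_eq]
      simp
    rw [Finset.sum_congr rfl fun i _ => h2 i]
    have h3 := hμ n
    have h4 := hc₀' n
    have h5 : ((-1 : ℝ) ^ (m - 1)) * ((-1 : ℝ) ^ (m - 1)) = 1 := by
      rw [← mul_pow]
      norm_num
    have h6 : ∑ i, (μ i + L * c₀ i) * VV m a t ζ (e i) n =
        (-1) ^ (m - 1) * (∑ i, μ i * ((-1) ^ (i : ℕ) * a (Fin.castLE hb i) ^ (n : ℕ)) +
          L * ∑ i, c₀ i * ((-1) ^ (i : ℕ) * a (Fin.castLE hb i) ^ (n : ℕ))) := by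
      rw [Finset.mul_sum, ← Finset.sum_add_distrib, Finset.mul_sum]
      apply Finset.sum_congr rfl
      intro i _
      rw [hVe]
      ring
    rw [h6, h3, h4]
    have h7 : (-1 : ℝ) ^ (m - 1) * (-((-1) ^ (m - 1) * ∑ j ∈ univ.filter (fun j => j ∉ univ.image e), VV m a t ζ j n) + L * 0) =
        -(((-1 : ℝ) ^ (m - 1)) * ((-1 : ℝ) ^ (m - 1)) * ∑ j ∈ univ.filter (fun j => j ∉ univ.image e), VV m a t ζ j n) := by ring
    rw [h7, h5, one_mul, neg_add_cancel]

end Pool.Agent.RVG
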