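import Pool.Agent.MP_c130bd_co.RVG.SGM

set_option autoImplicit false

namespace Pool.Agent.RVG

open Finset Polynomial Filter Topology

/-! ## [RVG-SGA] the normal vectors of the sets with at most one element of the second part -/

theorem SGA_pow (n : ℕ) : ((-1 : ℝ) ^ n) * ((-1 : ℝ) ^ n) = 1 := by
  rw [← mul_pow]
  norm_num

theorem SGA_evR (p : ℝ → ℝ) (c : ℝ) (hc : c ≠ 0) (h : ContinuousAt p 0) (h0 : p 0 = c) :
    ∀ᶠ ζ in 𝓝 (0 : ℝ), 0 < c * p ζ := by
  have h1 : ContinuousAt (fun ζ => c * p ζ) 0 := continuousAt_const.mul h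
  have h2 : 0 < c * p 0 := by
    rw [h0]
    exact mul_self_pos.2 hc
  exact h1.eventually (lt_mem_nhds h2)

theorem sgn0 {b T : ℕ} (m : ℕ) (hm : 3 ≤ m) (a : Fin b → ℝ) (ha : Function.Injective a)
    (t : Fin T → ℝ) (hne : ∀ I : Finset (Fin b), I.card + 1 = m → ∀ k, ∑ i ∈ I, a i ≠ t k)
    (X : Finset (Fin b ⊕ Fin T)) (hX : X.card + 1 = m) (hr : X.toRight = ∅) :
    ∀ᶠ ζ in 𝓝[>] (0 : ℝ), ∃ y : Fin m → ℝ, (∀ j ∈ X, VV m a t ζ j ⬝ᵥ y = 0) ∧
      ∀ j, j ∉ X → 0 < sg m a t X j * (VV m a t ζ j ⬝ᵥ y) := by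
  have hcard : X.toLeft.card + X.toRight.card = X.card := Finset.card_toLeft_add_card_toRight
  rw [hr, card_empty, add_zero] at hcard
  have hmg : m = X.toLeft.card + 0 + 1 := by omega
  have hlim : ∀ l : Fin T, ∀ᶠ ζ in 𝓝 (0 : ℝ), 0 < (t l - ∑ i ∈ X.toLeft, a i) * Phi m (t l) ζ (PI a X.toLeft) := by
    intro l
    apply SGA_evR
    · exact sub_ne_zero.2 (hne _ (by omega) l).symm
    · have h1 : (fun ζ => Phi m (t l) ζ (PI a X.toLeft)) = fun ζ => MM m X.toLeft.card 0 (PI a X.toLeft) 0 (t l) ζ := by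
        funext ζ
        have h2 := Phi_mul hmg (PI a X.toLeft) (PI_natDegree a _).le 0 le_rfl (t l) ζ
        simpa using h2
      rw [h1]
      exact (MM_cont _ _ _ _ _ _).continuousAt
    · have h2 := Phi_mul hmg (PI a X.toLeft) (PI_natDegree a _).le 0 le_rfl (t l) 0
      rw [MM_eq a X.toLeft hmg rfl] at h2
      simpa using h2
  have hall := (Filter.eventually_all.2 hlim).filter_mono (nhdsWithin_le_nhds (s := Set.Ioi (0 : ℝ)))
  filter_upwards [hall] with ζ hζ
  have hdeg : (PI a X.toLeft).natDegree < m := by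
    rw [PI_natDegree]
    omega
  refine ⟨fun n => (PI a X.toLeft).coeff n, ?_, ?_⟩
  · intro j hj
    rcases j with i | k
    · rw [dotL m a t ζ i _ hdeg, PI_eval, Finset.prod_eq_zero (Finset.mem_toLeft.2 hj) (sub_self _), mul_zero]
    · exfalso
      have := Finset.mem_toRight.2 hj
      rw [hr] at this
      exact absurd this (Finset.notMem_empty _)
  · intro j hj
    rcases j with i | l
    · rw [dotL m a t ζ i _ hdeg, PI_eval]
      show 0 < sgB m a t X i * _
      unfold sgB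
      rw [hr, card_empty, if_neg (by norm_num), mul_one]
      have h1 : ∏ i' ∈ X.toLeft, (a i - a i') ≠ 0 := by
        rw [Finset.prod_ne_zero_iff]
        intro i' hi'
        apply sub_ne_zero.2
        intro h2
        rw [ha h2] at hj
        exact hj (Finset.mem_toLeft.1 hi')
      have h2 : (-1 : ℝ) ^ ((i : ℕ) + (m - 1)) * (∏ i' ∈ X.toLeft, (a i - a i')) *
          ((-1) ^ ((i : ℕ) + (m - 1)) * ∏ i' ∈ X.toLeft, (a i - a i')) =
          ((-1 : ℝ) ^ ((i : ℕ) + (m - 1)) * (-1) ^ ((i : ℕ) + (m - 1))) *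
            ((∏ i' ∈ X.toLeft, (a i - a i')) * ∏ i' ∈ X.toLeft, (a i - a i')) := by ring
      rw [h2, SGA_pow, one_mul]
      exact mul_self_pos.2 h1
    · rw [dotU]
      show 0 < sgU a t X l * _
      unfold sgU
      rw [if_pos hr]
      exact hζ l

theorem sgn1 {b T : ℕ} (m : ℕ) (hm : 3 ≤ m) (a : Fin b → ℝ) (ha : Function.Injective a)
    (t : Fin T → ℝ) (ht : Function.Injective t)
    (hne : ∀ I : Finset (Fin b), I.card + 1 = m → ∀ k, ∑ i ∈ I, a i ≠ t k)
    (X : Finset (Fin b ⊕ Fin T)) (hX : X.card + 1 = m) (hr : X.toRight.card = 1) :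
    ∀ᶠ ζ in 𝓝[>] (0 : ℝ), ∃ y : Fin m → ℝ, (∀ j ∈ X, VV m a t ζ j ⬝ᵥ y = 0) ∧
      ∀ j, j ∉ X → 0 < sg m a t X j * (VV m a t ζ j ⬝ᵥ y) := by
  have hcard : X.toLeft.card + X.toRight.card = X.card := Finset.card_toLeft_add_card_toRight
  have hmg : m = X.toLeft.card + 1 + 1 := by omega
  obtain ⟨k, hk⟩ := Finset.card_eq_one.1 hr
  obtain ⟨P, hP⟩ : ∃ P, P = PI a X.toLeft := ⟨_, rfl⟩
  have hPd : P.natDegree = X.toLeft.card := by rw [hP, PI_natDegree]
  obtain ⟨σ, hσ⟩ : ∃ σ, σ = ∑ i ∈ X.toLeft, a i := ⟨_, rfl⟩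
  -- the functions `D`, `N`
  obtain ⟨D, hD⟩ : ∃ D : Fin T → ℝ → ℝ, ∀ l ζ, D l ζ = Phi m (t l) ζ P := ⟨_, fun _ _ => rfl⟩
  obtain ⟨N, hN⟩ : ∃ N : Fin T → ℝ → ℝ, ∀ l ζ, N l ζ = Phi m (t l) ζ (P * Polynomial.X) := ⟨_, fun _ _ => rfl⟩
  have hD' : ∀ l ζ, D l ζ = MM m X.toLeft.card 1 P 0 (t l) ζ := by
    intro l ζ
    have h2 := Phi_mul hmg P hPd.le 0 (by norm_num) (t l) ζ
    rw [hD]
    simpa using h2
  have hN' : ∀ l ζ, N l ζ = MM m X.toLeft.card 1 P 1 (t l) ζ := by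
    intro l ζ
    have h2 := Phi_mul hmg P hPd.le 1 le_rfl (t l) ζ
    rw [hN]
    simpa using h2
  have hDc : ∀ l, ContinuousAt (D l) 0 := by
    intro l
    rw [show D l = fun ζ => MM m X.toLeft.card 1 P 0 (t l) ζ from funext (hD' l)]
    exact (MM_cont _ _ _ _ _ _).continuousAt
  have hNc : ∀ l, ContinuousAt (N l) 0 := by
    intro l
    rw [show N l = fun ζ => MM m X.toLeft.card 1 P 1 (t l) ζ from funext (hN' l)]
    exact (MM_cont _ _ _ _ _ _).continuousAt
  have hD0 : ∀ l, D l 0 = 1 := by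
    intro l
    rw [hD', MM_lt hmg P (by rw [hP]; exact PI_coeff a _) 0 (by norm_num)]
    simp [psi]
  have hN0 : ∀ l, N l 0 = t l - σ := by
    intro l
    rw [hN', hP, MM_eq a X.toLeft hmg rfl, hσ]
  have hlimL : ∀ i : Fin b, i ∉ X.toLeft → ∀ᶠ ζ in 𝓝 (0 : ℝ),
      0 < ((∏ i' ∈ X.toLeft, (a i - a i')) * (a i + σ - t k)) *
        ((∏ i' ∈ X.toLeft, (a i - a i')) * (D k ζ * a i - N k ζ)) := by
    intro i hi
    apply SGA_evR
    · apply mul_ne_zero
      · rw [Finset.prod_ne_zero_iff]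
        intro i' hi'
        apply sub_ne_zero.2
        intro h2
        rw [ha h2] at hi
        exact hi hi'
      · apply sub_ne_zero.2
        rw [hσ, ← Finset.sum_insert hi]
        apply hne
        rw [card_insert_of_notMem hi]
        omega
    · exact continuousAt_const.mul (((hDc k).mul continuousAt_const).sub (hNc k))
    · rw [hD0, hN0]
      ring
  have hlimU : ∀ l : Fin T, l ≠ k → ∀ᶠ ζ in 𝓝 (0 : ℝ),
      0 < (t l - t k) * (D k ζ * N l ζ - N k ζ * D l ζ) := by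
    intro l hl
    apply SGA_evR
    · exact sub_ne_zero.2 fun h => hl (ht h)
    · exact ((hDc k).mul (hNc l)).sub ((hNc k).mul (hDc l))
    · rw [hD0, hN0, hN0, hD0]
      ring
  have hL1 : ∀ᶠ ζ in 𝓝 (0 : ℝ), ∀ i : Fin b, i ∉ X.toLeft →
      0 < ((∏ i' ∈ X.toLeft, (a i - a i')) * (a i + σ - t k)) *
        ((∏ i' ∈ X.toLeft, (a i - a i')) * (D k ζ * a i - N k ζ)) := by
    rw [Filter.eventually_all]
    intro i
    by_cases hi : i ∈ X.toLeft
    · exact Filter.Eventually.of_forall fun ζ h => absurd hi h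
    · filter_upwards [hlimL i hi] with ζ h1 _
      exact h1
  have hU1 : ∀ᶠ ζ in 𝓝 (0 : ℝ), ∀ l : Fin T, l ≠ k → 0 < (t l - t k) * (D k ζ * N l ζ - N k ζ * D l ζ) := by
    rw [Filter.eventually_all]
    intro l
    by_cases hl : l = k
    · exact Filter.Eventually.of_forall fun ζ h => absurd hl h
    · filter_upwards [hlimU l hl] with ζ h1 _
      exact h1
  filter_upwards [hL1.filter_mono (nhdsWithin_le_nhds (s := Set.Ioi (0 : ℝ))),
    hU1.filter_mono (nhdsWithin_le_nhds (s := Set.Ioi (0 : ℝ)))] with ζ hζL hζU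
  obtain ⟨p, hp⟩ : ∃ p : ℝ[X], p = C (D k ζ) * (P * Polynomial.X) + C (-N k ζ) * P := ⟨_, rfl⟩
  have hdeg : p.natDegree < m := by
    rw [hp]
    have h1 : (C (D k ζ) * (P * Polynomial.X)).natDegree ≤ X.toLeft.card + 1 := by
      apply (natDegree_C_mul_le _ _).trans
      apply natDegree_mul_le.trans
      rw [hPd, natDegree_X]
    have h2 : (C (-N k ζ) * P).natDegree ≤ X.toLeft.card + 1 := by
      apply (natDegree_C_mul_le _ _).trans
      rw [hPd]
      omega
    have h3 := natDegree_add_le_of_degree_le h1 h2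
    omega
  have hev : ∀ s, p.eval s = (∏ i' ∈ X.toLeft, (s - a i')) * (D k ζ * s - N k ζ) := by
    intro s
    rw [hp, hP]
    simp only [eval_add, eval_mul, eval_C, eval_X, PI_eval]
    ring
  have hPhi : ∀ l, Phi m (t l) ζ p = D k ζ * N l ζ - N k ζ * D l ζ := by
    intro l
    rw [hp, Phi_add, Phi_smul, Phi_smul, ← hD, ← hN]
    ring
  refine ⟨fun n => p.coeff n, ?_, ?_⟩
  · intro j hj
    rcases j with i | l
    · rw [dotL m a t ζ i _ hdeg, hev, Finset.prod_eq_zero (Finset.mem_toLeft.2 hj) (sub_self _), zero_mul, mul_zero]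
    · have h1 := Finset.mem_toRight.2 hj
      rw [hk, Finset.mem_singleton] at h1
      rw [dotU, hPhi, h1]
      ring
  · intro j hj
    rcases j with i | l
    · have hi : i ∉ X.toLeft := fun h => hj (Finset.mem_toLeft.1 h)
      rw [dotL m a t ζ i _ hdeg, hev]
      show 0 < sgB m a t X i * _
      unfold sgB
      rw [if_pos hr, hk, Finset.prod_singleton, ← hσ]
      have h2 : (-1 : ℝ) ^ ((i : ℕ) + (m - 1)) * (∏ i' ∈ X.toLeft, (a i - a i')) * (a i + σ - t k) *
          ((-1) ^ ((i : ℕ) + (m - 1)) * ((∏ i' ∈ X.toLeft, (a i - a i')) * (D k ζ * a i - N k ζ))) =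
          ((-1 : ℝ) ^ ((i : ℕ) + (m - 1)) * (-1) ^ ((i : ℕ) + (m - 1))) *
            (((∏ i' ∈ X.toLeft, (a i - a i')) * (a i + σ - t k)) *
              ((∏ i' ∈ X.toLeft, (a i - a i')) * (D k ζ * a i - N k ζ))) := by ring
      rw [h2, SGA_pow, one_mul]
      exact hζL i hi
    · have hl : l ≠ k := by
        intro h
        apply hj
        rw [← Finset.mem_toRight, hk, h]
        exact Finset.mem_singleton_self k
      rw [dotU, hPhi]
      show 0 < sgU a t X l * _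
      unfold sgU
      rw [if_neg (by rw [hk]; exact Finset.singleton_ne_empty k), hk, Finset.prod_singleton]
      exact hζU l hl

end Pool.Agent.RVG
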