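import Pool.Agent.MP_c130bd_co.RVG.Defs

set_option autoImplicit false

namespace Pool.Agent.RVG

open Finset Polynomial Filter Topology

/-! ## [RVG-SGC] a perturbed interpolation problem -/

theorem solve_near {r : ℕ} (A : ℝ → Matrix (Fin r) (Fin r) ℝ) (v : ℝ → Fin r → ℝ)
    (hA : ContinuousAt A 0) (hv : ContinuousAt v 0) (g : Fin r → ℝ) (h0 : (A 0).mulVec g = v 0)
    (hdet : (A 0).det ≠ 0) : ∃ γ : ℝ → Fin r → ℝ, ContinuousAt γ 0 ∧ γ 0 = g ∧
      ∀ᶠ ζ in 𝓝 (0 : ℝ), (A ζ).mulVec (γ ζ) = v ζ := by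
  have hd : ContinuousAt (fun ζ => (A ζ).det) 0 := by
    have h1 : Continuous fun M : Matrix (Fin r) (Fin r) ℝ => M.det := Continuous.matrix_det continuous_id
    exact h1.continuousAt.comp hA
  have hcr : ContinuousAt (fun ζ => Matrix.cramer (A ζ) (v ζ)) 0 := by
    have h1 : Continuous fun p : Matrix (Fin r) (Fin r) ℝ × (Fin r → ℝ) => Matrix.cramer p.1 p.2 :=
      Continuous.matrix_cramer continuous_fst continuous_snd
    exact h1.continuousAt.comp (hA.prodMk hv)
  have hne : ∀ᶠ ζ in 𝓝 (0 : ℝ), (A ζ).det ≠ 0 := hd.eventually_ne hdet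
  have hsol : ∀ ζ, (A ζ).det ≠ 0 → (A ζ).mulVec ((A ζ).det⁻¹ • Matrix.cramer (A ζ) (v ζ)) = v ζ := by
    intro ζ h
    rw [Matrix.mulVec_smul, Matrix.mulVec_cramer, smul_smul, inv_mul_cancel₀ h, one_smul]
  refine ⟨fun ζ => (A ζ).det⁻¹ • Matrix.cramer (A ζ) (v ζ), (hd.inv₀ hdet).smul hcr, ?_, ?_⟩
  · have h1 := hsol 0 hdet
    have h2 : (A 0).mulVec ((A 0).det⁻¹ • Matrix.cramer (A 0) (v 0) - g) = 0 := by
      rw [Matrix.mulVec_sub, h1, h0, sub_self]
    exact sub_eq_zero.1 (Matrix.eq_zero_of_mulVec_eq_zero hdet h2)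
  · filter_upwards [hne] with ζ h
    exact hsol ζ h

/-- the polynomial with the values `∑ x j φ_j(s)` -/
noncomputable def SGC_q {r : ℕ} (x : Fin r → ℝ) (σ : ℝ) : ℝ[X] :=
  ∑ j : Fin r, C (x j) * (if (j : ℕ) + 1 = r then X - C σ else if (j : ℕ) + 2 = r then 1 else X ^ (r - ((j : ℕ) + 1)))

theorem SGC_q_eval {r : ℕ} (x : Fin r → ℝ) (σ s : ℝ) : (SGC_q x σ).eval s =
    ∑ j : Fin r, x j * (if (j : ℕ) + 1 = r then s - σ else psi s (r - ((j : ℕ) + 1))) := by
  unfold SGC_q
  rw [eval_finsetSum]
  apply Finset.sum_congr rfl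
  intro j _
  have hj := j.2
  rw [eval_mul, eval_C]
  congr 1
  by_cases h1 : (j : ℕ) + 1 = r
  · rw [if_pos h1, if_pos h1]
    simp
  · rw [if_neg h1, if_neg h1]
    by_cases h2 : (j : ℕ) + 2 = r
    · rw [if_pos h2, show r - ((j : ℕ) + 1) = 1 by omega]
      simp [psi]
    · rw [if_neg h2]
      unfold psi
      rw [if_neg (by omega), if_neg (by omega)]
      simp

theorem SGC_q_coeff {r : ℕ} (x : Fin r → ℝ) (σ : ℝ) (n : ℕ) : (SGC_q x σ).coeff n =
    ∑ j : Fin r, x j * (if (j : ℕ) + 1 = r then (if n = 1 then 1 else if n = 0 then -σ else 0)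
      else if (j : ℕ) + 2 = r then (if n = 0 then 1 else 0) else if n = r - ((j : ℕ) + 1) then 1 else 0) := by
  unfold SGC_q
  rw [finsetSum_coeff]
  apply Finset.sum_congr rfl
  intro j _
  rw [coeff_C_mul]
  congr 1
  split_ifs with h1 h2 h3 h4 h5 h6
  · subst h2; simp
  · subst h3; simp
  · rw [coeff_sub, coeff_X, coeff_C, if_neg h3, if_neg (fun h => h2 h.symm), sub_zero]
  · subst h5; simp
  · rw [coeff_one, if_neg (fun h => h5 h)]
  · rw [h6, coeff_X_pow_self]
  · rw [coeff_X_pow, if_neg h6]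

theorem SGC_det {r : ℕ} (hr : 2 ≤ r) (e : Fin r → ℝ) (he : Function.Injective e) (σ : ℝ) :
    (Matrix.of fun k j : Fin r => if (j : ℕ) + 1 = r then e k - σ else psi (e k) (r - ((j : ℕ) + 1))).det ≠ 0 := by
  intro hdet
  obtain ⟨x, hx0, hx⟩ := Matrix.exists_mulVec_eq_zero_iff.2 hdet
  apply hx0
  have hdeg : (SGC_q x σ).natDegree < r := by
    by_contra hcon
    rw [not_lt] at hcon
    have hne : SGC_q x σ ≠ 0 := by
      intro h0
      rw [h0, natDegree_zero] at hcon
      omega
    have h1 : (SGC_q x σ).coeff (SGC_q x σ).natDegree = 0 := by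
      rw [SGC_q_coeff]
      apply Finset.sum_eq_zero
      intro j _
      have hj := j.2
      rw [if_neg (c := (SGC_q x σ).natDegree = 1) (by omega), if_neg (c := (SGC_q x σ).natDegree = 0) (by omega),
        if_neg (c := (SGC_q x σ).natDegree = 0) (by omega), if_neg (c := (SGC_q x σ).natDegree = r - ((j : ℕ) + 1)) (by omega)]
      split_ifs <;> simp
    exact hne (leadingCoeff_eq_zero.1 h1)
  have hzero : SGC_q x σ = 0 := by
    apply eq_zero_of_natDegree_lt_card_of_eval_eq_zero (SGC_q x σ) he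
    · intro k
      rw [SGC_q_eval]
      have h1 := congrFun hx k
      rw [Pi.zero_apply] at h1
      rw [← h1]
      show _ = ∑ j, (Matrix.of fun k j : Fin r => if (j : ℕ) + 1 = r then e k - σ else psi (e k) (r - ((j : ℕ) + 1))) k j * x j
      apply Finset.sum_congr rfl
      intro j _
      rw [Matrix.of_apply, mul_comm]
    · rw [Fintype.card_fin]
      exact hdeg
  have hc : ∀ n, ∑ j : Fin r, x j * (if (j : ℕ) + 1 = r then (if n = 1 then 1 else if n = 0 then -σ else 0)
      else if (j : ℕ) + 2 = r then (if n = 0 then 1 else 0) else if n = r - ((j : ℕ) + 1) then 1 else 0) = 0 := by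
    intro n
    rw [← SGC_q_coeff, hzero, coeff_zero]
  -- the coefficient of `X`
  have hlast : x ⟨r - 1, by omega⟩ = 0 := by
    have h1 := hc 1
    rw [Finset.sum_eq_single (⟨r - 1, by omega⟩ : Fin r)] at h1
    · rw [if_pos (by show r - 1 + 1 = r; omega), if_pos rfl, mul_one] at h1
      exact h1
    · intro j _ hj
      have h2 : (j : ℕ) ≠ r - 1 := fun h => hj (Fin.ext h)
      have hj2 := j.2
      rw [if_neg (by omega)]
      by_cases h3 : (j : ℕ) + 2 = r
      · rw [if_pos h3, if_neg (by norm_num), mul_zero]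
      · rw [if_neg h3, if_neg (by omega), mul_zero]
    · intro h
      exact absurd (mem_univ _) h
  funext j
  rw [Pi.zero_apply]
  have hj := j.2
  by_cases h1 : (j : ℕ) + 1 = r
  · rw [← hlast]
    congr 1
    apply Fin.ext
    show (j : ℕ) = r - 1
    omega
  · by_cases h2 : (j : ℕ) + 2 = r
    · have h3 := hc 0
      rw [Finset.sum_eq_single j] at h3
      · rw [if_neg h1, if_pos h2, if_pos rfl, mul_one] at h3
        exact h3
      · intro i _ hi
        have hi' : (i : ℕ) ≠ j := fun h => hi (Fin.ext h)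
        have hi2 := i.2
        by_cases h4 : (i : ℕ) + 1 = r
        · have h5 : x i = 0 := by
            rw [← hlast]
            congr 1
            apply Fin.ext
            show (i : ℕ) = r - 1
            omega
          rw [h5, zero_mul]
        · rw [if_neg h4, if_neg (by omega), if_neg (by omega), mul_zero]
      · intro h
        exact absurd (mem_univ _) h
    · have h3 := hc (r - ((j : ℕ) + 1))
      rw [Finset.sum_eq_single j] at h3
      · rw [if_neg h1, if_neg h2, if_pos rfl, mul_one] at h3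
        exact h3
      · intro i _ hi
        have hi' : (i : ℕ) ≠ j := fun h => hi (Fin.ext h)
        have hi2 := i.2
        by_cases h4 : (i : ℕ) + 1 = r
        · rw [if_pos h4, if_neg (by omega), if_neg (by omega), mul_zero]
        · rw [if_neg h4]
          by_cases h5 : (i : ℕ) + 2 = r
          · rw [if_pos h5, if_neg (by omega), mul_zero]
          · rw [if_neg h5, if_neg (by omega), mul_zero]
      · intro h
        exact absurd (mem_univ _) h

/-- the coefficients of the functions in the expansion of a monic polynomial -/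
theorem SGC_id {r : ℕ} (hr : 2 ≤ r) (e : Fin r → ℝ) (σ : ℝ) : ∃ g : Fin r → ℝ, ∀ s : ℝ,
    psi s r + ∑ j : Fin r, g j * (if (j : ℕ) + 1 = r then s - σ else psi s (r - ((j : ℕ) + 1))) =
      ∏ k, (s - e k) := by
  obtain ⟨f, hf⟩ : ∃ f : ℝ[X], f = ∏ k, (X - C (e k)) := ⟨_, rfl⟩
  have hmon : f.Monic := by
    rw [hf]
    exact monic_prod_of_monic _ _ fun i _ => monic_X_sub_C (e i)
  have hdeg : f.natDegree = r := by
    rw [hf, natDegree_prod_of_monic _ _ fun i _ => monic_X_sub_C (e i)]
    simp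
  obtain ⟨g, hg⟩ : ∃ g : Fin r → ℝ, g = fun j : Fin r => if (j : ℕ) + 1 = r then f.coeff 1 else
    if (j : ℕ) + 2 = r then f.coeff 0 + σ * f.coeff 1 else f.coeff (r - ((j : ℕ) + 1)) := ⟨_, rfl⟩
  have hpoly : X ^ r + SGC_q g σ = f := by
    ext n
    rw [coeff_add, SGC_q_coeff, coeff_X_pow]
    rcases lt_trichotomy n r with h | h | h
    · rw [if_neg (by omega), zero_add]
      by_cases hn0 : n = 0
      · subst hn0
        have hne : (⟨r - 1, by omega⟩ : Fin r) ≠ ⟨r - 2, by omega⟩ := by
          intro h1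
          have := congrArg Fin.val h1
          simp at this
          omega
        rw [← Finset.sum_subset (Finset.subset_univ {(⟨r - 1, by omega⟩ : Fin r), ⟨r - 2, by omega⟩}), Finset.sum_pair hne]
        · rw [hg]
          simp only [if_pos (show r - 1 + 1 = r by omega), if_neg (show ¬ (r - 2 + 1 = r) by omega),
            if_pos (show r - 2 + 2 = r by omega), if_true, if_neg (show ¬ (0 = 1) by norm_num)]
          ring
        · intro j _ hj
          simp only [Finset.mem_insert, Finset.mem_singleton, not_or] at hj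
          have hj2 := j.2
          have h1 : (j : ℕ) ≠ r - 1 := fun h => hj.1 (Fin.ext h)
          have h2 : (j : ℕ) ≠ r - 2 := fun h => hj.2 (Fin.ext h)
          rw [if_neg (by omega), if_neg (by omega), if_neg (by omega), mul_zero]
      · by_cases hn1 : n = 1
        · subst hn1
          rw [Finset.sum_eq_single (⟨r - 1, by omega⟩ : Fin r)]
          · rw [hg]
            simp only [if_pos (show r - 1 + 1 = r by omega), if_true, mul_one]
          · intro j _ hj
            have h1 : (j : ℕ) ≠ r - 1 := fun h => hj (Fin.ext h)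
            have hj2 := j.2
            rw [if_neg (by omega)]
            by_cases h3 : (j : ℕ) + 2 = r
            · rw [if_pos h3, if_neg (by norm_num), mul_zero]
            · rw [if_neg h3, if_neg (by omega), mul_zero]
          · intro h
            exact absurd (mem_univ _) h
        · rw [Finset.sum_eq_single (⟨r - 1 - n, by omega⟩ : Fin r)]
          · rw [hg]
            simp only
            rw [if_neg (by omega), if_neg (by omega), if_neg (by omega), if_neg (by omega), if_pos (by omega), mul_one]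
            congr 1
            omega
          · intro j _ hj
            have h1 : (j : ℕ) ≠ r - 1 - n := fun h => hj (Fin.ext h)
            have hj2 := j.2
            by_cases h2 : (j : ℕ) + 1 = r
            · rw [if_pos h2, if_neg hn1, if_neg hn0, mul_zero]
            · rw [if_neg h2]
              by_cases h3 : (j : ℕ) + 2 = r
              · rw [if_pos h3, if_neg hn0, mul_zero]
              · rw [if_neg h3, if_neg (by omega), mul_zero]
          · intro h
            exact absurd (mem_univ _) h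
    · subst h
      rw [if_pos rfl]
      have h1 : f.coeff n = 1 := by
        have h2 := hmon.coeff_natDegree
        rwa [hdeg] at h2
      rw [h1, Finset.sum_eq_zero, add_zero]
      intro j _
      have hj2 := j.2
      by_cases h2 : (j : ℕ) + 1 = n
      · rw [if_pos h2, if_neg (by omega), if_neg (by omega), mul_zero]
      · rw [if_neg h2]
        by_cases h3 : (j : ℕ) + 2 = n
        · rw [if_pos h3, if_neg (by omega), mul_zero]
        · rw [if_neg h3, if_neg (by omega), mul_zero]
    · rw [if_neg (by omega), zero_add, coeff_eq_zero_of_natDegree_lt (by omega)]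
      apply Finset.sum_eq_zero
      intro j _
      have hj2 := j.2
      by_cases h2 : (j : ℕ) + 1 = r
      · rw [if_pos h2, if_neg (by omega), if_neg (by omega), mul_zero]
      · rw [if_neg h2]
        by_cases h3 : (j : ℕ) + 2 = r
        · rw [if_pos h3, if_neg (by omega), mul_zero]
        · rw [if_neg h3, if_neg (by omega), mul_zero]
  refine ⟨g, ?_⟩
  intro s
  rw [← SGC_q_eval]
  have h1 : psi s r = (X ^ r : ℝ[X]).eval s := by
    unfold psi
    rw [if_neg (by omega), if_neg (by omega)]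
    simp
  rw [h1, ← eval_add, hpoly, hf, eval_prod]
  simp

theorem gam {T : ℕ} (K : Finset (Fin T)) {r : ℕ} (hr : 2 ≤ r) (hK : K.card = r) (t : Fin T → ℝ)
    (ht : Function.Injective t) (σ : ℝ) (M : ℕ → ℝ → ℝ → ℝ) (hc : ∀ j s, Continuous fun ζ => M j s ζ)
    (h1 : ∀ j, j < r → ∀ s, M j s 0 = psi s (r - j)) (h2 : ∀ s, M r s 0 = s - σ) :
    ∃ γ : ℝ → ℕ → ℝ, (∀ ζ, γ ζ 0 = 1) ∧ (∀ j, ContinuousAt (fun ζ => γ ζ j) 0) ∧
      (∀ᶠ ζ in 𝓝 (0 : ℝ), ∀ k ∈ K, ∑ j ∈ range (r + 1), γ ζ j * M j (t k) ζ = 0) ∧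
      ∀ s, ∑ j ∈ range (r + 1), γ 0 j * M j s 0 = ∏ k ∈ K, (s - t k) := by
  let eK := K.equivFinOfCardEq hK
  let e : Fin r → ℝ := fun k => t (eK.symm k : Fin T)
  have he : Function.Injective e := fun i j h => eK.symm.injective (Subtype.ext (ht h))
  have hprod : ∀ s : ℝ, ∏ k, (s - e k) = ∏ k ∈ K, (s - t k) := by
    intro s
    rw [← Finset.prod_coe_sort K, ← Equiv.prod_comp eK.symm]
  obtain ⟨g, hg⟩ := SGC_id hr e σ
  have hM : ∀ (j : Fin r) (s : ℝ), M ((j : ℕ) + 1) s 0 = if (j : ℕ) + 1 = r then s - σ else psi s (r - ((j : ℕ) + 1)) := by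
    intro j s
    have hj := j.2
    split_ifs with h3
    · rw [h3, h2]
    · rw [h1 _ (by omega)]
  obtain ⟨γ, hγ1, hγ2, hγ3⟩ := solve_near (fun ζ => Matrix.of fun k j : Fin r => M ((j : ℕ) + 1) (e k) ζ)
    (fun ζ k => -M 0 (e k) ζ)
    (by
      apply Continuous.continuousAt
      exact continuous_matrix fun k j => hc _ _)
    (by
      apply Continuous.continuousAt
      exact continuous_pi fun k => (hc _ _).neg)
    g
    (by
      funext k
      have h3 := hg (e k)
      rw [Finset.prod_eq_zero (mem_univ k) (sub_self _)] at h3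
      show ∑ j : Fin r, M ((j : ℕ) + 1) (e k) 0 * g j = -M 0 (e k) 0
      rw [h1 0 (by omega), Nat.sub_zero]
      have h4 : ∑ j : Fin r, M ((j : ℕ) + 1) (e k) 0 * g j =
          ∑ j : Fin r, g j * (if (j : ℕ) + 1 = r then e k - σ else psi (e k) (r - ((j : ℕ) + 1))) := by
        apply Finset.sum_congr rfl
        intro j _
        rw [hM, mul_comm]
      rw [h4]
      linarith)
    (by
      have h3 := SGC_det hr e he σ
      have h4 : (Matrix.of fun k j : Fin r => M ((j : ℕ) + 1) (e k) 0) =
          Matrix.of fun k j : Fin r => if (j : ℕ) + 1 = r then e k - σ else psi (e k) (r - ((j : ℕ) + 1)) := by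
        ext k j
        rw [Matrix.of_apply, Matrix.of_apply, hM]
      rw [h4]
      exact h3)
  have hsum : ∀ ζ s, ∑ j ∈ range (r + 1), (if j = 0 then 1 else if h : j - 1 < r then γ ζ ⟨j - 1, h⟩ else 0) * M j s ζ =
      M 0 s ζ + ∑ j : Fin r, γ ζ j * M ((j : ℕ) + 1) s ζ := by
    intro ζ s
    rw [Finset.sum_range_succ', if_pos rfl, one_mul, add_comm]
    congr 1
    rw [← Fin.sum_univ_eq_sum_range (fun j => (if j + 1 = 0 then 1 else if h : j + 1 - 1 < r then γ ζ ⟨j + 1 - 1, h⟩ else 0) * M (j + 1) s ζ) r]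
    apply Finset.sum_congr rfl
    intro j _
    rw [if_neg (by omega), dif_pos (by omega : (j : ℕ) + 1 - 1 < r)]
    congr 1
  refine ⟨fun ζ j => if j = 0 then 1 else if h : j - 1 < r then γ ζ ⟨j - 1, h⟩ else 0, fun ζ => if_pos rfl, ?_, ?_, ?_⟩
  · intro j
    by_cases hj : j = 0
    · simp only [if_pos hj]
      exact continuousAt_const
    · by_cases h3 : j - 1 < r
      · simp only [if_neg hj, dif_pos h3]
        exact (continuous_apply _).continuousAt.comp hγ1
      · simp only [if_neg hj, dif_neg h3]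
        exact continuousAt_const
  · filter_upwards [hγ3] with ζ hζ k hk
    rw [hsum]
    have h3 := congrFun hζ (eK ⟨k, hk⟩)
    have h4 : e (eK ⟨k, hk⟩) = t k := by
      show t (eK.symm (eK ⟨k, hk⟩) : Fin T) = t k
      rw [Equiv.symm_apply_apply]
    have h5 : ∑ j : Fin r, M ((j : ℕ) + 1) (e (eK ⟨k, hk⟩)) ζ * γ ζ j = -M 0 (e (eK ⟨k, hk⟩)) ζ := h3
    rw [h4] at h5
    have h6 : ∑ j : Fin r, γ ζ j * M ((j : ℕ) + 1) (t k) ζ = ∑ j : Fin r, M ((j : ℕ) + 1) (t k) ζ * γ ζ j :=
      Finset.sum_congr rfl fun j _ => mul_comm _ _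
    rw [h6, h5, add_neg_cancel]
  · intro s
    rw [hsum, h1 0 (by omega), Nat.sub_zero, ← hprod, ← hg s, hγ2]
    congr 1
    apply Finset.sum_congr rfl
    intro j _
    rw [hM]

end Pool.Agent.RVG
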