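import Pool.Agent.MP_c130bd_co.RVG.SGM
import Pool.Agent.MP_c130bd_co.RVG.SGC

set_option autoImplicit false

namespace Pool.Agent.RVG

open Finset Polynomial Filter Topology

/-! ## [RVG-SGD] the normal vectors of the sets with two or more elements of the second part -/

theorem SGD_pow (n : ℕ) : ((-1 : ℝ) ^ n) * ((-1 : ℝ) ^ n) = 1 := by
  rw [← mul_pow]
  norm_num

theorem SGD_evR (p : ℝ → ℝ) (c : ℝ) (hc : c ≠ 0) (h : ContinuousAt p 0) (h0 : p 0 = c) :
    ∀ᶠ ζ in 𝓝 (0 : ℝ), 0 < c * p ζ := by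
  have h1 : ContinuousAt (fun ζ => c * p ζ) 0 := continuousAt_const.mul h
  have h2 : 0 < c * p 0 := by
    rw [h0]
    exact mul_self_pos.2 hc
  exact h1.eventually (lt_mem_nhds h2)

theorem sgn2 {b T : ℕ} (m : ℕ) (hm : 3 ≤ m) (a : Fin b → ℝ) (ha : Function.Injective a)
    (t : Fin T → ℝ) (ht : Function.Injective t)
    (X : Finset (Fin b ⊕ Fin T)) (hX : X.card + 1 = m) (hr : 2 ≤ X.toRight.card) :
    ∀ᶠ ζ in 𝓝[>] (0 : ℝ), ∃ y : Fin m → ℝ, (∀ j ∈ X, VV m a t ζ j ⬝ᵥ y = 0) ∧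
      ∀ j, j ∉ X → 0 < sg m a t X j * (VV m a t ζ j ⬝ᵥ y) := by
  have hcard : X.toLeft.card + X.toRight.card = X.card := Finset.card_toLeft_add_card_toRight
  obtain ⟨r, hrr⟩ : ∃ r, r = X.toRight.card := ⟨_, rfl⟩
  have hmg : m = X.toLeft.card + r + 1 := by omega
  obtain ⟨P, hP⟩ : ∃ P, P = PI a X.toLeft := ⟨_, rfl⟩
  have hPd : P.natDegree = X.toLeft.card := by rw [hP, PI_natDegree]
  obtain ⟨γ, hγ0, hγc, hγK, hγs⟩ := gam X.toRight (r := r) (by omega) hrr.symm t ht (∑ i ∈ X.toLeft, a i)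
    (fun j s ζ => MM m X.toLeft.card r P j s ζ) (fun j s => MM_cont _ _ _ _ _ _)
    (fun j hj s => MM_lt hmg P (by rw [hP]; exact PI_coeff a _) j hj s)
    (fun s => by rw [hP]; exact MM_eq a X.toLeft hmg rfl s)
  -- the values at the elements of the first part
  obtain ⟨Q, hQ⟩ : ∃ Q : ℝ → ℝ → ℝ, ∀ s ζ, Q s ζ = ∑ j ∈ range (r + 1), ζ ^ ((r - 1) - (r - j - 1)) * γ ζ j * s ^ j :=
    ⟨_, fun _ _ => rfl⟩
  have hQc : ∀ s, ContinuousAt (Q s) 0 := by
    intro s
    rw [show Q s = fun ζ => ∑ j ∈ range (r + 1), ζ ^ ((r - 1) - (r - j - 1)) * γ ζ j * s ^ j from funext (hQ s)]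
    apply tendsto_finsetSum
    intro j _
    exact (((continuous_pow _).continuousAt.mul (hγc j)).mul continuousAt_const)
  have hQ0 : ∀ s, Q s 0 = 1 := by
    intro s
    rw [hQ, Finset.sum_eq_single 0]
    · rw [hγ0]
      simp
    · intro j hj hj0
      rw [mem_range] at hj
      rw [zero_pow (by omega), zero_mul, zero_mul]
    · intro h
      exact absurd (mem_range.2 (by omega)) h
  obtain ⟨F, hF⟩ : ∃ F : ℝ → ℝ → ℝ, ∀ s ζ, F s ζ = ∑ j ∈ range (r + 1), γ ζ j * MM m X.toLeft.card r P j s ζ :=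
    ⟨_, fun _ _ => rfl⟩
  have hFc : ∀ s, ContinuousAt (F s) 0 := by
    intro s
    rw [show F s = fun ζ => ∑ j ∈ range (r + 1), γ ζ j * MM m X.toLeft.card r P j s ζ from funext (hF s)]
    apply tendsto_finsetSum
    intro j _
    exact (hγc j).mul (MM_cont _ _ _ _ _ _).continuousAt
  have hF0 : ∀ s, F s 0 = ∏ k ∈ X.toRight, (s - t k) := by
    intro s
    rw [hF]
    exact hγs s
  have hL1 : ∀ᶠ ζ in 𝓝 (0 : ℝ), ∀ i : Fin b, 0 < 1 * Q (a i) ζ := by
    rw [Filter.eventually_all]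
    intro i
    exact SGD_evR _ 1 one_ne_zero (hQc _) (hQ0 _)
  have hU1 : ∀ᶠ ζ in 𝓝 (0 : ℝ), ∀ l : Fin T, l ∉ X.toRight → 0 < (∏ k ∈ X.toRight, (t l - t k)) * F (t l) ζ := by
    rw [Filter.eventually_all]
    intro l
    by_cases hl : l ∈ X.toRight
    · exact Filter.Eventually.of_forall fun ζ h => absurd hl h
    · have h1 : (∏ k ∈ X.toRight, (t l - t k)) ≠ 0 := by
        rw [Finset.prod_ne_zero_iff]
        intro k hk
        apply sub_ne_zero.2
        intro h2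
        rw [ht h2] at hl
        exact hl hk
      filter_upwards [SGD_evR (F (t l)) _ h1 (hFc _) (hF0 _)] with ζ h2 _
      exact h2
  filter_upwards [hL1.filter_mono (nhdsWithin_le_nhds (s := Set.Ioi (0 : ℝ))),
    hU1.filter_mono (nhdsWithin_le_nhds (s := Set.Ioi (0 : ℝ))),
    hγK.filter_mono (nhdsWithin_le_nhds (s := Set.Ioi (0 : ℝ))), self_mem_nhdsWithin] with ζ hζL hζU hζK hζpos
  rw [Set.mem_Ioi] at hζpos
  obtain ⟨p, hp⟩ : ∃ p : ℝ[X], p = ∑ j ∈ range (r + 1), C (ζ ^ ((r - 1) - (r - j - 1)) * γ ζ j) * (P * Polynomial.X ^ j) := ⟨_, rfl⟩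
  have hdeg : p.natDegree < m := by
    have h1 : p.natDegree ≤ X.toLeft.card + r := by
      rw [hp]
      apply natDegree_sum_le_of_forall_le
      intro j hj
      rw [mem_range] at hj
      apply (natDegree_C_mul_le _ _).trans
      apply natDegree_mul_le.trans
      rw [hPd, natDegree_X_pow]
      omega
    omega
  have hev : ∀ s, p.eval s = (∏ i' ∈ X.toLeft, (s - a i')) * Q s ζ := by
    intro s
    rw [hp, hQ, eval_finsetSum, Finset.mul_sum]
    apply Finset.sum_congr rfl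
    intro j _
    rw [hP]
    simp only [eval_mul, eval_C, eval_pow, eval_X, PI_eval]
    ring
  have hPhi : ∀ s, Phi m s ζ p = ζ ^ (r - 1) * F s ζ := by
    intro s
    rw [hp, hF, Phi_sum, Finset.mul_sum]
    apply Finset.sum_congr rfl
    intro j hj
    rw [mem_range] at hj
    rw [Phi_smul, Phi_mul hmg P hPd.le j (by omega)]
    have h1 : ζ ^ (r - 1) = ζ ^ ((r - 1) - (r - j - 1)) * ζ ^ (r - j - 1) := by
      rw [← pow_add]
      congr 1
      omega
    rw [h1]
    ring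
  refine ⟨fun n => p.coeff n, ?_, ?_⟩
  · intro j hj
    rcases j with i | l
    · rw [dotL m a t ζ i _ hdeg, hev, Finset.prod_eq_zero (Finset.mem_toLeft.2 hj) (sub_self _), zero_mul, mul_zero]
    · have h1 := hζK l (Finset.mem_toRight.2 hj)
      rw [dotU, hPhi, hF, h1, mul_zero]
  · intro j hj
    rcases j with i | l
    · have hi : i ∉ X.toLeft := fun h => hj (Finset.mem_toLeft.1 h)
      rw [dotL m a t ζ i _ hdeg, hev]
      show 0 < sgB m a t X i * _
      unfold sgB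
      rw [if_neg (by omega), mul_one]
      have h1 : ∏ i' ∈ X.toLeft, (a i - a i') ≠ 0 := by
        rw [Finset.prod_ne_zero_iff]
        intro i' hi'
        apply sub_ne_zero.2
        intro h2
        rw [ha h2] at hi
        exact hi hi'
      have h2 : (-1 : ℝ) ^ ((i : ℕ) + (m - 1)) * (∏ i' ∈ X.toLeft, (a i - a i')) *
          ((-1) ^ ((i : ℕ) + (m - 1)) * ((∏ i' ∈ X.toLeft, (a i - a i')) * Q (a i) ζ)) =
          ((-1 : ℝ) ^ ((i : ℕ) + (m - 1)) * (-1) ^ ((i : ℕ) + (m - 1))) *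
            (((∏ i' ∈ X.toLeft, (a i - a i')) * (∏ i' ∈ X.toLeft, (a i - a i'))) * (1 * Q (a i) ζ)) := by ring
      rw [h2, SGD_pow, one_mul]
      exact mul_pos (mul_self_pos.2 h1) (hζL i)
    · have hl : l ∉ X.toRight := fun h => hj (Finset.mem_toRight.1 h)
      rw [dotU, hPhi]
      show 0 < sgU a t X l * _
      unfold sgU
      rw [if_neg (by
        intro h
        rw [h, card_empty] at hr
        omega)]
      have h3 := hζU l hl
      have h4 : 0 < ζ ^ (r - 1) := by positivity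
      have h5 : (∏ k ∈ X.toRight, (t l - t k)) * (ζ ^ (r - 1) * F (t l) ζ) =
          ζ ^ (r - 1) * ((∏ k ∈ X.toRight, (t l - t k)) * F (t l) ζ) := by ring
      rw [h5]
      exact mul_pos h4 h3

end Pool.Agent.RVG
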