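import Pool.Agent.MP_c130bd_co.RVG.GAL
import Pool.Agent.MP_c130bd_co.RVG.POS
import Pool.Agent.MP_c130bd_co.RVG.SGA
import Pool.Agent.MP_c130bd_co.RVG.SGD
import Pool.Agent.MP_c130bd_co.RVG.LVB

set_option autoImplicit false

namespace Pool.Agent.RVG

open Finset Pool.Agent.RVM Filter Topology

/-! ## [RVG-GEO] the point sets with the prescribed levels -/

theorem sgn_all {b T : ℕ} (m : ℕ) (hm : 3 ≤ m) (a : Fin b → ℝ) (ha : Function.Injective a)
    (t : Fin T → ℝ) (ht : Function.Injective t)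
    (hne : ∀ I : Finset (Fin b), I.card + 1 = m → ∀ k, ∑ i ∈ I, a i ≠ t k) :
    ∃ (ζ : ℝ) (Y : Finset (Fin b ⊕ Fin T) → Fin m → ℝ), ∀ X : Finset (Fin b ⊕ Fin T), X.card + 1 = m →
      (∀ j ∈ X, VV m a t ζ j ⬝ᵥ Y X = 0) ∧ ∀ j, j ∉ X → 0 < sg m a t X j * (VV m a t ζ j ⬝ᵥ Y X) := by
  have h : ∀ᶠ ζ in 𝓝[>] (0 : ℝ), ∀ X : Finset (Fin b ⊕ Fin T), X.card + 1 = m →
      ∃ y : Fin m → ℝ, (∀ j ∈ X, VV m a t ζ j ⬝ᵥ y = 0) ∧
        ∀ j, j ∉ X → 0 < sg m a t X j * (VV m a t ζ j ⬝ᵥ y) := by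
    rw [Filter.eventually_all]
    intro X
    by_cases hX : X.card + 1 = m
    · rcases Nat.lt_or_ge X.toRight.card 2 with h1 | h1
      · rcases Nat.eq_zero_or_pos X.toRight.card with h2 | h2
        · filter_upwards [sgn0 m hm a ha t hne X hX (Finset.card_eq_zero.1 h2)] with ζ hζ _
          exact hζ
        · filter_upwards [sgn1 m hm a ha t ht hne X hX (by omega)] with ζ hζ _
          exact hζ
      · filter_upwards [sgn2 m hm a ha t ht X hX h1] with ζ hζ _
        exact hζ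
    · exact Filter.Eventually.of_forall fun ζ h => absurd h hX
  obtain ⟨ζ, hζ⟩ := h.exists
  choose! Y hY using hζ
  exact ⟨ζ, Y, hY⟩

theorem GEO_cmp (T n y k : ℕ) (hk : k < T) (h : n ≠ y) : (T + 1) * n < (T + 1) * y + (T - 1 - k) ↔ n < y := by
  constructor
  · intro h1
    by_contra h2
    have h3 : y + 1 ≤ n := by omega
    have h4 := Nat.mul_le_mul_left (T + 1) h3
    have h5 : (T + 1) * (y + 1) = (T + 1) * y + (T + 1) := by ring
    omega
  · intro h1
    have h4 := Nat.mul_le_mul_left (T + 1) h1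
    have h5 : (T + 1) * n.succ = (T + 1) * n + (T + 1) := by rw [Nat.succ_eq_add_one]; ring
    omega

/-- The levels depend only on the comparisons. -/
theorem GEO_scale {b T : ℕ} (m β : ℕ) (hm : 3 ≤ m) (a : Fin b → ℕ) (x : Fin T → ℕ)
    (hne : ∀ I : Finset (Fin b), I.card + 1 = m → ∀ k, ∑ i ∈ I, a i ≠ x k)
    (X : Finset (Fin b ⊕ Fin T)) (hX : X.card + 1 = m) :
    lev β (fun i => (T + 1) * a i) (fun k => (T + 1) * x k + (T - 1 - k)) X = lev β a x X := by
  have hcard : X.toLeft.card + X.toRight.card = X.card := Finset.card_toLeft_add_card_toRight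
  unfold lev
  by_cases hr : X.toRight = ∅
  · rw [if_pos hr, if_pos hr]
    congr 2
    apply Finset.filter_congr
    intro k _
    rw [← Finset.mul_sum]
    apply GEO_cmp T _ _ _ k.2
    apply hne
    rw [hr, card_empty] at hcard
    omega
  · rw [if_neg hr, if_neg hr]
    by_cases hr1 : X.toRight.card = 1
    · rw [if_pos hr1, if_pos hr1]
      congr 2
      apply Finset.sum_congr rfl
      intro k _
      unfold dg
      congr 1
      apply Finset.filter_congr
      intro j _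
      apply and_congr_right
      intro hj
      rw [← Finset.mul_sum, ← Nat.mul_add]
      apply GEO_cmp T _ _ _ k.2
      rw [add_comm, ← sum_insert hj]
      apply hne
      rw [card_insert_of_notMem hj]
      omega
    · rw [if_neg hr1, if_neg hr1]

theorem geo {b T : ℕ} (m β d : ℕ) (hm : 3 ≤ m) (hd : 1 ≤ d) (hβ : 1 ≤ β) (hb : b + 1 = 2 * β + m)
    (hdT : d + 2 = 2 * β + T) (a : Fin b → ℕ) (ha : StrictMono a) (x : Fin T → ℕ) (hx : Antitone x)
    (hne : ∀ I : Finset (Fin b), I.card + 1 = m → ∀ k, ∑ i ∈ I, a i ≠ x k) :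
    ∃ S : Finset (E d), S.card = b + T ∧ GP S ∧ ∀ i, PP S i =
      (univ.filter fun X : Finset (Fin b ⊕ Fin T) => X.card + 1 = m ∧
        (lev β a x X = i ∨ lev β a x X + i = d + 2)).card := by
  obtain ⟨a', ha'⟩ : ∃ a' : Fin b → ℕ, a' = fun i => (T + 1) * a i := ⟨_, rfl⟩
  obtain ⟨x', hx'⟩ : ∃ x' : Fin T → ℕ, x' = fun k => (T + 1) * x k + (T - 1 - k) := ⟨_, rfl⟩
  have hmono : StrictMono a' := by
    intro i j hij
    rw [ha']
    exact Nat.mul_lt_mul_of_pos_left (ha hij) (Nat.succ_pos T)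
  have hanti : StrictAnti x' := by
    intro k l hkl
    rw [hx']
    have h1 := Nat.mul_le_mul_left (T + 1) (hx hkl.le)
    have h2 : (k : ℕ) < l := hkl
    have h3 := l.2
    show (T + 1) * x l + (T - 1 - l) < (T + 1) * x k + (T - 1 - k)
    omega
  have hne' : ∀ I : Finset (Fin b), I.card + 1 = m → ∀ k, ∑ i ∈ I, a' i ≠ x' k := by
    intro I hI k h
    rw [ha', hx', ← Finset.mul_sum] at h
    have h0 := hne I hI k
    have hk := k.2
    have h1 := GEO_cmp T _ _ _ hk h0
    rcases lt_or_gt_of_ne h0 with h2 | h2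
    · have := h1.2 h2
      have h6 : (T + 1) * ∑ i ∈ I, a i = (T + 1) * x k + (T - 1 - k) := h
      omega
    · have h4 := Nat.mul_le_mul_left (T + 1) h2
      have h5 : (T + 1) * (x k).succ = (T + 1) * x k + (T + 1) := by rw [Nat.succ_eq_add_one]; ring
      have h6 : (T + 1) * ∑ i ∈ I, a i = (T + 1) * x k + (T - 1 - k) := h
      omega
  obtain ⟨aR, haR⟩ : ∃ aR : Fin b → ℝ, aR = fun i => (a' i : ℝ) := ⟨_, rfl⟩
  obtain ⟨tR, htR⟩ : ∃ tR : Fin T → ℝ, tR = fun k => (x' k : ℝ) := ⟨_, rfl⟩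
  have haRm : StrictMono aR := by
    intro i j hij
    rw [haR]
    show (a' i : ℝ) < a' j
    exact_mod_cast hmono hij
  have htRi : Function.Injective tR := by
    intro k l h
    rw [htR] at h
    have h1 : (x' k : ℝ) = x' l := h
    exact hanti.injective (by exact_mod_cast h1)
  have hneR : ∀ I : Finset (Fin b), I.card + 1 = m → ∀ k, ∑ i ∈ I, aR i ≠ tR k := by
    intro I hI k h
    rw [haR, htR] at h
    have h1 : ((∑ i ∈ I, a' i : ℕ) : ℝ) = x' k := by push_cast; exact h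
    exact hne' I hI k (by exact_mod_cast h1)
  obtain ⟨ζ, Y, hY⟩ := sgn_all m hm aR haRm.injective tR htRi hneR
  obtain ⟨c, hc, hcV⟩ := pos_dep m (by omega) (by omega : m + 1 ≤ b) aR haRm tR ζ
  have hYiff : ∀ X : Finset (Fin b ⊕ Fin T), X.card + 1 = m → ∀ j, VV m aR tR ζ j ⬝ᵥ Y X = 0 ↔ j ∈ X := by
    intro X hX j
    constructor
    · intro h
      by_contra hj
      have h1 := (hY X hX).2 j hj
      rw [h, mul_zero] at h1
      exact lt_irrefl _ h1
    · exact (hY X hX).1 j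
  obtain ⟨S, hS1, hS2, hS3⟩ := gale (d := d) hd (by omega) (by rw [Fintype.card_sum, Fintype.card_fin, Fintype.card_fin]; omega)
    (VV m aR tR ζ) c hc hcV Y hYiff
  refine ⟨S, by omega, hS2, ?_⟩
  intro i
  rw [hS3 i]
  congr 1
  apply Finset.filter_congr
  intro X _
  apply and_congr_right
  intro hX
  have hlev : (univ.filter fun j => 0 < VV m aR tR ζ j ⬝ᵥ Y X).card = lev β a x X := by
    rw [← GEO_scale m β hm a x hne X hX, ← ha', ← hx', ← lev_card m β hm hb a' hmono x' hanti hne' X hX, ← haR, ← htR]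
    congr 1
    apply Finset.filter_congr
    intro j _
    constructor
    · intro h
      have hj : j ∉ X := by
        intro hj
        rw [(hY X hX).1 j hj] at h
        exact lt_irrefl _ h
      exact ⟨hj, pos_of_mul_pos_left ((hY X hX).2 j hj) h.le⟩
    · rintro ⟨hj, h⟩
      exact pos_of_mul_pos_right ((hY X hX).2 j hj) h.le
  rw [hlev]

end Pool.Agent.RVG
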