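import Pool.Agent.MP_c130bd_co.RVG.Defs

set_option autoImplicit false

namespace Pool.Agent.RVG

open Finset

/-! ## [RVG-LVA] counting by ranks -/

/-- The rank `i ↦ #{j ∈ S | j < i}` is a bijection of `S` to `range S.card`. -/
theorem rank_card {b : ℕ} (S : Finset (Fin b)) (p : ℕ → Prop) [DecidablePred p] :
    (S.filter fun i => p (S.filter (· < i)).card).card = ((range S.card).filter p).card := by
  have hinj : Set.InjOn (fun i => (S.filter (· < i)).card) (S : Set (Fin b)) := by
    have key : ∀ i ∈ S, ∀ j, i < j → (S.filter (· < i)).card < (S.filter (· < j)).card := by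
      intro i hi j hij
      apply Finset.card_lt_card
      rw [Finset.ssubset_iff_of_subset]
      · exact ⟨i, by simp [hi, hij], by simp⟩
      · intro k hk
        rw [mem_filter] at hk ⊢
        exact ⟨hk.1, hk.2.trans hij⟩
    intro i hi j hj h
    rcases lt_trichotomy i j with h1 | h1 | h1
    · exact absurd h (key i hi j h1).ne
    · exact h1
    · exact absurd h (key j hj i h1).ne'
  have himg : S.image (fun i => (S.filter (· < i)).card) = range S.card := by
    apply Finset.eq_of_subset_of_card_le
    · intro n hn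
      obtain ⟨i, hi, rfl⟩ := Finset.mem_image.1 hn
      rw [mem_range]
      apply Finset.card_lt_card
      rw [Finset.ssubset_iff_of_subset (filter_subset _ _)]
      exact ⟨i, hi, by simp⟩
    · rw [Finset.card_image_of_injOn hinj, card_range]
  rw [← himg, Finset.filter_image, Finset.card_image_of_injOn]
  exact hinj.mono (by
    intro i hi
    exact (mem_filter.1 hi).1)

theorem LVA_par (n c : ℕ) : ((range (2 * n + c)).filter fun q => Even (q + c)).card = n + c / 2 := by
  induction n with
  | zero =>
    rw [Nat.mul_zero, Nat.zero_add, Nat.zero_add]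
    have h : ∀ c e : ℕ, ((range c).filter fun q => Even (q + e)).card = if Even e then (c + 1) / 2 else c / 2 := by
      intro c e
      induction c with
      | zero => simp
      | succ c ih =>
        rw [range_add_one, filter_insert]
        by_cases h1 : Even (c + e)
        · rw [if_pos h1, card_insert_of_notMem (by simp), ih]
          by_cases h2 : Even e
          · rw [if_pos h2, if_pos h2]
            have h3 : Even c := (Nat.even_add.1 h1).2 h2
            obtain ⟨k, hk⟩ := h3
            omega
          · rw [if_neg h2, if_neg h2]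
            have h3 : ¬ Even c := fun h => h2 ((Nat.even_add.1 h1).1 h)
            rw [Nat.not_even_iff_odd] at h3
            obtain ⟨k, hk⟩ := h3
            omega
        · rw [if_neg h1, ih]
          by_cases h2 : Even e
          · rw [if_pos h2, if_pos h2]
            have h3 : ¬ Even c := fun h => h1 (h.add h2)
            rw [Nat.not_even_iff_odd] at h3
            obtain ⟨k, hk⟩ := h3
            omega
          · rw [if_neg h2, if_neg h2]
            have h3 : Even c := by
              by_contra h3
              rw [Nat.not_even_iff_odd] at h3 h2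
              exact h1 (h3.add_odd h2)
            obtain ⟨k, hk⟩ := h3
            omega
    rw [h]
    split_ifs with h1
    · obtain ⟨k, hk⟩ := h1
      omega
    · rfl
  | succ n ih =>
    rw [show 2 * (n + 1) + c = 2 * n + c + 1 + 1 by ring, range_add_one, range_add_one, filter_insert, filter_insert]
    by_cases h1 : Even (2 * n + c + c)
    · have h2 : ¬ Even (2 * n + c + 1 + c) := by
        rw [show 2 * n + c + 1 + c = (2 * n + c + c) + 1 by ring, Nat.even_add_one]
        exact not_not.2 h1
      rw [if_neg h2, if_pos h1, card_insert_of_notMem (by simp), ih]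
      omega
    · exact absurd ⟨n + c, by ring⟩ h1

theorem LVA_odd (n D : ℕ) (hD : D ≤ 2 * n + 1) :
    ((range (2 * n + 1)).filter fun q => (Even q ∧ q < D) ∨ (Odd q ∧ D ≤ q)).card = n + D % 2 := by
  have h : ∀ N : ℕ, ((range N).filter fun q => (Even q ∧ q < D) ∨ (Odd q ∧ D ≤ q)).card =
      if N ≤ D then (N + 1) / 2 else (D + 1) / 2 + (N / 2 - D / 2) := by
    intro N
    induction N with
    | zero => simp
    | succ N ih =>
      rw [range_add_one, filter_insert]
      by_cases h1 : N < D
      · by_cases h2 : Even N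
        · rw [if_pos (Or.inl ⟨h2, h1⟩), card_insert_of_notMem (by simp), ih, if_pos h1.le, if_pos (Nat.succ_le_of_lt h1)]
          obtain ⟨k, hk⟩ := h2
          omega
        · rw [if_neg, ih, if_pos h1.le, if_pos (Nat.succ_le_of_lt h1)]
          · rw [Nat.not_even_iff_odd] at h2
            obtain ⟨k, hk⟩ := h2
            omega
          · rintro (⟨h3, _⟩ | ⟨_, h3⟩)
            · exact h2 h3
            · omega
      · by_cases h2 : Odd N
        · rw [if_pos (Or.inr ⟨h2, by omega⟩), card_insert_of_notMem (by simp), ih, if_neg (show ¬ (N + 1 ≤ D) by omega)]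
          obtain ⟨k, hk⟩ := h2
          split_ifs with h3 <;> omega
        · rw [if_neg, ih, if_neg (show ¬ (N + 1 ≤ D) by omega)]
          · rw [Nat.not_odd_iff_even] at h2
            obtain ⟨k, hk⟩ := h2
            split_ifs with h3 <;> omega
          · rintro (⟨_, h3⟩ | ⟨h3, _⟩)
            · omega
            · exact h2 h3
  rw [h]
  split_ifs with h1 <;> omega

theorem LVA_sign {b : ℕ} (a : Fin b → ℕ) (ha : StrictMono a) (I : Finset (Fin b)) (i : Fin b) (hi : i ∉ I) :
    0 < (-1 : ℝ) ^ (I.filter (i < ·)).card * ∏ i' ∈ I, ((a i : ℝ) - a i') := by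
  induction I using Finset.induction_on with
  | empty => simp
  | insert j I hj ih =>
    rw [mem_insert, not_or] at hi
    have h1 := ih hi.2
    rw [filter_insert, prod_insert hj]
    rcases lt_or_gt_of_ne hi.1 with h2 | h2
    · rw [if_pos h2, card_insert_of_notMem (by simp [hj]), pow_succ]
      have h3 : (a i : ℝ) < a j := by exact_mod_cast ha h2
      have h4 : (-1 : ℝ) ^ (I.filter (i < ·)).card * -1 * (((a i : ℝ) - a j) * ∏ i' ∈ I, ((a i : ℝ) - a i')) =
        ((a j : ℝ) - a i) * ((-1 : ℝ) ^ (I.filter (i < ·)).card * ∏ i' ∈ I, ((a i : ℝ) - a i')) := by ring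
      rw [h4]
      exact mul_pos (by linarith) h1
    · rw [if_neg (not_lt.2 h2.le)]
      have h3 : (a j : ℝ) < a i := by exact_mod_cast ha h2
      have h4 : (-1 : ℝ) ^ (I.filter (i < ·)).card * (((a i : ℝ) - a j) * ∏ i' ∈ I, ((a i : ℝ) - a i')) =
        ((a i : ℝ) - a j) * ((-1 : ℝ) ^ (I.filter (i < ·)).card * ∏ i' ∈ I, ((a i : ℝ) - a i')) := by ring
      rw [h4]
      exact mul_pos (by linarith) h1

theorem LVA_pos {b : ℕ} (I : Finset (Fin b)) (i : Fin b) (hi : i ∉ I) :
    (i : ℕ) + (I.filter (i < ·)).card = (Iᶜ.filter (· < i)).card + I.card := by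
  have h1 : (univ.filter (· < i)).card = (i : ℕ) := by
    have h2 : (univ.filter (· < i)) = Finset.Iio i := by
      ext j
      simp
    rw [h2, Fin.card_Iio]
  have h2 : (univ.filter (· < i)).card = (I.filter (· < i)).card + (Iᶜ.filter (· < i)).card := by
    rw [← Finset.card_union_of_disjoint]
    · congr 1
      ext j
      simp only [mem_filter, mem_univ, true_and, mem_union, mem_compl]
      tauto
    · rw [Finset.disjoint_left]
      intro j hj hj'
      rw [mem_filter] at hj hj'
      exact (mem_compl.1 hj'.1) hj.1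
  have h3 : I.card = (I.filter (· < i)).card + (I.filter (i < ·)).card := by
    rw [← Finset.card_union_of_disjoint]
    · congr 1
      ext j
      simp only [mem_filter, mem_union]
      constructor
      · intro hj
        rcases lt_trichotomy j i with h | h | h
        · exact Or.inl ⟨hj, h⟩
        · exact absurd (h ▸ hj) hi
        · exact Or.inr ⟨hj, h⟩
      · rintro (h | h)
        · exact h.1
        · exact h.1
    · rw [Finset.disjoint_left]
      intro j hj hj'
      rw [mem_filter] at hj hj'
      exact absurd (hj.2.trans hj'.2) (lt_irrefl _)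
  omega

/-- the sign of `(-1)^n * x` when that of `(-1)^k * x` is positive -/
theorem LVA_pm (n k : ℕ) (x : ℝ) (h : 0 < (-1 : ℝ) ^ k * x) : 0 < (-1 : ℝ) ^ n * x ↔ Even (n + k) := by
  have h1 : ((-1 : ℝ) ^ k) * ((-1 : ℝ) ^ k) = 1 := by
    rw [← mul_pow]
    norm_num
  have h2 : (-1 : ℝ) ^ n * x = (-1 : ℝ) ^ (n + k) * ((-1 : ℝ) ^ k * x) := by
    rw [pow_add]
    calc (-1 : ℝ) ^ n * x = (-1 : ℝ) ^ n * (((-1 : ℝ) ^ k) * ((-1 : ℝ) ^ k)) * x := by rw [h1, mul_one]
      _ = _ := by ring
  rw [h2]
  rcases Nat.even_or_odd (n + k) with h3 | h3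
  · rw [h3.neg_one_pow, one_mul]
    exact ⟨fun _ => h3, fun _ => h⟩
  · rw [h3.neg_one_pow]
    constructor
    · intro h4
      linarith
    · intro h4
      exact absurd h4 (Nat.not_even_iff_odd.2 h3)

theorem lvB0 {b T : ℕ} (m β : ℕ) (hb : b + 1 = 2 * β + m) (a : Fin b → ℕ) (ha : StrictMono a)
    (x : Fin T → ℕ) (X : Finset (Fin b ⊕ Fin T)) (hX : X.card + 1 = m) (hr : X.toRight.card ≠ 1) :
    (univ.filter fun i : Fin b => i ∉ X.toLeft ∧ 0 < sgB m (fun i => (a i : ℝ)) (fun k => (x k : ℝ)) X i).card =
      β + X.toRight.card / 2 := by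
  have hcard : X.toLeft.card + X.toRight.card = X.card := Finset.card_toLeft_add_card_toRight
  obtain ⟨r, hrr⟩ : ∃ r, r = X.toRight.card := ⟨_, rfl⟩
  have h1 : (univ.filter fun i : Fin b => i ∉ X.toLeft ∧ 0 < sgB m (fun i => (a i : ℝ)) (fun k => (x k : ℝ)) X i) =
      (X.toLeft)ᶜ.filter fun i => Even (((X.toLeft)ᶜ.filter (· < i)).card + r) := by
    ext i
    simp only [mem_filter, mem_univ, true_and, mem_compl]
    apply and_congr_right
    intro hi
    unfold sgB
    rw [if_neg hr, mul_one, LVA_pm _ _ _ (LVA_sign a ha _ i hi)]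
    have h2 := LVA_pos X.toLeft i hi
    have h3 : (i : ℕ) + (m - 1) + (X.toLeft.filter (i < ·)).card = ((X.toLeft)ᶜ.filter (· < i)).card + r + 2 * X.toLeft.card := by
      omega
    rw [h3, Nat.even_add]
    constructor
    · intro h4
      exact h4.2 (even_two_mul _)
    · intro h4
      exact ⟨fun _ => even_two_mul _, fun _ => h4⟩
  rw [h1, rank_card (X.toLeft)ᶜ (fun q => Even (q + r)), card_compl, Fintype.card_fin,
    show b - X.toLeft.card = 2 * β + r by omega, LVA_par, hrr]

end Pool.Agent.RVG
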