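import Pool.Agent.MP_c130bd_co.RVG.M3D

set_option autoImplicit false

namespace Pool.Agent.RVG

open Finset

/-! ## [RVG-M3A] the values of `CC 3` at the states -/

theorem a3_mono (M : ℕ) : StrictMono (a3 M) := by
  intro i j hij
  have hij' : (i : ℕ) < j := hij
  unfold a3
  rcases Nat.lt_or_ge ((i : ℕ) / 2) ((j : ℕ) / 2) with h | h
  · have h1 : 4 ^ ((i : ℕ) / 2 + 1) ≤ 4 ^ ((j : ℕ) / 2) := Nat.pow_le_pow_right (by norm_num) h
    have h2 : 1 ≤ 4 ^ ((i : ℕ) / 2) := Nat.one_le_pow _ _ (by norm_num)
    rw [pow_succ] at h1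
    omega
  · have h1 : (i : ℕ) / 2 = (j : ℕ) / 2 := by omega
    rw [h1]
    omega

theorem thr_ne (M q r w : ℕ) (h : St M q r w) (I : Finset (Fin (2 * M))) (hI : I.card + 1 = 3) :
    ∑ i ∈ I, a3 M i ≠ thr q r w := by
  have h1 : Even (∑ i ∈ I, a3 M i) := by
    apply Finset.even_sum
    intro i _
    unfold a3
    exact (even_two_mul _).add (even_two_mul _)
  have h2 : Odd (thr q r w) := by
    unfold thr
    have h3 : 1 ≤ 4 ^ q := Nat.one_le_pow _ _ (by norm_num)
    split_ifs
    · exact ⟨2 * 4 ^ q, by ring⟩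
    · exact ⟨4 ^ q + 4 ^ r + w - 1, by omega⟩
  intro h3
  rw [h3] at h1
  exact (Nat.not_even_iff_odd.2 h2) h1

theorem CC_three {b : ℕ} (a : Fin b → ℕ) (x : ℕ) :
    2 * CC 3 a x = ∑ i : Fin b, ((univ.filter fun j => j ≠ i ∧ a i + a j < x).card +
      2 * ((univ.filter fun j => j ≠ i ∧ a i + a j < x).card % 2)) := by
  obtain ⟨F, hF⟩ : ∃ F : Finset (Finset (Fin b)), F = univ.filter fun I : Finset (Fin b) => I.card + 1 = 3 ∧ ∑ i ∈ I, a i < x :=
    ⟨_, rfl⟩
  have h1 : 2 * F.card = ∑ i : Fin b, (univ.filter fun j => j ≠ i ∧ a i + a j < x).card := by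
    have e1 : 2 * F.card = ∑ I ∈ F, ∑ i : Fin b, if i ∈ I then 1 else 0 := by
      rw [mul_comm, ← smul_eq_mul, ← sum_const]
      apply sum_congr rfl
      intro I hI
      rw [hF, mem_filter] at hI
      rw [← card_filter, filter_univ_mem]
      omega
    rw [e1, sum_comm]
    apply sum_congr rfl
    intro i _
    rw [← card_filter]
    symm
    apply Finset.card_bij (fun j _ => ({i, j} : Finset (Fin b)))
    · intro j hj
      rw [mem_filter] at hj
      obtain ⟨_, h2, h3⟩ := hj
      rw [mem_filter, hF, mem_filter, card_pair h2.symm, sum_pair h2.symm]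
      exact ⟨⟨mem_univ _, rfl, h3⟩, mem_insert_self _ _⟩
    · intro j hj k hk h
      rw [mem_filter] at hj hk
      have h2 : j ∈ ({i, k} : Finset (Fin b)) := by
        rw [← h]
        exact mem_insert_of_mem (mem_singleton_self _)
      rw [mem_insert, mem_singleton] at h2
      rcases h2 with h2 | h2
      · exact absurd h2 hj.2.1
      · exact h2
    · intro I hI
      rw [mem_filter, hF, mem_filter] at hI
      obtain ⟨⟨_, h2, h3⟩, h4⟩ := hI
      have h5 : (I.erase i).card = 1 := by
        rw [card_erase_of_mem h4]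
        omega
      obtain ⟨j, hj⟩ := card_eq_one.1 h5
      have hIj : I = {i, j} := by
        rw [← insert_erase h4, hj]
      have hne : j ≠ i := by
        have : j ∈ I.erase i := by rw [hj]; exact mem_singleton_self _
        exact (mem_erase.1 this).1
      refine ⟨j, ?_, hIj.symm⟩
      rw [mem_filter]
      rw [hIj, sum_pair hne.symm] at h3
      exact ⟨mem_univ _, hne, h3⟩
  have hdg : ∀ i, dg a {i} x = (univ.filter fun j => j ≠ i ∧ a i + a j < x).card := by
    intro i
    unfold dg
    congr 1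
    ext j
    simp only [mem_filter, mem_univ, true_and, mem_singleton, sum_singleton]
  have h2 : (univ.filter fun J : Finset (Fin b) => J.card + 2 = 3 ∧ Odd (dg a J x)).card =
      ∑ i : Fin b, ((univ.filter fun j => j ≠ i ∧ a i + a j < x).card % 2) := by
    have e1 : ∑ i : Fin b, ((univ.filter fun j => j ≠ i ∧ a i + a j < x).card % 2) =
        (univ.filter fun i : Fin b => Odd (dg a {i} x)).card := by
      rw [card_filter]
      apply sum_congr rfl
      intro i _
      rw [← hdg]
      by_cases h3 : Odd (dg a {i} x)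
      · rw [if_pos h3, Nat.odd_iff.1 h3]
      · rw [if_neg h3, Nat.even_iff.1 (Nat.not_odd_iff_even.1 h3)]
    rw [e1]
    symm
    apply Finset.card_bij (fun i _ => ({i} : Finset (Fin b)))
    · intro i hi
      rw [mem_filter] at hi ⊢
      exact ⟨mem_univ _, by rw [card_singleton], hi.2⟩
    · intro i _ j _ h
      exact singleton_injective h
    · intro J hJ
      rw [mem_filter] at hJ
      obtain ⟨i, hi⟩ := card_eq_one.1 (by omega : J.card = 1)
      refine ⟨i, ?_, hi.symm⟩
      rw [mem_filter, ← hi]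
      exact ⟨mem_univ _, hJ.2.2⟩
  unfold CC
  rw [← hF, mul_add, h1, h2, sum_add_distrib, mul_sum]

end Pool.Agent.RVG
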