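import Pool.Agent.MP_c130bd_co.RVG.Defs

set_option autoImplicit false

namespace Pool.Agent.RVG

open Finset

/-! ## the numbers `a i` for `m = 3` (definitions) -/

/-- `a (2 q) = 2 * 4^q`, `a (2 q + 1) = 2 * 4^q + 2` -/
def a3 (M : ℕ) (i : Fin (2 * M)) : ℕ := 2 * 4 ^ ((i : ℕ) / 2) + 2 * ((i : ℕ) % 2)

/-- The states: `(q, r, w)` with `r < q < M`, `w < 3`, or `r = q < M`, `w = 0`, or `(M, 0, 0)`. -/
def St (M q r w : ℕ) : Prop := (r < q ∧ q < M ∧ w < 3) ∨ (r = q ∧ q < M ∧ w = 0) ∨ (q = M ∧ r = 0 ∧ w = 0)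

/-- the threshold of a state -/
def thr (q r w : ℕ) : ℕ := if r = q then 4 * 4 ^ q + 1 else 2 * 4 ^ q + 2 * 4 ^ r + 2 * w - 1

/-- the value of a state; `w (w + 1) / 2 = 0, 1, 3` -/
def vl (q r w : ℕ) : ℕ := q * (2 * q + 1) + 4 * r + w * (w + 1) / 2

end Pool.Agent.RVG
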