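import Pool.Agent.MP_c130bd_co.RVG.M3D

set_option autoImplicit false

namespace Pool.Agent.RVG

open Finset

/-! ## [RVG-M3E] the degrees at the states -/

theorem M3E_cnt {N : ℕ} (i : Fin N) (n : ℕ) (hn : n ≤ N) (P : Fin N → Prop) [DecidablePred P]
    (hP : ∀ j, P j ↔ (j : ℕ) < n) : (univ.filter fun j => j ≠ i ∧ P j).card = if (i : ℕ) < n then n - 1 else n := by
  have h1 : (univ.filter fun j : Fin N => (j : ℕ) < n).card = n := by
    have h2 : (univ.filter fun j : Fin N => (j : ℕ) < n).card = (range n).card := by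
      rw [← card_map Fin.valEmbedding]
      congr 1
      ext k
      simp only [mem_map, mem_filter, mem_univ, true_and, Fin.valEmbedding_apply, mem_range]
      constructor
      · rintro ⟨l, h3, rfl⟩
        exact h3
      · intro h3
        exact ⟨⟨k, by omega⟩, h3, rfl⟩
    rw [h2, card_range]
  have h2 : (univ.filter fun j => j ≠ i ∧ P j) = (univ.filter fun j : Fin N => (j : ℕ) < n).erase i := by
    ext j
    rw [mem_erase, mem_filter, mem_filter, hP]
    simp
  rw [h2]
  split_ifs with h3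
  · have hmem : i ∈ univ.filter fun j : Fin N => (j : ℕ) < n := by
      rw [mem_filter]
      exact ⟨mem_univ _, h3⟩
    rw [card_erase_of_mem hmem, h1]
  · rw [erase_eq_of_notMem, h1]
    rw [mem_filter]
    rintro ⟨_, h4⟩
    exact h3 h4

theorem p4_lt {x y : ℕ} (h : x < y) : 4 * 4 ^ x ≤ 4 ^ y := by
  have h1 : 4 ^ (x + 1) ≤ 4 ^ y := Nat.pow_le_pow_right (by norm_num) h
  rw [pow_succ] at h1
  omega

theorem p4_pos (x : ℕ) : 1 ≤ 4 ^ x := Nat.one_le_pow _ _ (by norm_num)

theorem deg_state (M q r w : ℕ) (hr : r < q) (hq : q < M) (hw : w < 3) (i : Fin (2 * M)) :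
    (univ.filter fun j => j ≠ i ∧ a3 M i + a3 M j < thr q r w).card =
      if (i : ℕ) / 2 < r then 2 * q + 1 else if (i : ℕ) / 2 = r then 2 * q - 1 + (w - (i : ℕ) % 2)
      else if (i : ℕ) / 2 < q then 2 * q - 1 else if (i : ℕ) / 2 = q then 2 * r + (w - (i : ℕ) % 2) else 0 := by
  have hthr : thr q r w = 2 * 4 ^ q + 2 * 4 ^ r + 2 * w - 1 := by
    unfold thr
    rw [if_neg (by omega)]
  rw [hthr]
  have hi := i.2
  have hQR := p4_lt hr
  have hR := p4_pos r
  have hP := p4_pos ((i : ℕ) / 2)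
  split_ifs with h1 h2 h3 h4
  · rw [M3E_cnt i (2 * q + 2) (by omega) (fun j => a3 M i + a3 M j < 2 * 4 ^ q + 2 * 4 ^ r + 2 * w - 1), if_pos (by omega)]
    · omega
    · intro j
      have hJ := p4_pos ((j : ℕ) / 2)
      have e1 := p4_lt h1
      unfold a3
      constructor
      · intro h
        by_contra h5
        have e2 : 4 * 4 ^ q ≤ 4 ^ ((j : ℕ) / 2) := p4_lt (by omega)
        omega
      · intro h
        have e2 : 4 ^ ((j : ℕ) / 2) ≤ 4 ^ q := Nat.pow_le_pow_right (by norm_num) (by omega)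
        omega
  · rw [M3E_cnt i (2 * q + (w - (i : ℕ) % 2)) (by omega) (fun j => a3 M i + a3 M j < 2 * 4 ^ q + 2 * 4 ^ r + 2 * w - 1), if_pos (by omega)]
    · omega
    · intro j
      have hJ := p4_pos ((j : ℕ) / 2)
      unfold a3
      rw [h2]
      rcases lt_trichotomy ((j : ℕ) / 2) q with h5 | h5 | h5
      · have e2 := p4_lt h5
        omega
      · rw [h5]
        omega
      · have e2 := p4_lt h5
        omega
  · rw [M3E_cnt i (2 * q) (by omega) (fun j => a3 M i + a3 M j < 2 * 4 ^ q + 2 * 4 ^ r + 2 * w - 1), if_pos (by omega)]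
    intro j
    have hJ := p4_pos ((j : ℕ) / 2)
    have e1 := p4_lt (show r < (i : ℕ) / 2 by omega)
    have e3 := p4_lt h3
    unfold a3
    constructor
    · intro h
      by_contra h5
      have e2 : 4 ^ q ≤ 4 ^ ((j : ℕ) / 2) := Nat.pow_le_pow_right (by norm_num) (by omega)
      omega
    · intro h
      have e2 := p4_lt (show (j : ℕ) / 2 < q by omega)
      omega
  · rw [M3E_cnt i (2 * r + (w - (i : ℕ) % 2)) (by omega) (fun j => a3 M i + a3 M j < 2 * 4 ^ q + 2 * 4 ^ r + 2 * w - 1), if_neg (by omega)]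
    intro j
    have hJ := p4_pos ((j : ℕ) / 2)
    unfold a3
    rw [h4]
    rcases lt_trichotomy ((j : ℕ) / 2) r with h5 | h5 | h5
    · have e2 := p4_lt h5
      omega
    · rw [h5]
      omega
    · have e2 := p4_lt h5
      omega
  · rw [M3E_cnt i 0 (by omega) (fun j => a3 M i + a3 M j < 2 * 4 ^ q + 2 * 4 ^ r + 2 * w - 1), if_neg (by omega)]
    intro j
    have e1 := p4_lt (show q < (i : ℕ) / 2 by omega)
    unfold a3
    omega

theorem deg_diag (M q : ℕ) (hq : q < M) (i : Fin (2 * M)) :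
    (univ.filter fun j => j ≠ i ∧ a3 M i + a3 M j < thr q q 0).card =
      if (i : ℕ) / 2 < q then 2 * q + 1 else if (i : ℕ) / 2 = q then 2 * q else 0 := by
  have hthr : thr q q 0 = 4 * 4 ^ q + 1 := by
    unfold thr
    rw [if_pos rfl]
  rw [hthr]
  have hi := i.2
  have hQ := p4_pos q
  have hP := p4_pos ((i : ℕ) / 2)
  split_ifs with h1 h2
  · rw [M3E_cnt i (2 * q + 2) (by omega) (fun j => a3 M i + a3 M j < 4 * 4 ^ q + 1), if_pos (by omega)]
    · omega
    · intro j
      have hJ := p4_pos ((j : ℕ) / 2)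
      have e1 := p4_lt h1
      unfold a3
      constructor
      · intro h
        by_contra h5
        have e2 : 4 * 4 ^ q ≤ 4 ^ ((j : ℕ) / 2) := p4_lt (by omega)
        omega
      · intro h
        have e2 : 4 ^ ((j : ℕ) / 2) ≤ 4 ^ q := Nat.pow_le_pow_right (by norm_num) (by omega)
        omega
  · -- `i` is an element of the pair `q`
    have hall : ∀ j : Fin (2 * M), (j ≠ i ∧ a3 M i + a3 M j < 4 * 4 ^ q + 1) ↔ (j : ℕ) < 2 * q := by
      intro j
      have hJ := p4_pos ((j : ℕ) / 2)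
      have hji : j ≠ i ↔ (j : ℕ) ≠ i := by
        rw [ne_eq, Fin.ext_iff]
      rw [hji]
      unfold a3
      rw [h2]
      rcases lt_trichotomy ((j : ℕ) / 2) q with h5 | h5 | h5
      · have e2 := p4_lt h5
        omega
      · rw [h5]
        omega
      · have e2 := p4_lt h5
        omega
    have h6 : (univ.filter fun j => j ≠ i ∧ a3 M i + a3 M j < 4 * 4 ^ q + 1) =
        univ.filter fun j : Fin (2 * M) => j ≠ i ∧ (j : ℕ) < 2 * q := by
      ext j
      simp only [mem_filter, mem_univ, true_and]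
      rw [hall j]
      constructor
      · intro h7
        refine ⟨?_, h7⟩
        intro h8
        rw [h8] at h7
        omega
      · rintro ⟨_, h7⟩
        exact h7
    rw [h6, M3E_cnt i (2 * q) (by omega) (fun j => (j : ℕ) < 2 * q) (fun _ => Iff.rfl), if_neg (by omega)]
  · rw [M3E_cnt i 0 (by omega) (fun j => a3 M i + a3 M j < 4 * 4 ^ q + 1), if_neg (by omega)]
    intro j
    have hJ := p4_pos ((j : ℕ) / 2)
    have e1 := p4_lt (show q < (i : ℕ) / 2 by omega)
    unfold a3
    omega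

theorem deg_top (M : ℕ) (hM : 1 ≤ M) (i : Fin (2 * M)) :
    (univ.filter fun j => j ≠ i ∧ a3 M i + a3 M j < thr M 0 0).card = 2 * M - 1 := by
  have hthr : thr M 0 0 = 2 * 4 ^ M + 1 := by
    unfold thr
    rw [if_neg (by omega)]
    simp
  rw [hthr]
  have hi := i.2
  rw [M3E_cnt i (2 * M) le_rfl (fun j => a3 M i + a3 M j < 2 * 4 ^ M + 1), if_pos hi]
  intro j
  have hj := j.2
  have e1 := p4_lt (show (i : ℕ) / 2 < M by omega)
  have e2 := p4_lt (show (j : ℕ) / 2 < M by omega)
  have e3 := p4_pos ((i : ℕ) / 2)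
  have e4 := p4_pos ((j : ℕ) / 2)
  unfold a3
  omega

end Pool.Agent.RVG
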