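import Pool.Agent.MP_c130bd_co.RVG.M3A
import Pool.Agent.MP_c130bd_co.RVG.M3E

set_option autoImplicit false

namespace Pool.Agent.RVG

open Finset

/-! ## [RVG-M3F] the values of `CC 3` at the states -/

theorem M3F_two (M : ℕ) (g : ℕ → ℕ) : ∑ i ∈ range (2 * M), g i = ∑ p ∈ range M, (g (2 * p) + g (2 * p + 1)) := by
  induction M with
  | zero => simp
  | succ M ih =>
    rw [show 2 * (M + 1) = 2 * M + 1 + 1 by ring, sum_range_succ, sum_range_succ, ih, sum_range_succ]
    ring

theorem M3F_const (n c : ℕ) (g : ℕ → ℕ) (h : ∀ x, x < n → g x = c) : ∑ x ∈ range n, g x = n * c := by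
  rw [Finset.sum_congr rfl (g := fun _ => c) (fun x hx => h x (mem_range.1 hx)), sum_const, card_range, smul_eq_mul]

theorem CC_state (M q r w : ℕ) (h : St M q r w) (hM : 1 ≤ M) : CC 3 (a3 M) (thr q r w) = vl q r w := by
  have h2 := CC_three (a3 M) (thr q r w)
  rcases h with ⟨hr, hq, hw⟩ | ⟨hr, hq, hw⟩ | ⟨hq, hr, hw⟩
  · obtain ⟨D, hD⟩ : ∃ D : ℕ → ℕ, D = fun i : ℕ => if i / 2 < r then 2 * q + 1 else if i / 2 = r then 2 * q - 1 + (w - i % 2)
      else if i / 2 < q then 2 * q - 1 else if i / 2 = q then 2 * r + (w - i % 2) else 0 := ⟨_, rfl⟩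
    have h3 : ∀ i : Fin (2 * M), (univ.filter fun j => j ≠ i ∧ a3 M i + a3 M j < thr q r w).card = D i := by
      intro i
      rw [deg_state M q r w hr hq hw i, hD]
    simp only [h3] at h2
    rw [Fin.sum_univ_eq_sum_range (fun i => D i + 2 * (D i % 2)) (2 * M), M3F_two] at h2
    obtain ⟨u, rfl⟩ : ∃ u, q = r + 1 + u := ⟨q - r - 1, by omega⟩
    obtain ⟨v, rfl⟩ : ∃ v, M = r + (1 + (u + (1 + v))) := ⟨M - (r + 1 + u) - 1, by omega⟩
    rw [sum_range_add, sum_range_add, sum_range_add, sum_range_add] at h2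
    have D0 : ∀ p, p < r → D (2 * p) = 2 * (r + 1 + u) + 1 ∧ D (2 * p + 1) = 2 * (r + 1 + u) + 1 := by
      intro p hp
      rw [hD]
      constructor
      · show (if 2 * p / 2 < r then _ else _) = _
        rw [if_pos (by omega)]
      · show (if (2 * p + 1) / 2 < r then _ else _) = _
        rw [if_pos (by omega)]
    have D1 : D (2 * r) = 2 * (r + 1 + u) - 1 + w ∧ D (2 * r + 1) = 2 * (r + 1 + u) - 1 + (w - 1) := by
      rw [hD]
      constructor
      · show (if 2 * r / 2 < r then _ else if 2 * r / 2 = r then _ else _) = _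
        rw [if_neg (by omega), if_pos (by omega), show 2 * r % 2 = 0 by omega, Nat.sub_zero]
      · show (if (2 * r + 1) / 2 < r then _ else if (2 * r + 1) / 2 = r then _ else _) = _
        rw [if_neg (by omega), if_pos (by omega), show (2 * r + 1) % 2 = 1 by omega]
    have D2 : ∀ p, r < p → p < r + 1 + u → D (2 * p) = 2 * (r + 1 + u) - 1 ∧ D (2 * p + 1) = 2 * (r + 1 + u) - 1 := by
      intro p hp hp'
      rw [hD]
      constructor
      · show (if 2 * p / 2 < r then _ else if 2 * p / 2 = r then _ else if 2 * p / 2 < r + 1 + u then _ else _) = _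
        rw [if_neg (by omega), if_neg (by omega), if_pos (by omega)]
      · show (if (2 * p + 1) / 2 < r then _ else if (2 * p + 1) / 2 = r then _ else if (2 * p + 1) / 2 < r + 1 + u then _ else _) = _
        rw [if_neg (by omega), if_neg (by omega), if_pos (by omega)]
    have D3 : D (2 * (r + 1 + u)) = 2 * r + w ∧ D (2 * (r + 1 + u) + 1) = 2 * r + (w - 1) := by
      rw [hD]
      constructor
      · show (if 2 * (r + 1 + u) / 2 < r then _ else if 2 * (r + 1 + u) / 2 = r then _ else if 2 * (r + 1 + u) / 2 < r + 1 + u then _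
          else if 2 * (r + 1 + u) / 2 = r + 1 + u then _ else _) = _
        rw [if_neg (by omega), if_neg (by omega), if_neg (by omega), if_pos (by omega), show 2 * (r + 1 + u) % 2 = 0 by omega, Nat.sub_zero]
      · show (if (2 * (r + 1 + u) + 1) / 2 < r then _ else if (2 * (r + 1 + u) + 1) / 2 = r then _ else if (2 * (r + 1 + u) + 1) / 2 < r + 1 + u then _
          else if (2 * (r + 1 + u) + 1) / 2 = r + 1 + u then _ else _) = _
        rw [if_neg (by omega), if_neg (by omega), if_neg (by omega), if_pos (by omega), show (2 * (r + 1 + u) + 1) % 2 = 1 by omega]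
    have D4 : ∀ p, r + 1 + u < p → D (2 * p) = 0 ∧ D (2 * p + 1) = 0 := by
      intro p hp
      rw [hD]
      constructor
      · show (if 2 * p / 2 < r then _ else if 2 * p / 2 = r then _ else if 2 * p / 2 < r + 1 + u then _
          else if 2 * p / 2 = r + 1 + u then _ else _) = _
        rw [if_neg (by omega), if_neg (by omega), if_neg (by omega), if_neg (by omega)]
      · show (if (2 * p + 1) / 2 < r then _ else if (2 * p + 1) / 2 = r then _ else if (2 * p + 1) / 2 < r + 1 + u then _
          else if (2 * p + 1) / 2 = r + 1 + u then _ else _) = _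
        rw [if_neg (by omega), if_neg (by omega), if_neg (by omega), if_neg (by omega)]
    clear hD
    rw [M3F_const r (4 * (r + 1 + u) + 6) _ (by
        intro p hp
        obtain ⟨e1, e2⟩ := D0 p hp
        rw [e1, e2]
        omega),
      M3F_const u (4 * (r + 1 + u) + 2) _ (by
        intro p hp
        obtain ⟨e1, e2⟩ := D2 (r + (1 + p)) (by omega) (by omega)
        rw [e1, e2]
        omega),
      M3F_const v 0 _ (by
        intro p hp
        obtain ⟨e1, e2⟩ := D4 (r + (1 + (u + (1 + p)))) (by omega)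
        rw [e1, e2])] at h2
    simp only [range_one, sum_singleton, add_zero] at h2
    rw [D1.1, D1.2, show r + (1 + u) = r + 1 + u by ring, D3.1, D3.2] at h2
    unfold vl
    have e3 : 2 * (r + 1 + u) - 1 = 2 * r + 2 * u + 1 := by omega
    rw [e3] at h2
    have e4 : (r + 1 + u) * (2 * (r + 1 + u) + 1) = r * (2 * (r + 1 + u) + 3) + (2 * (r + 1 + u) + 1) + u * (2 * (r + 1 + u) + 1) - 2 * r := by
      have : (r + 1 + u) * (2 * (r + 1 + u) + 1) + 2 * r = r * (2 * (r + 1 + u) + 3) + (2 * (r + 1 + u) + 1) + u * (2 * (r + 1 + u) + 1) := by ring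
      omega
    have e5 : r * (4 * (r + 1 + u) + 6) = 2 * (r * (2 * (r + 1 + u) + 3)) := by ring
    have e6 : u * (4 * (r + 1 + u) + 2) = 2 * (u * (2 * (r + 1 + u) + 1)) := by ring
    have e7 : 2 * r ≤ r * (2 * (r + 1 + u) + 3) := by nlinarith
    rw [e5, e6] at h2
    rw [e4]
    interval_cases w <;> omega
  · subst hw
    rw [hr] at h2 ⊢
    obtain ⟨D, hD⟩ : ∃ D : ℕ → ℕ, D = fun i : ℕ => if i / 2 < q then 2 * q + 1 else if i / 2 = q then 2 * q else 0 := ⟨_, rfl⟩
    have h3 : ∀ i : Fin (2 * M), (univ.filter fun j => j ≠ i ∧ a3 M i + a3 M j < thr q q 0).card = D i := by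
      intro i
      rw [deg_diag M q hq i, hD]
    simp only [h3] at h2
    rw [Fin.sum_univ_eq_sum_range (fun i => D i + 2 * (D i % 2)) (2 * M), M3F_two] at h2
    obtain ⟨v, rfl⟩ : ∃ v, M = q + (1 + v) := ⟨M - q - 1, by omega⟩
    rw [sum_range_add, sum_range_add] at h2
    have D0 : ∀ p, p < q → D (2 * p) = 2 * q + 1 ∧ D (2 * p + 1) = 2 * q + 1 := by
      intro p hp
      rw [hD]
      constructor
      · show (if 2 * p / 2 < q then _ else _) = _
        rw [if_pos (by omega)]
      · show (if (2 * p + 1) / 2 < q then _ else _) = _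
        rw [if_pos (by omega)]
    have D1 : D (2 * q) = 2 * q ∧ D (2 * q + 1) = 2 * q := by
      rw [hD]
      constructor
      · show (if 2 * q / 2 < q then _ else if 2 * q / 2 = q then _ else _) = _
        rw [if_neg (by omega), if_pos (by omega)]
      · show (if (2 * q + 1) / 2 < q then _ else if (2 * q + 1) / 2 = q then _ else _) = _
        rw [if_neg (by omega), if_pos (by omega)]
    have D4 : ∀ p, q < p → D (2 * p) = 0 ∧ D (2 * p + 1) = 0 := by
      intro p hp
      rw [hD]
      constructor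
      · show (if 2 * p / 2 < q then _ else if 2 * p / 2 = q then _ else _) = _
        rw [if_neg (by omega), if_neg (by omega)]
      · show (if (2 * p + 1) / 2 < q then _ else if (2 * p + 1) / 2 = q then _ else _) = _
        rw [if_neg (by omega), if_neg (by omega)]
    clear hD
    rw [M3F_const q (4 * q + 6) _ (by
        intro p hp
        obtain ⟨e1, e2⟩ := D0 p hp
        rw [e1, e2]
        omega),
      M3F_const v 0 _ (by
        intro p hp
        obtain ⟨e1, e2⟩ := D4 (q + (1 + p)) (by omega)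
        rw [e1, e2])] at h2
    simp only [range_one, sum_singleton, add_zero] at h2
    rw [D1.1, D1.2] at h2
    unfold vl
    have e5 : q * (4 * q + 6) = 2 * (q * (2 * q + 1)) + 4 * q := by ring
    rw [e5] at h2
    omega
  · subst hq hr hw
    simp only [deg_top q hM] at h2
    rw [sum_const, card_univ, Fintype.card_fin, smul_eq_mul] at h2
    unfold vl
    have e1 : (2 * q - 1) % 2 = 1 := by omega
    rw [e1] at h2
    have e2 : 2 * q * (2 * q - 1 + 2 * 1) = 2 * (q * (2 * q + 1)) := by
      rw [show 2 * q - 1 + 2 * 1 = 2 * q + 1 by omega]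
      ring
    rw [e2] at h2
    omega

end Pool.Agent.RVG
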