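import Pool.Agent.MP_c130bd_co.RVG.TAI

set_option autoImplicit false

namespace Pool.Agent.RVG

open Finset

/-! ## [RVG-TAJ] the tails, the identity -/

theorem UU_single {T : ℕ} (k : Fin T) : UU {k} = (k : ℕ) := by
  unfold UU
  have h : (univ.filter fun l : Fin T => l ∉ ({k} : Finset (Fin T)) ∧ Even (({k} : Finset (Fin T)).filter (· < l)).card) =
      Finset.Iio k := by
    ext l
    simp only [mem_filter, mem_univ, true_and, mem_singleton, mem_Iio]
    rw [filter_singleton]
    by_cases h1 : k < l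
    · rw [if_pos h1, card_singleton]
      constructor
      · rintro ⟨_, h2⟩
        exact absurd h2 (by norm_num)
      · intro h2
        exact absurd (h1.trans h2) (lt_irrefl _)
    · rw [if_neg h1, card_empty]
      constructor
      · rintro ⟨h2, _⟩
        exact lt_of_le_of_ne (not_lt.1 h1) h2
      · intro h2
        exact ⟨h2.ne, Even.zero⟩
  rw [h, Fin.card_Iio]

theorem TAJ_pairs {b T : ℕ} (P : Finset (Fin b) → Fin T → Prop) [∀ J k, Decidable (P J k)] :
    (univ.filter fun X : Finset (Fin b ⊕ Fin T) => X.toRight.card = 1 ∧ ∀ k ∈ X.toRight, P X.toLeft k).card =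
      ∑ J : Finset (Fin b), (univ.filter fun k => P J k).card := by
  have h1 : ∑ J : Finset (Fin b), (univ.filter fun k => P J k).card =
      (univ.filter fun p : Finset (Fin b) × Fin T => P p.1 p.2).card := by
    rw [card_filter, Fintype.sum_prod_type]
    apply sum_congr rfl
    intro J _
    rw [card_filter]
  rw [h1]
  symm
  apply Finset.card_bij (fun p _ => p.1.disjSum {p.2})
  · intro p hp
    rw [mem_filter] at hp ⊢
    refine ⟨mem_univ _, ?_⟩
    rw [toRight_disjSum, toLeft_disjSum]
    refine ⟨card_singleton _, ?_⟩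
    intro k hk
    rw [mem_singleton] at hk
    rw [hk]
    exact hp.2
  · intro p _ q _ h
    have h2 := congrArg toLeft h
    have h3 := congrArg toRight h
    rw [toLeft_disjSum, toLeft_disjSum] at h2
    rw [toRight_disjSum, toRight_disjSum, singleton_inj] at h3
    exact Prod.ext h2 h3
  · intro X hX
    rw [mem_filter] at hX
    obtain ⟨_, h2, h3⟩ := hX
    obtain ⟨k, hk⟩ := card_eq_one.1 h2
    refine ⟨(X.toLeft, k), ?_, ?_⟩
    · rw [mem_filter]
      exact ⟨mem_univ _, h3 k (by rw [hk]; exact mem_singleton_self k)⟩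
    · show X.toLeft.disjSum {k} = X
      rw [← hk]
      exact toLeft_disjSum_toRight

theorem TAI_one {b T : ℕ} (m β : ℕ) (a : Fin b → ℕ) (x : Fin T → ℕ)
    (j : ℕ) (hj : 1 ≤ j) (hjT : 2 * j ≤ T) :
    (univ.filter fun X : Finset (Fin b ⊕ Fin T) => X.card + 1 = m ∧ X.toRight.card = 1 ∧
      β + j ≤ lev β a x X ∧ lev β a x X + j ≤ β + T).card +
      (univ.filter fun J : Finset (Fin b) => J.card + 2 = m ∧ Odd (dg a J (x ⟨T - j, by omega⟩))).card =
      (univ.filter fun X : Finset (Fin b ⊕ Fin T) => X.card + 1 = m ∧ X.toRight.card = 1 ∧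
        j ≤ X.toRight.card / 2 + UU X.toRight ∧ X.toRight.card / 2 + UU X.toRight + j ≤ T).card +
      (univ.filter fun J : Finset (Fin b) => J.card + 2 = m ∧ Odd (dg a J (x ⟨j - 1, by omega⟩))).card := by
  have e1 : (univ.filter fun X : Finset (Fin b ⊕ Fin T) => X.card + 1 = m ∧ X.toRight.card = 1 ∧
      β + j ≤ lev β a x X ∧ lev β a x X + j ≤ β + T) =
      univ.filter fun X : Finset (Fin b ⊕ Fin T) => X.toRight.card = 1 ∧ ∀ k ∈ X.toRight,
        (X.toLeft.card + 2 = m ∧ j ≤ (k : ℕ) + dg a X.toLeft (x k) % 2 ∧ (k : ℕ) + dg a X.toLeft (x k) % 2 + j ≤ T) := by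
    ext X
    simp only [mem_filter, mem_univ, true_and]
    have hcard : X.toLeft.card + X.toRight.card = X.card := Finset.card_toLeft_add_card_toRight
    by_cases hr : X.toRight.card = 1
    · obtain ⟨k, hk⟩ := card_eq_one.1 hr
      have hne : X.toRight ≠ ∅ := by
        rw [hk]
        exact singleton_ne_empty k
      unfold lev
      rw [if_neg hne, if_pos hr, hk, sum_singleton, UU_single]
      simp only [card_singleton, true_and, mem_singleton, forall_eq]
      rw [hr] at hcard
      constructor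
      · rintro ⟨h1, h2, h3⟩
        exact ⟨by omega, by omega, by omega⟩
      · rintro ⟨h1, h2, h3⟩
        exact ⟨by omega, by omega, by omega⟩
    · constructor
      · rintro ⟨_, h5, _⟩
        exact absurd h5 hr
      · rintro ⟨h5, _⟩
        exact absurd h5 hr
  have e2 : (univ.filter fun X : Finset (Fin b ⊕ Fin T) => X.card + 1 = m ∧ X.toRight.card = 1 ∧
        j ≤ X.toRight.card / 2 + UU X.toRight ∧ X.toRight.card / 2 + UU X.toRight + j ≤ T) =
      univ.filter fun X : Finset (Fin b ⊕ Fin T) => X.toRight.card = 1 ∧ ∀ k ∈ X.toRight,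
        (X.toLeft.card + 2 = m ∧ j ≤ (k : ℕ) ∧ (k : ℕ) + j ≤ T) := by
    ext X
    simp only [mem_filter, mem_univ, true_and]
    have hcard : X.toLeft.card + X.toRight.card = X.card := Finset.card_toLeft_add_card_toRight
    by_cases hr : X.toRight.card = 1
    · obtain ⟨k, hk⟩ := card_eq_one.1 hr
      rw [hk, UU_single]
      simp only [card_singleton, true_and, mem_singleton, forall_eq]
      rw [hr] at hcard
      constructor
      · rintro ⟨h1, h2, h3⟩
        exact ⟨by omega, by omega, by omega⟩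
      · rintro ⟨h1, h2, h3⟩
        exact ⟨by omega, by omega, by omega⟩
    · constructor
      · rintro ⟨_, h5, _⟩
        exact absurd h5 hr
      · rintro ⟨h5, _⟩
        exact absurd h5 hr
  rw [e1, e2, TAJ_pairs (fun (J : Finset (Fin b)) (k : Fin T) => J.card + 2 = m ∧ j ≤ (k : ℕ) + dg a J (x k) % 2 ∧
      (k : ℕ) + dg a J (x k) % 2 + j ≤ T),
    TAJ_pairs (fun (J : Finset (Fin b)) (k : Fin T) => J.card + 2 = m ∧ j ≤ (k : ℕ) ∧ (k : ℕ) + j ≤ T)]
  have e3 : ∀ y, (univ.filter fun J : Finset (Fin b) => J.card + 2 = m ∧ Odd (dg a J y)).card =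
      ∑ J : Finset (Fin b), if J.card + 2 = m then dg a J y % 2 else 0 := by
    intro y
    rw [card_filter]
    apply sum_congr rfl
    intro J _
    by_cases h1 : J.card + 2 = m
    · rw [if_pos h1]
      by_cases h2 : Odd (dg a J y)
      · rw [if_pos ⟨h1, h2⟩, Nat.odd_iff.1 h2]
      · rw [if_neg (fun h => h2 h.2), Nat.even_iff.1 (Nat.not_odd_iff_even.1 h2)]
    · rw [if_neg h1, if_neg (fun h => h1 h.1)]
  rw [e3, e3, ← sum_add_distrib, ← sum_add_distrib]
  apply sum_congr rfl
  intro J _
  by_cases h1 : J.card + 2 = m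
  · simp only [h1, true_and, if_true]
    exact TAI_delta (fun k => dg a J (x k) % 2) (fun k => by
      have := Nat.mod_lt (dg a J (x k)) (by norm_num : 2 > 0)
      show dg a J (x k) % 2 ≤ 1
      omega) j hj hjT
  · simp only [h1, false_and, if_false, filter_false, card_empty]

theorem tail {b T : ℕ} (m β : ℕ) (a : Fin b → ℕ) (x : Fin T → ℕ) (hx : Antitone x)
    (j : ℕ) (hj : 1 ≤ j) (hjT : 2 * j ≤ T) :
    (univ.filter fun X : Finset (Fin b ⊕ Fin T) => X.card + 1 = m ∧
      β + j ≤ lev β a x X ∧ lev β a x X + j ≤ β + T).card + CC m a (x ⟨T - j, by omega⟩) =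
      bs m b T j + CC m a (x ⟨j - 1, by omega⟩) := by
  have h0 := TAI_zero m β a x hx j hj hjT
  have h1 := TAI_one m β a x j hj hjT
  -- three parts of a set
  have split : ∀ (P : Finset (Fin b ⊕ Fin T) → Prop) [DecidablePred P],
      (univ.filter P).card = (univ.filter fun X => X.toRight = ∅ ∧ P X).card +
        (univ.filter fun X => X.toRight.card = 1 ∧ P X).card + (univ.filter fun X => 2 ≤ X.toRight.card ∧ P X).card := by
    intro P _
    rw [← card_union_of_disjoint, ← card_union_of_disjoint]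
    · congr 1
      ext X
      simp only [mem_union, mem_filter, mem_univ, true_and]
      constructor
      · intro h
        rcases Nat.lt_or_ge X.toRight.card 2 with h2 | h2
        · rcases Nat.eq_zero_or_pos X.toRight.card with h3 | h3
          · exact Or.inl (Or.inl ⟨card_eq_zero.1 h3, h⟩)
          · exact Or.inl (Or.inr ⟨by omega, h⟩)
        · exact Or.inr ⟨h2, h⟩
      · rintro ((h | h) | h) <;> exact h.2
    · rw [disjoint_left]
      intro X hX hX'
      rw [mem_union, mem_filter, mem_filter] at hX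
      rw [mem_filter] at hX'
      rcases hX with hX | hX
      · rw [hX.2.1, card_empty] at hX'
        omega
      · omega
    · rw [disjoint_left]
      intro X hX hX'
      rw [mem_filter] at hX hX'
      rw [hX.2.1, card_empty] at hX'
      omega
  unfold bs CC
  rw [split (fun X => X.card + 1 = m ∧ β + j ≤ lev β a x X ∧ lev β a x X + j ≤ β + T),
    split (fun X => X.card + 1 = m ∧ X.toRight ≠ ∅ ∧
    j ≤ X.toRight.card / 2 + UU X.toRight ∧ X.toRight.card / 2 + UU X.toRight + j ≤ T)]
  have c0 : (univ.filter fun X : Finset (Fin b ⊕ Fin T) => X.toRight = ∅ ∧ X.card + 1 = m ∧ X.toRight ≠ ∅ ∧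
    j ≤ X.toRight.card / 2 + UU X.toRight ∧ X.toRight.card / 2 + UU X.toRight + j ≤ T).card = 0 := by
    rw [card_eq_zero, filter_eq_empty_iff]
    rintro X - ⟨h2, _, h3, _⟩
    exact h3 h2
  have c0' : (univ.filter fun X : Finset (Fin b ⊕ Fin T) => X.toRight = ∅ ∧ X.card + 1 = m ∧
      β + j ≤ lev β a x X ∧ lev β a x X + j ≤ β + T) = univ.filter fun X : Finset (Fin b ⊕ Fin T) => X.card + 1 = m ∧ X.toRight = ∅ ∧
      β + j ≤ lev β a x X ∧ lev β a x X + j ≤ β + T := by
    ext X
    simp only [mem_filter, mem_univ, true_and]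
    tauto
  have c1 : (univ.filter fun X : Finset (Fin b ⊕ Fin T) => X.toRight.card = 1 ∧ X.card + 1 = m ∧
      β + j ≤ lev β a x X ∧ lev β a x X + j ≤ β + T) = univ.filter fun X : Finset (Fin b ⊕ Fin T) => X.card + 1 = m ∧
      X.toRight.card = 1 ∧ β + j ≤ lev β a x X ∧ lev β a x X + j ≤ β + T := by
    ext X
    simp only [mem_filter, mem_univ, true_and]
    tauto
  have c1' : (univ.filter fun X : Finset (Fin b ⊕ Fin T) => X.toRight.card = 1 ∧ X.card + 1 = m ∧ X.toRight ≠ ∅ ∧
    j ≤ X.toRight.card / 2 + UU X.toRight ∧ X.toRight.card / 2 + UU X.toRight + j ≤ T) =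
      univ.filter fun X : Finset (Fin b ⊕ Fin T) => X.card + 1 = m ∧ X.toRight.card = 1 ∧
        j ≤ X.toRight.card / 2 + UU X.toRight ∧ X.toRight.card / 2 + UU X.toRight + j ≤ T := by
    ext X
    simp only [mem_filter, mem_univ, true_and]
    constructor
    · rintro ⟨h2, h3, _, h4⟩
      exact ⟨h3, h2, h4⟩
    · rintro ⟨h3, h2, h4⟩
      refine ⟨h2, h3, ?_, h4⟩
      intro h5
      rw [h5, card_empty] at h2
      omega
  have c2 : (univ.filter fun X : Finset (Fin b ⊕ Fin T) => 2 ≤ X.toRight.card ∧ X.card + 1 = m ∧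
      β + j ≤ lev β a x X ∧ lev β a x X + j ≤ β + T) =
      univ.filter fun X : Finset (Fin b ⊕ Fin T) => 2 ≤ X.toRight.card ∧ X.card + 1 = m ∧ X.toRight ≠ ∅ ∧
        j ≤ X.toRight.card / 2 + UU X.toRight ∧ X.toRight.card / 2 + UU X.toRight + j ≤ T := by
    ext X
    simp only [mem_filter, mem_univ, true_and]
    apply and_congr_right
    intro h2
    apply and_congr_right
    intro _
    have hne : X.toRight ≠ ∅ := by
      intro h5
      rw [h5, card_empty] at h2
      omega
    unfold lev
    rw [if_neg hne, if_neg (by omega)]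
    constructor
    · rintro ⟨h3, h4⟩
      exact ⟨hne, by omega, by omega⟩
    · rintro ⟨_, h3, h4⟩
      exact ⟨by omega, by omega⟩
  rw [c0, c0', c1, c1', c2]
  omega

end Pool.Agent.RVG
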