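import Pool.Agent.MP_c130bd_co.RVG.GEO
import Pool.Agent.MP_c130bd_co.RVG.TAJ
import Pool.Agent.MP_c130bd_co.RVM.Fin

set_option autoImplicit false

namespace Pool.Agent.RVG

open Finset Pool.Agent.RVM

/-! ## [RVG-PRM] primitive Radon vectors from the thresholds -/

theorem sum_levels {α : Type} [Fintype α] [DecidableEq α] (Q : α → Prop) [DecidablePred Q] (L : α → ℕ)
    (β T d : ℕ) (hdT : d + 2 = 2 * β + T) (j : ℕ) (hj : 2 * j ≤ T) :
    ∑ i ∈ Icc (β + j) (d / 2 + 1), (univ.filter fun X : α => Q X ∧ (L X = i ∨ L X + i = d + 2)).card =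
      (univ.filter fun X : α => Q X ∧ β + j ≤ L X ∧ L X + j ≤ β + T).card := by
  have hmap : ∀ X ∈ (univ.filter fun X : α => Q X ∧ β + j ≤ L X ∧ L X + j ≤ β + T),
      min (L X) (d + 2 - L X) ∈ Icc (β + j) (d / 2 + 1) := by
    intro X hX
    rw [mem_filter] at hX
    rw [mem_Icc]
    omega
  rw [Finset.card_eq_sum_card_fiberwise hmap]
  apply Finset.sum_congr rfl
  intro i hi
  rw [mem_Icc] at hi
  congr 1
  ext X
  simp only [mem_filter, mem_univ, true_and]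
  constructor
  · rintro ⟨h1, h2⟩
    refine ⟨⟨h1, ?_⟩, ?_⟩ <;> omega
  · rintro ⟨⟨h1, h2⟩, h3⟩
    refine ⟨h1, ?_⟩
    omega

/-- the tails of the primitive Radon vector -/
theorem tail_PP {b T : ℕ} (m β d : ℕ) (hdT : d + 2 = 2 * β + T) (a : Fin b → ℕ) (x : Fin T → ℕ) (hx : Antitone x)
    (S : Finset (E d)) (hP : ∀ i, PP S i =
      (univ.filter fun X : Finset (Fin b ⊕ Fin T) => X.card + 1 = m ∧
        (lev β a x X = i ∨ lev β a x X + i = d + 2)).card) (j : ℕ) (hj : 1 ≤ j) (hjT : 2 * j ≤ T) :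
    ∑ i ∈ Icc (β + j) (d / 2 + 1), PP S i + CC m a (x ⟨T - j, by omega⟩) =
      bs m b T j + CC m a (x ⟨j - 1, by omega⟩) := by
  rw [← tail m β a x hx j hj hjT, ← sum_levels (fun X : Finset (Fin b ⊕ Fin T) => X.card + 1 = m) (lev β a x) β T d hdT j hjT]
  simp only [hP]

theorem Icc_split (f : ℕ → ℕ) (p q : ℕ) (h : p ≤ q) : ∑ i ∈ Icc p q, f i = f p + ∑ i ∈ Icc (p + 1) q, f i := by
  rw [← Finset.insert_Icc_add_one_left_eq_Icc h, Finset.sum_insert]
  simp

theorem prim_of {b T : ℕ} (m β d : ℕ) (hm : 3 ≤ m) (hd : 1 ≤ d) (hβ : 1 ≤ β) (hb : b + 1 = 2 * β + m)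
    (hdT : d + 2 = 2 * β + T) (a : Fin b → ℕ) (ha : StrictMono a) (x : Fin T → ℕ) (hx : Antitone x)
    (hne : ∀ I : Finset (Fin b), I.card + 1 = m → ∀ k, ∑ i ∈ I, a i ≠ x k) (v : ℕ → ℕ)
    (h0 : ∀ i, 1 ≤ i → i < β → v i = 0) (hs : ∑ i ∈ Icc 1 (d / 2 + 1), v i = (b + T).choose (d + 2))
    (hv : ∀ j (hj : 1 ≤ j) (hjT : 2 * j ≤ T), ∑ i ∈ Icc (β + j) (d / 2 + 1), v i +
      CC m a (x ⟨T - j, by omega⟩) = bs m b T j + CC m a (x ⟨j - 1, by omega⟩)) :
    IsPrimVec d (b + T) v := by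
  obtain ⟨S, hSc, hS, hP⟩ := geo m β d hm hd hβ hb hdT a ha x hx hne
  refine ⟨S, hSc, hS, ?_⟩
  -- the zero block
  have hz : ∀ i, 1 ≤ i → i < β → PP S i = 0 := by
    intro i hi1 hi2
    rw [hP i, Finset.card_eq_zero, Finset.filter_eq_empty_iff]
    rintro X - ⟨-, h⟩
    have := lev_le β a x X
    omega
  have htot : ∑ i ∈ Icc 1 (d / 2 + 1), PP S i = ∑ i ∈ Icc 1 (d / 2 + 1), v i := by
    rw [pp_sum hd hS (by omega), hSc, hs]
  have htail : ∀ j, 1 ≤ j → 2 * j ≤ T → ∑ i ∈ Icc (β + j) (d / 2 + 1), PP S i =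
      ∑ i ∈ Icc (β + j) (d / 2 + 1), v i := by
    intro j hj hjT
    have h1 := tail_PP m β d hdT a x hx S hP j hj hjT
    have h2 := hv j hj hjT
    omega
  have hall : ∀ p, 1 ≤ p → p ≤ d / 2 + 2 → ∑ i ∈ Icc p (d / 2 + 1), PP S i = ∑ i ∈ Icc p (d / 2 + 1), v i := by
    have hlow : ∀ p, 1 ≤ p → p ≤ β → ∑ i ∈ Icc p (d / 2 + 1), PP S i = ∑ i ∈ Icc p (d / 2 + 1), v i := by
      intro p hp1 hp2
      induction p, hp1 using Nat.le_induction with
      | base => exact htot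
      | succ p hp ih =>
        have h1 := ih (by omega)
        rw [Icc_split _ p _ (by omega), Icc_split v p _ (by omega), hz p hp (by omega), h0 p hp (by omega)] at h1
        simpa using h1
    intro p hp1 hp2
    by_cases hpβ : p ≤ β
    · exact hlow p hp1 hpβ
    · by_cases hpt : p = d / 2 + 2
      · rw [hpt]
        simp
      · have := htail (p - β) (by omega) (by omega)
        rw [show β + (p - β) = p by omega] at this
        exact this
  intro i hi1 hi2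
  have h1 := hall i hi1 (by omega)
  have h2 := hall (i + 1) (by omega) (by omega)
  rw [Icc_split _ i _ hi2, Icc_split v i _ hi2, h2] at h1
  omega

end Pool.Agent.RVG
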