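import Pool.Agent.MP_c130bd_co.RVG.Defs

set_option autoImplicit false

namespace Pool.Agent.RVG

open Finset

/-! ## [RVG-RKA] the changes of `CC` -/

theorem RKA_even (n : ℕ) : Even ((-1 : ℤ) ^ n - 1) := by
  rcases Nat.even_or_odd n with h | h
  · rw [h.neg_one_pow, sub_self]
    exact Even.zero
  · rw [h.neg_one_pow]
    exact ⟨-1, by norm_num⟩

theorem RKA_abs {ι : Type} (s : Finset ι) (f : ι → ℕ) : |∑ i ∈ s, (-1 : ℤ) ^ f i| ≤ s.card := by
  refine (Finset.abs_sum_le_sum_abs _ _).trans (le_of_eq ?_)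
  have h : ∀ i ∈ s, |(-1 : ℤ) ^ f i| = 1 := fun i _ => by rw [abs_neg_one_pow]
  rw [Finset.sum_congr rfl h, Finset.sum_const, nsmul_eq_mul, mul_one]

/-- Proof. `cI I` is `1` plus a sum of `I.card` numbers `± 1`. -/
theorem cI_bound {b : ℕ} (I : Finset (Fin b)) (m : ℕ) (hI : I.card + 1 = m) :
    |cI I| ≤ m ∧ (Even m → Even (cI I)) := by
  constructor
  · unfold cI
    refine (abs_add_le _ _).trans ?_
    have h1 := RKA_abs I (fun i => (univ.filter fun j => j ∉ I ∧ j < i).card)
    rw [abs_one]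
    have h2 : ((I.card : ℕ) : ℤ) + 1 = m := by exact_mod_cast hI
    linarith
  · intro hm
    unfold cI
    have h1 : Even (∑ i ∈ I, ((-1 : ℤ) ^ (univ.filter fun j => j ∉ I ∧ j < i).card - 1)) :=
      Finset.even_sum _ fun i _ => RKA_even _
    rw [Finset.sum_sub_distrib, Finset.sum_const, nsmul_eq_mul, mul_one] at h1
    have h2 : ((I.card : ℕ) : ℤ) + 1 = m := by exact_mod_cast hI
    have h3 : Even ((m : ℕ) : ℤ) := by exact_mod_cast hm
    have h4 := h1.add h3
    rw [← h2] at h4
    have h5 : ∑ i ∈ I, (-1 : ℤ) ^ (univ.filter fun j => j ∉ I ∧ j < i).card - (I.card : ℤ) +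
        ((I.card : ℤ) + 1) = 1 + ∑ i ∈ I, (-1 : ℤ) ^ (univ.filter fun j => j ∉ I ∧ j < i).card := by
      ring
    rwa [h5] at h4

/-- The change of `CC` at the sum of `I₀`. Proof. From `h` and `h0`: `∑_I < x ↔ ∑_I < ∑_{I₀}` for all `I` with `I.card + 1 = m` (`∑_{I₀} < y`, so `∑_I < ∑_{I₀}` gives `∑_I < y`). The first term of `CC` increases by `1`. For `J` with `J.card + 2 = m`: the
`j ∉ J` with `∑_J + a j < y` are those with `∑_J + a j < x` and the `j` with `insert j J = I₀`. So `dg a J y = dg a J x` unless `J = I₀.erase i`, `i ∈ I₀`, when `dg a J y = dg a J x + 1` and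
`dg a J x = #{j ∉ J | a j < a i} = #{j ∉ I₀ | j < i}`; then `[Odd (dg a J y)] - [Odd (dg a J x)] = (-1)^(dg a J x)`. The `I₀.erase i` are different for different `i ∈ I₀`. -/
theorem cc_step {b : ℕ} (m : ℕ) (hm : 2 ≤ m) (a : Fin b → ℕ) (ha : StrictMono a) (x y : ℕ) (I₀ : Finset (Fin b))
    (hI : I₀.card + 1 = m) (h0 : x ≤ ∑ i ∈ I₀, a i)
    (h : ∀ I : Finset (Fin b), I.card + 1 = m → (∑ i ∈ I, a i < y ↔ ∑ i ∈ I, a i < x ∨ I = I₀)) :
    (CC m a y : ℤ) = CC m a x + cI I₀ := by
  classical
  -- comparison with the sum of `I₀`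
  have hIy : ∑ i ∈ I₀, a i < y := (h I₀ hI).2 (Or.inr rfl)
  have hlt : ∀ I : Finset (Fin b), I.card + 1 = m →
      (∑ i ∈ I, a i < x ↔ ∑ i ∈ I, a i < ∑ i ∈ I₀, a i) := by
    intro I hIc
    refine ⟨fun h1 => h1.trans_le h0, fun h1 => ?_⟩
    rcases (h I hIc).1 (h1.trans hIy) with h2 | h2
    · exact h2
    · rw [h2] at h1
      exact absurd h1 (lt_irrefl _)
  -- the first term
  have hfirst : (univ.filter fun I : Finset (Fin b) => I.card + 1 = m ∧ ∑ i ∈ I, a i < y).card =
      (univ.filter fun I : Finset (Fin b) => I.card + 1 = m ∧ ∑ i ∈ I, a i < x).card + 1 := by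
    have h1 : (univ.filter fun I : Finset (Fin b) => I.card + 1 = m ∧ ∑ i ∈ I, a i < y) =
        insert I₀ (univ.filter fun I : Finset (Fin b) => I.card + 1 = m ∧ ∑ i ∈ I, a i < x) := by
      ext I
      rw [mem_insert, mem_filter, mem_filter]
      constructor
      · rintro ⟨-, h1, h2⟩
        rcases (h I h1).1 h2 with h3 | h3
        · exact Or.inr ⟨mem_univ _, h1, h3⟩
        · exact Or.inl h3
      · rintro (h1 | ⟨-, h1, h2⟩)
        · rw [h1]
          exact ⟨mem_univ _, hI, hIy⟩
        · exact ⟨mem_univ _, h1, (h I h1).2 (Or.inl h2)⟩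
    rw [h1, card_insert_of_notMem]
    rw [mem_filter]
    rintro ⟨-, -, h2⟩
    exact absurd h0 (not_le.2 h2)
  -- the degrees
  have hins : ∀ J : Finset (Fin b), J.card + 2 = m → ∀ j, j ∉ J →
      (insert j J).card + 1 = m ∧ ∑ i ∈ insert j J, a i = ∑ i ∈ J, a i + a j := by
    intro J hJ j hj
    rw [card_insert_of_notMem hj, sum_insert hj]
    exact ⟨by omega, add_comm _ _⟩
  have hdg : ∀ J : Finset (Fin b), J.card + 2 = m → (∀ i ∈ I₀, J ≠ I₀.erase i) →
      dg a J y = dg a J x := by
    intro J hJ hne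
    unfold dg
    congr 1
    ext j
    rw [mem_filter, mem_filter]
    refine and_congr_right fun _ => and_congr_right fun hj => ?_
    obtain ⟨h1, h2⟩ := hins J hJ j hj
    rw [← h2, h _ h1]
    refine ⟨fun h3 => h3.resolve_right fun h4 => ?_, Or.inl⟩
    refine hne j ?_ ?_
    · rw [← h4]
      exact mem_insert_self _ _
    · rw [← h4, erase_insert hj]
  have hdg2 : ∀ i ∈ I₀, dg a (I₀.erase i) y = dg a (I₀.erase i) x + 1 ∧
      dg a (I₀.erase i) x = (univ.filter fun j => j ∉ I₀ ∧ j < i).card := by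
    intro i hi
    have hJ : (I₀.erase i).card + 2 = m := by
      rw [card_erase_of_mem hi]
      have := card_pos.2 ⟨i, hi⟩
      omega
    have hsum : ∑ j ∈ I₀.erase i, a j + a i = ∑ j ∈ I₀, a j := sum_erase_add _ _ hi
    constructor
    · unfold dg
      have h1 : (univ.filter fun j => j ∉ I₀.erase i ∧ ∑ l ∈ I₀.erase i, a l + a j < y) =
          insert i (univ.filter fun j => j ∉ I₀.erase i ∧ ∑ l ∈ I₀.erase i, a l + a j < x) := by
        ext j
        rw [mem_insert, mem_filter, mem_filter]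
        constructor
        · rintro ⟨-, hj, h1⟩
          obtain ⟨h2, h3⟩ := hins _ hJ j hj
          rw [← h3] at h1
          rcases (h _ h2).1 h1 with h4 | h4
          · rw [h3] at h4
            exact Or.inr ⟨mem_univ _, hj, h4⟩
          · left
            by_contra hji
            apply hj
            rw [mem_erase]
            refine ⟨hji, ?_⟩
            rw [← h4]
            exact mem_insert_self _ _
        · rintro (h1 | ⟨-, hj, h1⟩)
          · rw [h1]
            refine ⟨mem_univ _, notMem_erase _ _, ?_⟩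
            rw [hsum]
            exact hIy
          · obtain ⟨h2, h3⟩ := hins _ hJ j hj
            rw [← h3] at h1 ⊢
            exact ⟨mem_univ _, hj, (h _ h2).2 (Or.inl h1)⟩
      rw [h1, card_insert_of_notMem]
      rw [mem_filter]
      rintro ⟨-, -, h2⟩
      rw [hsum] at h2
      exact absurd h0 (not_le.2 h2)
    · unfold dg
      congr 1
      ext j
      rw [mem_filter, mem_filter]
      refine and_congr_right fun _ => ?_
      constructor
      · rintro ⟨hj, h1⟩
        have h2 : j < i := by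
          rw [← ha.lt_iff_lt]
          have := h1.trans_le h0
          omega
        refine ⟨fun hjI => hj (mem_erase.2 ⟨h2.ne, hjI⟩), h2⟩
      · rintro ⟨hj, h1⟩
        have h2 : j ∉ I₀.erase i := fun h3 => hj (mem_of_mem_erase h3)
        obtain ⟨h3, h4⟩ := hins _ hJ j h2
        refine ⟨h2, ?_⟩
        rw [← h4, hlt _ h3, h4, ← hsum]
        have := ha h1
        omega
  -- the second term
  have hcard : ∀ z : ℕ, ((univ.filter fun J : Finset (Fin b) =>
      J.card + 2 = m ∧ Odd (dg a J z)).card : ℤ) =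
      ∑ J ∈ univ.filter (fun J : Finset (Fin b) => J.card + 2 = m),
        if Odd (dg a J z) then (1 : ℤ) else 0 := by
    intro z
    rw [← Finset.filter_filter, Finset.card_filter]
    push_cast
    rfl
  have hpar : ∀ n : ℕ, ((if Odd (n + 1) then (1 : ℤ) else 0) - if Odd n then 1 else 0) =
      (-1) ^ n := by
    intro n
    rcases Nat.even_or_odd n with hn | hn
    · rw [if_pos hn.add_one, if_neg (Nat.not_odd_iff_even.2 hn), hn.neg_one_pow, sub_zero]
    · rw [if_neg (Nat.not_odd_iff_even.2 hn.add_one), if_pos hn, hn.neg_one_pow, zero_sub]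
  have hsecond : ∑ J ∈ univ.filter (fun J : Finset (Fin b) => J.card + 2 = m),
      ((if Odd (dg a J y) then (1 : ℤ) else 0) - if Odd (dg a J x) then 1 else 0) =
      ∑ i ∈ I₀, (-1) ^ (univ.filter fun j => j ∉ I₀ ∧ j < i).card := by
    have h1 : I₀.image (fun i => I₀.erase i) ⊆
        univ.filter (fun J : Finset (Fin b) => J.card + 2 = m) := by
      intro J hJ
      rw [mem_image] at hJ
      obtain ⟨i, hi, rfl⟩ := hJ
      rw [mem_filter, card_erase_of_mem hi]
      have := card_pos.2 ⟨i, hi⟩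
      exact ⟨mem_univ _, by omega⟩
    rw [← sum_subset h1]
    · rw [sum_image (fun i hi j hj hij => erase_injOn I₀ hi hj hij)]
      refine sum_congr rfl fun i hi => ?_
      obtain ⟨h2, h3⟩ := hdg2 i hi
      rw [h2, hpar, h3]
    · intro J hJ hJ2
      rw [mem_filter] at hJ
      rw [hdg J hJ.2, sub_self]
      intro i hi hJi
      exact hJ2 (mem_image.2 ⟨i, hi, hJi.symm⟩)
  rw [sum_sub_distrib, ← hcard, ← hcard] at hsecond
  unfold CC cI
  rw [hfirst]
  push_cast
  linarith

end Pool.Agent.RVG
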