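import Pool.Agent.MP_c130bd_co.RVG.RUD

set_option autoImplicit false

namespace Pool.Agent.RVG

open Finset

/-! ## [RVG-RUA] the digits of the sums -/

theorem RUA_lex1 (R X Y X' Y' : ℕ) (hY : Y < R) (hY' : Y' < R) :
    (X * R + Y < X' * R + Y' ↔ X < X' ∨ X = X' ∧ Y < Y') ∧ (X * R + Y = X' * R + Y' ↔ X = X' ∧ Y = Y') := by
  rcases Nat.lt_trichotomy X X' with h | h | h
  · have h1 : (X + 1) * R ≤ X' * R := Nat.mul_le_mul_right _ h
    rw [Nat.succ_mul] at h1
    constructor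
    · constructor
      · intro _
        exact Or.inl h
      · intro _
        omega
    · constructor
      · intro _
        omega
      · intro h2
        omega
  · subst h
    constructor
    · constructor
      · intro _
        exact Or.inr ⟨rfl, by omega⟩
      · intro h2
        omega
    · constructor
      · intro _
        exact ⟨rfl, by omega⟩
      · intro h2
        omega
  · have h1 : (X' + 1) * R ≤ X * R := Nat.mul_le_mul_right _ h
    rw [Nat.succ_mul] at h1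
    constructor
    · constructor
      · intro _
        omega
      · intro h2
        omega
    · constructor
      · intro _
        omega
      · intro h2
        omega

theorem lex4 (R A B C D A' B' C' D' : ℕ) (hB : B < R) (hC : C < R) (hD : D < R) (hB' : B' < R) (hC' : C' < R)
    (hD' : D' < R) : ((A * R + B) * R + C) * R + D < ((A' * R + B') * R + C') * R + D' ↔
      A < A' ∨ A = A' ∧ (B < B' ∨ B = B' ∧ (C < C' ∨ C = C' ∧ D < D')) := by
  rw [(RUA_lex1 R _ D _ D' hD hD').1, (RUA_lex1 R _ C _ C' hC hC').1, (RUA_lex1 R _ C _ C' hC hC').2,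
    (RUA_lex1 R A B A' B' hB hB').1, (RUA_lex1 R A B A' B' hB hB').2]
  tauto

theorem sum_aa (m b : ℕ) (I : Finset (Fin b)) : ∑ i ∈ I, aa m b i =
    2 * ((((∑ i ∈ I, dA m i) * RR m b + ∑ i ∈ I, dB m i) * RR m b + ∑ i ∈ I, dC m i) * RR m b +
      ∑ i ∈ I, dD m i) := by
  unfold aa
  rw [← Finset.mul_sum, Finset.sum_add_distrib, ← Finset.sum_mul, Finset.sum_add_distrib, ← Finset.sum_mul,
    Finset.sum_add_distrib, ← Finset.sum_mul]

theorem RUA_bd (m b : ℕ) (I : Finset (Fin b)) (f : Fin b → ℕ) (hf : ∀ i, f i ≤ 2 ^ ((i : ℕ) + 1)) :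
    ∑ i ∈ I, f i < RR m b := by
  have h1 : ∑ i ∈ I, f i ≤ ∑ i : Fin b, 2 ^ ((i : ℕ) + 1) :=
    (Finset.sum_le_sum fun i _ => hf i).trans
      (Finset.sum_le_sum_of_subset_of_nonneg (Finset.subset_univ _) fun _ _ _ => Nat.zero_le _)
  have h2 : ∑ i : Fin b, 2 ^ ((i : ℕ) + 1) = ∑ i ∈ range b, 2 ^ (i + 1) :=
    Fin.sum_univ_eq_sum_range (fun i => 2 ^ (i + 1)) b
  have h3 : ∑ i ∈ range b, 2 ^ (i + 1) = 2 * ∑ i ∈ range b, 2 ^ i := by
    rw [Finset.mul_sum]
    exact Finset.sum_congr rfl fun i _ => by ring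
  have h4 : ∑ i ∈ range b, 2 ^ i < 2 ^ b := Nat.geomSum_lt (le_refl 2) fun k hk => mem_range.mp hk
  have h5 : 2 ^ (b + 1) ≤ RR m b := Nat.pow_le_pow_right (by norm_num) (by omega)
  have h6 : 2 ^ (b + 1) = 2 * 2 ^ b := by ring
  omega

/-- Proof. `∑ dB ≤ ∑_{i<m-2} 2^(i+1) < 2^m`, `∑ dC ≤ b * b < 2^(b+m+4)`, `∑ dD ≤ ∑_{μ ≤ b} 2^μ < 2^(b+1)`. -/
theorem dig_lt (m b : ℕ) (I : Finset (Fin b)) :
    ∑ i ∈ I, dB m i < RR m b ∧ ∑ i ∈ I, dC m i < RR m b ∧ ∑ i ∈ I, dD m i < RR m b := by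
  refine ⟨RUA_bd m b I _ fun i => ?_, RUA_bd m b I _ fun i => ?_, RUA_bd m b I _ fun i => ?_⟩
  · unfold dB
    split_ifs
    · exact le_refl _
    · exact Nat.zero_le _
  · unfold dC
    split_ifs
    · exact Nat.zero_le _
    · have h1 : (i : ℕ) + 1 < 2 ^ ((i : ℕ) + 1) := Nat.lt_two_pow_self
      omega
  · unfold dD
    split_ifs
    · exact Nat.zero_le _
    · exact Nat.pow_le_pow_right (by norm_num) (by omega)

/-- Proof. `sum_aa`, `lex4`, `dig_lt`. -/
theorem lt_aa (m b : ℕ) (I I' : Finset (Fin b)) : ∑ i ∈ I, aa m b i < ∑ i ∈ I', aa m b i ↔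
    ∑ i ∈ I, dA m i < ∑ i ∈ I', dA m i ∨ ∑ i ∈ I, dA m i = ∑ i ∈ I', dA m i ∧
      (∑ i ∈ I, dB m i < ∑ i ∈ I', dB m i ∨ ∑ i ∈ I, dB m i = ∑ i ∈ I', dB m i ∧
        (∑ i ∈ I, dC m i < ∑ i ∈ I', dC m i ∨ ∑ i ∈ I, dC m i = ∑ i ∈ I', dC m i ∧
          ∑ i ∈ I, dD m i < ∑ i ∈ I', dD m i)) := by
  obtain ⟨h1, h2, h3⟩ := dig_lt m b I
  obtain ⟨h4, h5, h6⟩ := dig_lt m b I'
  rw [sum_aa, sum_aa, Nat.mul_lt_mul_left (by norm_num : 0 < 2)]
  exact lex4 _ _ _ _ _ _ _ _ _ h1 h2 h3 h4 h5 h6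

/-- Proof. `lt_aa` for the sets `{i}`, `{j}`, or directly `lex4`. -/
theorem aa_mono (m b : ℕ) (hm : 4 ≤ m) : StrictMono (aa m b) := by
  intro i j hij
  have hij' : (i : ℕ) < (j : ℕ) := hij
  have h := lt_aa m b {i} {j}
  simp only [Finset.sum_singleton] at h
  rw [h]
  rcases Nat.lt_or_ge (i : ℕ) (m - 2) with hi | hi
  · rcases Nat.lt_or_ge (j : ℕ) (m - 2) with hj | hj
    · right
      refine ⟨by simp [dA, hi, hj], Or.inl ?_⟩
      simp only [dB, hi, hj, if_true]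
      exact Nat.pow_lt_pow_right (by norm_num) (by omega)
    · left
      simp [dA, hi, Nat.not_lt.mpr hj]
  · have hj : m - 2 ≤ (j : ℕ) := by omega
    right
    refine ⟨by simp [dA, Nat.not_lt.mpr hi, Nat.not_lt.mpr hj], Or.inr ⟨by simp [dB, Nat.not_lt.mpr hi, Nat.not_lt.mpr hj], Or.inl ?_⟩⟩
    simp only [dC, Nat.not_lt.mpr hi, Nat.not_lt.mpr hj, if_false]
    omega

theorem aa_even (m b : ℕ) (i : Fin b) : Even (aa m b i) := by
  unfold aa
  exact even_two_mul _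

theorem aa_pos (m b : ℕ) (i : Fin b) : 0 < aa m b i := by
  unfold aa
  have hR : 0 < RR m b := Nat.pos_of_ne_zero (by unfold RR; positivity)
  have h : 0 < dA m i * RR m b + dB m i := by
    unfold dA dB
    split_ifs
    · have := Nat.pow_pos (n := (i : ℕ) + 1) (show 0 < 2 by norm_num)
      omega
    · omega
  positivity

/-- The second digit determines the special elements. Proof. `∑_{i ∈ I} dB m i = ∑_{i ∈ I, i < m-2} 2^(i+1)`; a sum of different powers of `2` determines the set of the exponents (`Finset.geomSum_injective`, `Finset.geomSum_injective`). -/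
theorem dB_inj (m b : ℕ) (I I' : Finset (Fin b)) (h : ∑ i ∈ I, dB m i = ∑ i ∈ I', dB m i) (i : Fin b)
    (hi : (i : ℕ) < m - 2) : i ∈ I ↔ i ∈ I' := by
  have key : ∀ K : Finset (Fin b), ∑ i ∈ K, dB m i =
      ∑ k ∈ (K.filter fun i : Fin b => (i : ℕ) < m - 2).image (fun i : Fin b => (i : ℕ) + 1), 2 ^ k := by
    intro K
    rw [Finset.sum_image, Finset.sum_filter]
    · exact Finset.sum_congr rfl fun i _ => rfl
    · intro x _ y _ hxy
      exact Fin.ext (by simpa using hxy)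
  rw [key, key] at h
  have h2 := Finset.geomSum_injective (le_refl 2) h
  have h3 : ∀ K : Finset (Fin b), i ∈ K ↔ (i : ℕ) + 1 ∈ (K.filter fun i : Fin b => (i : ℕ) < m - 2).image (fun i : Fin b => (i : ℕ) + 1) := by
    intro K
    rw [Finset.mem_image]
    constructor
    · intro hK
      exact ⟨i, Finset.mem_filter.mpr ⟨hK, hi⟩, rfl⟩
    · rintro ⟨j, hj, hji⟩
      have : j = i := Fin.ext (by omega)
      rw [← this]
      exact (Finset.mem_filter.mp hj).1
  rw [h3 I, h3 I', h2]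

/-- The fourth digit determines the main elements. -/
theorem dD_inj (m b : ℕ) (hm : 4 ≤ m) (I I' : Finset (Fin b)) (h : ∑ i ∈ I, dD m i = ∑ i ∈ I', dD m i) (i : Fin b)
    (hi : m - 2 ≤ (i : ℕ)) : i ∈ I ↔ i ∈ I' := by
  have key : ∀ K : Finset (Fin b), ∑ i ∈ K, dD m i =
      ∑ k ∈ (K.filter fun i : Fin b => m - 2 ≤ (i : ℕ)).image (fun i : Fin b => (i : ℕ) - (m - 3)), 2 ^ k := by
    intro K
    rw [Finset.sum_image, Finset.sum_filter]
    · refine Finset.sum_congr rfl fun i _ => ?_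
      unfold dD
      rcases Nat.lt_or_ge (i : ℕ) (m - 2) with h1 | h1
      · rw [if_pos h1, if_neg (by omega)]
      · rw [if_neg (by omega), if_pos h1]
    · intro x hx y hy hxy
      have hx' := (Finset.mem_filter.mp hx).2
      have hy' := (Finset.mem_filter.mp hy).2
      have hxy' : (x : ℕ) - (m - 3) = (y : ℕ) - (m - 3) := hxy
      exact Fin.ext (by omega)
  rw [key, key] at h
  have h2 := Finset.geomSum_injective (le_refl 2) h
  have h3 : ∀ K : Finset (Fin b), i ∈ K ↔ (i : ℕ) - (m - 3) ∈ (K.filter fun i : Fin b => m - 2 ≤ (i : ℕ)).image (fun i : Fin b => (i : ℕ) - (m - 3)) := by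
    intro K
    rw [Finset.mem_image]
    constructor
    · intro hK
      exact ⟨i, Finset.mem_filter.mpr ⟨hK, hi⟩, rfl⟩
    · rintro ⟨j, hj, hji⟩
      obtain ⟨hj1, hj2⟩ := Finset.mem_filter.mp hj
      have hji' : (j : ℕ) - (m - 3) = (i : ℕ) - (m - 3) := hji
      have : j = i := Fin.ext (by omega)
      rw [← this]
      exact hj1
  rw [h3 I, h3 I', h2]

/-- Proof. Equal sums have equal digits (`lt_aa` in both directions), `dB_inj`, `dD_inj`. -/
theorem aa_inj (m b : ℕ) (hm : 4 ≤ m) (I I' : Finset (Fin b)) (h : ∑ i ∈ I, aa m b i = ∑ i ∈ I', aa m b i) :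
    I = I' := by
  have h1 := lt_aa m b I I'
  have h2 := lt_aa m b I' I
  rw [h] at h1 h2
  simp only [lt_self_iff_false, false_iff] at h1 h2
  have hB : ∑ i ∈ I, dB m i = ∑ i ∈ I', dB m i := by omega
  have hD : ∑ i ∈ I, dD m i = ∑ i ∈ I', dD m i := by omega
  ext i
  rcases Nat.lt_or_ge (i : ℕ) (m - 2) with hi | hi
  · exact dB_inj m b I I' hB i hi
  · exact dD_inj m b hm I I' hD i hi

end Pool.Agent.RVG
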