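import Pool.Agent.MP_c130bd_co.RVG.RUD

set_option autoImplicit false

namespace Pool.Agent.RVG

open Finset

/-! ## [RVG-RUB] the sets of the run -/

/-- the set `Iq` as a set of numbers -/
def RUB_S (m x y : ℕ) : Finset ℕ := insert x (insert y ((range (m - 2)).erase ((m - 2) / 2)))

theorem RUB_map (m b q : ℕ) (hm : 4 ≤ m) (hq : 2 * q + m + 1 ≤ b) :
    (Iq m b q).map Fin.valEmbedding =
      RUB_S m (m - 3 + ((b + 3 - m) / 2 - 1 - q)) (m - 3 + ((b + 3 - m) / 2 + 1 + q)) := by
  ext k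
  simp only [Finset.mem_map, Fin.valEmbedding_apply, Iq, Finset.mem_filter, Finset.mem_univ, true_and, RUB_S,
    Finset.mem_insert, Finset.mem_erase, Finset.mem_range]
  constructor
  · rintro ⟨i, hi, rfl⟩
    omega
  · intro h
    have hk : k < b := by omega
    exact ⟨⟨k, hk⟩, by simp only; omega, rfl⟩

theorem RUB_card_er (m : ℕ) (hm : 4 ≤ m) : ((range (m - 2)).erase ((m - 2) / 2)).card = m - 3 := by
  rw [Finset.card_erase_of_mem (by rw [Finset.mem_range]; omega), Finset.card_range]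
  omega

theorem RUB_card_S (m x y : ℕ) (hm : 4 ≤ m) (hx : m - 2 ≤ x) (hxy : x < y) : (RUB_S m x y).card = m - 1 := by
  unfold RUB_S
  rw [Finset.card_insert_of_notMem, Finset.card_insert_of_notMem, RUB_card_er m hm]
  · omega
  · simp only [Finset.mem_erase, Finset.mem_range]
    omega
  · simp only [Finset.mem_insert, Finset.mem_erase, Finset.mem_range]
    omega

/-- Let `c = (b + 3 - m) / 2`; by `hq`: `q + 2 ≤ c` and `m - 3 + (c + 1 + q) < b`. Proof. `m - 3` special elements (all but `(m - 2) / 2`) and two different main elements (`≥ m - 2`). -/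
theorem Iq_card (m b q : ℕ) (hm : 4 ≤ m) (hq : 2 * q + m + 1 ≤ b) : (Iq m b q).card + 1 = m := by
  have h := congrArg Finset.card (RUB_map m b q hm hq)
  rw [Finset.card_map, RUB_card_S _ _ _ hm (by omega) (by omega)] at h
  omega

theorem RUB_N (m b q : ℕ) (hm : 4 ≤ m) (hq : 2 * q + m + 1 ≤ b) (i : Fin b) :
    (univ.filter fun j => j ∉ Iq m b q ∧ j < i).card =
      (range (i : ℕ) \ RUB_S m (m - 3 + ((b + 3 - m) / 2 - 1 - q)) (m - 3 + ((b + 3 - m) / 2 + 1 + q))).card := by
  rw [← RUB_map m b q hm hq, ← Finset.card_map Fin.valEmbedding]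
  congr 1
  ext k
  simp only [Finset.mem_map, Fin.valEmbedding_apply, Finset.mem_filter, Finset.mem_univ, true_and,
    Finset.mem_sdiff, Finset.mem_range]
  constructor
  · rintro ⟨j, ⟨h1, h2⟩, rfl⟩
    refine ⟨h2, ?_⟩
    rintro ⟨j', h3, h4⟩
    exact h1 (Fin.ext h4 ▸ h3)
  · rintro ⟨h1, h2⟩
    refine ⟨⟨k, h1.trans i.2⟩, ⟨fun h3 => h2 ⟨_, h3, rfl⟩, h1⟩, rfl⟩

theorem RUB_N0 (m x y j : ℕ) (hx : m - 2 ≤ x) (hxy : x < y) (hj : j < m - 2) :
    (range j \ RUB_S m x y).card = if (m - 2) / 2 < j then 1 else 0 := by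
  split_ifs with h
  · rw [Finset.card_eq_one]
    refine ⟨(m - 2) / 2, ?_⟩
    ext k
    simp only [RUB_S, Finset.mem_sdiff, Finset.mem_range, Finset.mem_insert, Finset.mem_erase,
      Finset.mem_singleton]
    omega
  · rw [Finset.card_eq_zero]
    ext k
    simp only [RUB_S, Finset.mem_sdiff, Finset.mem_range, Finset.mem_insert, Finset.mem_erase,
      Finset.notMem_empty, iff_false]
    omega

theorem RUB_Nx (m x y : ℕ) (hm : 4 ≤ m) (hx : m - 2 ≤ x) (hxy : x < y) :
    (range x \ RUB_S m x y).card + (m - 3) = x := by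
  have h := Finset.card_sdiff_add_card_inter (range x) (RUB_S m x y)
  have h2 : range x ∩ RUB_S m x y = (range (m - 2)).erase ((m - 2) / 2) := by
    ext k
    simp only [RUB_S, Finset.mem_inter, Finset.mem_range, Finset.mem_insert, Finset.mem_erase]
    omega
  rw [h2, RUB_card_er m hm, Finset.card_range] at h
  exact h

theorem RUB_Ny (m x y : ℕ) (hm : 4 ≤ m) (hx : m - 2 ≤ x) (hxy : x < y) :
    (range y \ RUB_S m x y).card + (m - 2) = y := by
  have h := Finset.card_sdiff_add_card_inter (range y) (RUB_S m x y)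
  have h2 : range y ∩ RUB_S m x y = insert x ((range (m - 2)).erase ((m - 2) / 2)) := by
    ext k
    simp only [RUB_S, Finset.mem_inter, Finset.mem_range, Finset.mem_insert, Finset.mem_erase]
    omega
  rw [h2, Finset.card_insert_of_notMem (by simp only [Finset.mem_erase, Finset.mem_range]; omega),
    RUB_card_er m hm, Finset.card_range] at h
  omega

theorem RUB_alt (h n : ℕ) (hn : h < n) : ∑ j ∈ range n, (if h < j then (-1 : ℤ) else 1) = 2 * h + 2 - n := by
  induction n, hn using Nat.le_induction with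
  | base =>
    rw [Finset.sum_congr rfl (g := fun _ => (1 : ℤ)) (fun j hj => if_neg (by rw [mem_range] at hj; omega))]
    simp
    ring
  | succ n hn ih =>
    rw [Finset.sum_range_succ, ih, if_pos (by omega)]
    push_cast
    ring

/-- Proof. For a special `i ∈ Iq` the number `#{j ∉ Iq | j < i}` is `0` if `i < (m - 2) / 2` and `1` if `i > (m - 2) / 2`; for the main element with the number `μ₁ = c - 1 - q` it is `1 + (μ₁ - 1) = μ₁`, for that with the number
`μ₂ = c + 1 + q` it is `1 + (μ₂ - 1) - 1 = μ₂ - 1`. As `μ₁ + μ₂ = 2 c`, `(-1)^μ₁ + (-1)^(μ₂ - 1) = 0`. So `cI = 1 + (m - 2) / 2 - (m - 3 - (m - 2) / 2)`, which is `2` for even `m` and `1` for odd `m`. -/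
theorem Iq_cI (m b q : ℕ) (hm : 4 ≤ m) (hq : 2 * q + m + 1 ≤ b) : cI (Iq m b q) = if Even m then 2 else 1 := by
  set x := m - 3 + ((b + 3 - m) / 2 - 1 - q) with hx
  set y := m - 3 + ((b + 3 - m) / 2 + 1 + q) with hy
  have hmap : (Iq m b q).map Fin.valEmbedding = RUB_S m x y := RUB_map m b q hm hq
  have h1 : ∑ i ∈ Iq m b q, (-1 : ℤ) ^ (univ.filter fun j => j ∉ Iq m b q ∧ j < i).card =
      ∑ k ∈ RUB_S m x y, (-1 : ℤ) ^ (range k \ RUB_S m x y).card := by
    rw [← hmap, Finset.sum_map, hmap]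
    exact Finset.sum_congr rfl fun i _ => by rw [RUB_N m b q hm hq i]; rfl
  have hxm : m - 2 ≤ x := by omega
  have hxy : x < y := by omega
  have h2 : ∑ k ∈ RUB_S m x y, (-1 : ℤ) ^ (range k \ RUB_S m x y).card =
      (-1 : ℤ) ^ (range x \ RUB_S m x y).card + ((-1 : ℤ) ^ (range y \ RUB_S m x y).card +
        ∑ k ∈ (range (m - 2)).erase ((m - 2) / 2), (-1 : ℤ) ^ (range k \ RUB_S m x y).card) := by
    conv_lhs => rw [show (∑ k ∈ RUB_S m x y, (-1 : ℤ) ^ (range k \ RUB_S m x y).card) =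
      ∑ k ∈ insert x (insert y ((range (m - 2)).erase ((m - 2) / 2))), (-1 : ℤ) ^ (range k \ RUB_S m x y).card from rfl]
    rw [Finset.sum_insert (by simp only [Finset.mem_insert, Finset.mem_erase, Finset.mem_range]; omega),
      Finset.sum_insert (by simp only [Finset.mem_erase, Finset.mem_range]; omega)]
  have h3 : ∑ k ∈ (range (m - 2)).erase ((m - 2) / 2), (-1 : ℤ) ^ (range k \ RUB_S m x y).card =
      2 * ((m - 2) / 2 : ℕ) + 3 - m := by
    have h4 : ∑ k ∈ (range (m - 2)).erase ((m - 2) / 2), (-1 : ℤ) ^ (range k \ RUB_S m x y).card =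
        ∑ k ∈ (range (m - 2)).erase ((m - 2) / 2), (if (m - 2) / 2 < k then (-1 : ℤ) else 1) := by
      refine Finset.sum_congr rfl fun k hk => ?_
      rw [Finset.mem_erase, Finset.mem_range] at hk
      rw [RUB_N0 m x y k hxm hxy hk.2]
      split_ifs <;> norm_num
    have h5 : ∑ k ∈ (range (m - 2)).erase ((m - 2) / 2), (if (m - 2) / 2 < k then (-1 : ℤ) else 1) +
        (if (m - 2) / 2 < (m - 2) / 2 then (-1 : ℤ) else 1) =
        ∑ k ∈ range (m - 2), (if (m - 2) / 2 < k then (-1 : ℤ) else 1) :=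
      Finset.sum_erase_add _ _ (by rw [Finset.mem_range]; omega)
    rw [RUB_alt _ _ (by omega), if_neg (lt_irrefl _)] at h5
    rw [h4]
    have h6 : ((m - 2 : ℕ) : ℤ) = m - 2 := by omega
    rw [h6] at h5
    linarith
  have h7 : (-1 : ℤ) ^ (range x \ RUB_S m x y).card + (-1 : ℤ) ^ (range y \ RUB_S m x y).card = 0 := by
    have hNx := RUB_Nx m x y hm hxm hxy
    have hNy := RUB_Ny m x y hm hxm hxy
    rcases Nat.even_or_odd (range x \ RUB_S m x y).card with he | ho
    · have ho2 : Odd (range y \ RUB_S m x y).card := by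
        rw [Nat.odd_iff]
        rw [Nat.even_iff] at he
        omega
      rw [he.neg_one_pow, ho2.neg_one_pow]
      norm_num
    · have he2 : Even (range y \ RUB_S m x y).card := by
        rw [Nat.even_iff]
        rw [Nat.odd_iff] at ho
        omega
      rw [ho.neg_one_pow, he2.neg_one_pow]
      norm_num
  unfold cI
  rw [h1, h2, h3]
  split_ifs with he
  · rw [Nat.even_iff] at he
    have : 2 * (((m - 2) / 2 : ℕ) : ℤ) = m - 2 := by omega
    linarith
  · rw [Nat.not_even_iff] at he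
    have : 2 * (((m - 2) / 2 : ℕ) : ℤ) = m - 3 := by omega
    linarith

end Pool.Agent.RVG
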