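import Pool.Agent.MP_c130bd_co.RVG.RUA
import Pool.Agent.MP_c130bd_co.RVG.RUB

set_option autoImplicit false

namespace Pool.Agent.RVG

open Finset

/-! ## [RVG-RUC] the order of the sets of the run -/

theorem RUC_sum (m b q : ℕ) (hm : 4 ≤ m) (hq : 2 * q + m + 1 ≤ b) (f : ℕ → ℕ) :
    ∑ i ∈ Iq m b q, f i = f (m - 3 + ((b + 3 - m) / 2 - 1 - q)) + (f (m - 3 + ((b + 3 - m) / 2 + 1 + q)) +
      ∑ k ∈ (range (m - 2)).erase ((m - 2) / 2), f k) := by
  have h1 : ∑ i ∈ Iq m b q, f i = ∑ k ∈ (Iq m b q).map Fin.valEmbedding, f k := by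
    rw [Finset.sum_map]
    rfl
  rw [h1, RUB_map m b q hm hq]
  unfold RUB_S
  rw [Finset.sum_insert (by simp only [Finset.mem_insert, Finset.mem_erase, Finset.mem_range]; omega),
    Finset.sum_insert (by simp only [Finset.mem_erase, Finset.mem_range]; omega)]

/-- The digits of `Iq`. Proof. Direct; `∑ dB` is `∑ dB` over the special indices without `(m - 2) / 2`, it does not depend on `q` (it is the same as for the set `Iq m b q'`). -/
theorem Iq_dig (m b q : ℕ) (hm : 4 ≤ m) (hq : 2 * q + m + 1 ≤ b) :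
    ∑ i ∈ Iq m b q, dA m i = 2 ∧ ∑ i ∈ Iq m b q, dC m i = 2 * ((b + 3 - m) / 2) ∧
    ∑ i ∈ Iq m b q, dD m i = 2 ^ ((b + 3 - m) / 2 - 1 - q) + 2 ^ ((b + 3 - m) / 2 + 1 + q) ∧
    ∀ q', 2 * q' + m + 1 ≤ b → ∑ i ∈ Iq m b q', dB m i = ∑ i ∈ Iq m b q, dB m i := by
  have hz : ∀ f : ℕ → ℕ, (∀ k, k < m - 2 → f k = 0) →
      ∑ k ∈ (range (m - 2)).erase ((m - 2) / 2), f k = 0 := by
    intro f hf
    refine Finset.sum_eq_zero fun k hk => hf k ?_
    rw [Finset.mem_erase, Finset.mem_range] at hk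
    exact hk.2
  refine ⟨?_, ?_, ?_, ?_⟩
  · rw [RUC_sum m b q hm hq (dA m), hz _ fun k hk => by unfold dA; rw [if_pos hk]]
    unfold dA
    rw [if_neg (by omega), if_neg (by omega)]
  · rw [RUC_sum m b q hm hq (dC m), hz _ fun k hk => by unfold dC; rw [if_pos hk]]
    unfold dC
    rw [if_neg (by omega), if_neg (by omega)]
    omega
  · rw [RUC_sum m b q hm hq (dD m), hz _ fun k hk => by unfold dD; rw [if_pos hk]]
    unfold dD
    rw [if_neg (by omega), if_neg (by omega)]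
    rw [Nat.add_sub_cancel_left, Nat.add_sub_cancel_left]
    rfl
  · intro q' hq'
    rw [RUC_sum m b q hm hq (dB m), RUC_sum m b q' hm hq' (dB m)]
    have h : ∀ k, m - 2 ≤ k → dB m k = 0 := fun k hk => by unfold dB; rw [if_neg (by omega)]
    rw [h _ (by omega), h _ (by omega), h _ (by omega), h _ (by omega)]

theorem RUC_main (m b : ℕ) (I : Finset (Fin b)) (f : ℕ → ℕ) (hf : ∀ k, k < m - 2 → f k = 0) :
    ∑ i ∈ I, f i = ∑ i ∈ I.filter (fun i : Fin b => m - 2 ≤ (i : ℕ)), f i := by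
  rw [Finset.sum_filter]
  refine Finset.sum_congr rfl fun i _ => ?_
  rcases Nat.lt_or_ge (i : ℕ) (m - 2) with h | h
  · rw [if_neg (by omega), hf _ h]
  · rw [if_pos h]

/-- the fourth digit of a set with the digits `2`, `2 c` -/
theorem RUC_two (m b : ℕ) (hm : 4 ≤ m) (I : Finset (Fin b)) (c : ℕ) (hA : ∑ i ∈ I, dA m i = 2)
    (hC : ∑ i ∈ I, dC m i = 2 * c) : ∃ p, p + 1 ≤ c ∧ ∑ i ∈ I, dD m i = 2 ^ (c - 1 - p) + 2 ^ (c + 1 + p) := by
  rw [RUC_main m b I (dA m) fun k hk => by unfold dA; rw [if_pos hk]] at hA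
  rw [RUC_main m b I (dC m) fun k hk => by unfold dC; rw [if_pos hk]] at hC
  rw [RUC_main m b I (dD m) fun k hk => by unfold dD; rw [if_pos hk]]
  have hcard : (I.filter (fun i : Fin b => m - 2 ≤ (i : ℕ))).card = 2 := by
    refine Eq.trans ?_ hA
    rw [Finset.card_eq_sum_ones]
    refine Finset.sum_congr rfl fun i hi => ?_
    have hi' := (Finset.mem_filter.mp hi).2
    unfold dA
    rw [if_neg (by omega)]
  obtain ⟨u, v, huv, hI⟩ := Finset.card_eq_two.mp hcard
  have hu : m - 2 ≤ (u : ℕ) := by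
    have : u ∈ I.filter (fun i : Fin b => m - 2 ≤ (i : ℕ)) := by rw [hI]; exact Finset.mem_insert_self _ _
    exact (Finset.mem_filter.mp this).2
  have hv : m - 2 ≤ (v : ℕ) := by
    have : v ∈ I.filter (fun i : Fin b => m - 2 ≤ (i : ℕ)) := by
      rw [hI]; exact Finset.mem_insert_of_mem (Finset.mem_singleton_self _)
    exact (Finset.mem_filter.mp this).2
  rw [hI, Finset.sum_pair huv] at hC
  rw [hI, Finset.sum_pair huv]
  unfold dC at hC
  unfold dD
  rw [if_neg (by omega), if_neg (by omega)] at hC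
  rw [if_neg (by omega), if_neg (by omega)]
  have huv' : (u : ℕ) ≠ (v : ℕ) := fun h => huv (Fin.ext h)
  rcases Nat.lt_or_ge (u : ℕ) (v : ℕ) with h | h
  · refine ⟨c - 1 - (u - (m - 3)), by omega, ?_⟩
    rw [show c - 1 - (c - 1 - ((u : ℕ) - (m - 3))) = (u : ℕ) - (m - 3) from by omega,
      show c + 1 + (c - 1 - ((u : ℕ) - (m - 3))) = (v : ℕ) - (m - 3) from by omega]
  · refine ⟨c - 1 - (v - (m - 3)), by omega, ?_⟩
    rw [show c - 1 - (c - 1 - ((v : ℕ) - (m - 3))) = (v : ℕ) - (m - 3) from by omega,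
      show c + 1 + (c - 1 - ((v : ℕ) - (m - 3))) = (u : ℕ) - (m - 3) from by omega, Nat.add_comm]

/-- Proof. (←) The fourth digit increases: `2^(c-1-q) + 2^(c+1+q) < 2^(c+2+q)`. (→) Let `∑_{Iq q} ≤ ∑_I < ∑_{Iq (q+1)}` (`lt_aa`): the first three digits of `I` are those of `Iq m b q`. So `I` has two main elements and (`dB_inj`) the same special elements as `Iq m b q`; the numbers
`μ < μ'` of the main elements have the sum `2 c` (third digit), `μ = c - 1 - p`, `μ' = c + 1 + p` with `p ≥ 0`; the fourth digit `2^(c-1-p) + 2^(c+1+p)` is strictly increasing in `p`, so `p = q` (`p ≥ q` and `p < q + 1`), `I = Iq m b q`. -/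
theorem Iq_next (m b q : ℕ) (hm : 4 ≤ m) (hq : 2 * (q + 1) + m + 1 ≤ b) (I : Finset (Fin b)) (hI : I.card + 1 = m) :
    ∑ i ∈ I, aa m b i < ∑ i ∈ Iq m b (q + 1), aa m b i ↔
      ∑ i ∈ I, aa m b i < ∑ i ∈ Iq m b q, aa m b i ∨ I = Iq m b q := by
  obtain ⟨hA0, hC0, hD0, -⟩ := Iq_dig m b q hm (by omega)
  obtain ⟨hA1, hC1, hD1, hB1⟩ := Iq_dig m b (q + 1) hm hq
  have hB := hB1 q (by omega)
  set c := (b + 3 - m) / 2 with hc
  have hcq : q + 3 ≤ c := by omega
  have hpw : ∀ p, p + 1 ≤ c → 2 ^ (c - 1 - p) < 2 ^ (c + 1 + p) := fun p hp =>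
    Nat.pow_lt_pow_right (by norm_num) (by omega)
  have hps : 2 ^ (c + 1 + (q + 1)) = 2 * 2 ^ (c + 1 + q) := by rw [← Nat.add_assoc, pow_succ, mul_comm]
  have hlt : ∑ i ∈ Iq m b q, aa m b i < ∑ i ∈ Iq m b (q + 1), aa m b i := by
    rw [lt_aa]
    refine Or.inr ⟨by rw [hA0, hA1], Or.inr ⟨hB, Or.inr ⟨by rw [hC0, hC1], ?_⟩⟩⟩
    rw [hD0, hD1, hps]
    have := hpw q (by omega)
    have h0 : 0 < 2 ^ (c - 1 - (q + 1)) := Nat.pow_pos (by norm_num)
    omega
  constructor
  · intro h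
    by_cases h0 : ∑ i ∈ I, aa m b i < ∑ i ∈ Iq m b q, aa m b i
    · exact Or.inl h0
    · right
      rw [lt_aa] at h h0
      have hA : ∑ i ∈ I, dA m i = 2 := by omega
      have hBI : ∑ i ∈ I, dB m i = ∑ i ∈ Iq m b q, dB m i := by omega
      have hC : ∑ i ∈ I, dC m i = 2 * c := by omega
      have hD2 : ∑ i ∈ Iq m b q, dD m i ≤ ∑ i ∈ I, dD m i := by omega
      have hD3 : ∑ i ∈ I, dD m i < ∑ i ∈ Iq m b (q + 1), dD m i := by omega
      obtain ⟨p, hp, hD⟩ := RUC_two m b hm I c hA hC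
      rw [hD, hD0] at hD2
      rw [hD, hD1] at hD3
      have hpq : p = q := by
        rcases Nat.lt_trichotomy p q with hlt' | heq | hgt
        · exfalso
          have h1 := hpw p hp
          have h2 : 2 ^ (c + 1 + p + 1) ≤ 2 ^ (c + 1 + q) := Nat.pow_le_pow_right (by norm_num) (by omega)
          rw [pow_succ] at h2
          have h3 : 0 < 2 ^ (c - 1 - q) := Nat.pow_pos (by norm_num)
          omega
        · exact heq
        · exfalso
          rcases Nat.eq_or_lt_of_le (Nat.succ_le_of_lt hgt) with h4 | h4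
          · subst h4
            exact lt_irrefl _ hD3
          · have h2 : 2 ^ (c + 1 + (q + 1) + 1) ≤ 2 ^ (c + 1 + p) := Nat.pow_le_pow_right (by norm_num) (by omega)
            rw [pow_succ] at h2
            have h3 := hpw (q + 1) (by omega)
            have h5 : 0 < 2 ^ (c - 1 - p) := Nat.pow_pos (by norm_num)
            omega
      subst hpq
      ext i
      rcases Nat.lt_or_ge (i : ℕ) (m - 2) with hi | hi
      · exact dB_inj m b I _ hBI i hi
      · exact dD_inj m b hm I _ (by rw [hD, hD0]) i hi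
  · rintro (h | h)
    · exact h.trans hlt
    · rw [h]
      exact hlt

end Pool.Agent.RVG
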