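import Pool.Agent.MP_c130bd_co.RVG.Defs

set_option autoImplicit false

namespace Pool.Agent.RVG

open Finset

/-! ## the numbers `a i` for `m ≥ 4` (definitions) -/

/-- The first digit: `0` for the special indices `i < m - 2`, `1` for the main indices. -/
def dA (m i : ℕ) : ℕ := if i < m - 2 then 0 else 1

/-- The second digit: `2^(i+1)` for the special indices. -/
def dB (m i : ℕ) : ℕ := if i < m - 2 then 2 ^ (i + 1) else 0

/-- The third digit: the number `μ = i - (m - 3) ≥ 1` of the main index `i`. -/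
def dC (m i : ℕ) : ℕ := if i < m - 2 then 0 else i - (m - 3)

/-- The fourth digit: `2^μ`. -/
def dD (m i : ℕ) : ℕ := if i < m - 2 then 0 else 2 ^ (i - (m - 3))

/-- the base -/
def RR (m b : ℕ) : ℕ := 2 ^ (b + m + 4)

/-- the numbers `a i` -/
def aa (m b : ℕ) (i : Fin b) : ℕ :=
  2 * (((dA m i * RR m b + dB m i) * RR m b + dC m i) * RR m b + dD m i)

/-- The set of the run with the number `q`: all the special indices but `(m - 2) / 2` and the two main indices with the numbers `μ = c - 1 - q`, `c + 1 + q`, where `c = (b + 3 - m) / 2`. -/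
def Iq (m b q : ℕ) : Finset (Fin b) :=
  univ.filter fun i => ((i : ℕ) < m - 2 ∧ (i : ℕ) ≠ (m - 2) / 2) ∨
    (i : ℕ) = m - 3 + ((b + 3 - m) / 2 - 1 - q) ∨ (i : ℕ) = m - 3 + ((b + 3 - m) / 2 + 1 + q)

end Pool.Agent.RVG
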