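import Pool.Agent.MP_c130bd_co.RVG.Defs

set_option autoImplicit false

namespace Pool.Agent.RVG

open Finset Polynomial

/-! ## [RVG-SGM] the functionals of the Gale vectors on polynomials -/

/-- the functional of the second part: the polynomial `p` stands for the vector of its coefficients `0, …, m - 1` -/
noncomputable def Phi (m : ℕ) (t ζ : ℝ) (p : ℝ[X]) : ℝ :=
  ∑ n ∈ range m, ζ ^ (m - 1 - n - 1) * psi t (m - 1 - n) * p.coeff n

/-- the renormalized value of `Phi` at `p * X^j` (`p` of degree `g`, `m = g + r + 1`, `j ≤ r`) -/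
noncomputable def MM (m g r : ℕ) (p : ℝ[X]) (j : ℕ) (t ζ : ℝ) : ℝ :=
  ∑ i ∈ range (g + 1), p.coeff i * ζ ^ ((m - 1 - (i + j) - 1) - (r - j - 1)) * psi t (m - 1 - (i + j))

/-- `∏_{i ∈ I} (X - a i)` -/
noncomputable def PI {b : ℕ} (a : Fin b → ℝ) (I : Finset (Fin b)) : ℝ[X] := ∏ i ∈ I, (X - C (a i))

theorem Phi_add (m : ℕ) (t ζ : ℝ) (p q : ℝ[X]) : Phi m t ζ (p + q) = Phi m t ζ p + Phi m t ζ q := by
  unfold Phi
  rw [← Finset.sum_add_distrib]
  apply Finset.sum_congr rfl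
  intro n _
  rw [coeff_add, mul_add]

theorem Phi_smul (m : ℕ) (t ζ c : ℝ) (p : ℝ[X]) : Phi m t ζ (C c * p) = c * Phi m t ζ p := by
  unfold Phi
  rw [Finset.mul_sum]
  apply Finset.sum_congr rfl
  intro n _
  rw [coeff_C_mul]
  ring

theorem Phi_sum (m : ℕ) (t ζ : ℝ) {κ : Type} (s : Finset κ) (p : κ → ℝ[X]) :
    Phi m t ζ (∑ k ∈ s, p k) = ∑ k ∈ s, Phi m t ζ (p k) := by
  unfold Phi
  rw [Finset.sum_comm]
  apply Finset.sum_congr rfl
  intro n _
  rw [finsetSum_coeff, Finset.mul_sum]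

theorem dotL {b T : ℕ} (m : ℕ) (a : Fin b → ℝ) (t : Fin T → ℝ) (ζ : ℝ) (i : Fin b) (p : ℝ[X])
    (hp : p.natDegree < m) : VV m a t ζ (Sum.inl i) ⬝ᵥ (fun n : Fin m => p.coeff n) =
      (-1) ^ ((i : ℕ) + (m - 1)) * p.eval (a i) := by
  rw [eval_eq_sum_range' hp, ← Fin.sum_univ_eq_sum_range (fun n => p.coeff n * a i ^ n) m, Finset.mul_sum]
  show ∑ n : Fin m, (-1) ^ ((i : ℕ) + (m - 1)) * a i ^ (n : ℕ) * p.coeff n = _
  apply Finset.sum_congr rfl
  intro n _
  ring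

theorem dotU {b T : ℕ} (m : ℕ) (a : Fin b → ℝ) (t : Fin T → ℝ) (ζ : ℝ) (k : Fin T) (p : ℝ[X]) :
    VV m a t ζ (Sum.inr k) ⬝ᵥ (fun n : Fin m => p.coeff n) = Phi m (t k) ζ p := by
  unfold Phi
  rw [← Fin.sum_univ_eq_sum_range (fun n => ζ ^ (m - 1 - n - 1) * psi (t k) (m - 1 - n) * p.coeff n) m]
  rfl

theorem MM_cont (m g r : ℕ) (p : ℝ[X]) (j : ℕ) (t : ℝ) : Continuous fun ζ => MM m g r p j t ζ := by
  unfold MM
  fun_prop

theorem Phi_mul {m g r : ℕ} (hm : m = g + r + 1) (p : ℝ[X]) (hp : p.natDegree ≤ g) (j : ℕ) (hj : j ≤ r)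
    (t ζ : ℝ) : Phi m t ζ (p * X ^ j) = ζ ^ (r - j - 1) * MM m g r p j t ζ := by
  unfold Phi MM
  have h1 : ∀ i ∈ range (g + 1), i + j ∈ range m := by
    intro i hi
    rw [mem_range] at hi ⊢
    omega
  have h2 : ∑ n ∈ range m, ζ ^ (m - 1 - n - 1) * psi t (m - 1 - n) * (p * X ^ j).coeff n =
      ∑ n ∈ (range (g + 1)).image (· + j), ζ ^ (m - 1 - n - 1) * psi t (m - 1 - n) * (p * X ^ j).coeff n := by
    symm
    apply Finset.sum_subset
    · intro n hn
      obtain ⟨i, hi, rfl⟩ := Finset.mem_image.1 hn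
      exact h1 i hi
    · intro n _ hn
      have h3 : (p * X ^ j).coeff n = 0 := by
        rw [coeff_mul_X_pow']
        split_ifs with h4
        · apply coeff_eq_zero_of_natDegree_lt
          by_contra h5
          apply hn
          exact Finset.mem_image.2 ⟨n - j, mem_range.2 (by omega), by omega⟩
        · rfl
      rw [h3, mul_zero]
  rw [h2, Finset.sum_image (fun x _ y _ h => by simpa using h), Finset.mul_sum]
  apply Finset.sum_congr rfl
  intro i hi
  rw [mem_range] at hi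
  rw [coeff_mul_X_pow]
  have h3 : m - 1 - (i + j) - 1 = (r - j - 1) + ((m - 1 - (i + j) - 1) - (r - j - 1)) := by omega
  rw [h3, pow_add]
  rw [← h3]
  ring

theorem MM_lt {m g r : ℕ} (hm : m = g + r + 1) (p : ℝ[X]) (hg : p.coeff g = 1) (j : ℕ) (hj : j < r) (t : ℝ) :
    MM m g r p j t 0 = psi t (r - j) := by
  unfold MM
  rw [Finset.sum_eq_single g]
  · rw [hg, show m - 1 - (g + j) = r - j by omega, Nat.sub_self, pow_zero, one_mul, one_mul]
  · intro i hi hig
    rw [mem_range] at hi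
    rw [zero_pow (by omega), mul_zero, zero_mul]
  · intro h
    exact absurd (mem_range.2 (by omega)) h

theorem PI_eval {b : ℕ} (a : Fin b → ℝ) (I : Finset (Fin b)) (s : ℝ) : (PI a I).eval s = ∏ i ∈ I, (s - a i) := by
  unfold PI
  rw [eval_prod]
  simp

theorem PI_monic {b : ℕ} (a : Fin b → ℝ) (I : Finset (Fin b)) : (PI a I).Monic :=
  monic_prod_of_monic _ _ fun i _ => monic_X_sub_C (a i)

theorem PI_natDegree {b : ℕ} (a : Fin b → ℝ) (I : Finset (Fin b)) : (PI a I).natDegree = I.card := by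
  unfold PI
  rw [natDegree_prod_of_monic _ _ fun i _ => monic_X_sub_C (a i)]
  simp

theorem PI_coeff {b : ℕ} (a : Fin b → ℝ) (I : Finset (Fin b)) : (PI a I).coeff I.card = 1 := by
  have h := PI_monic a I
  rw [← PI_natDegree a I]
  exact h

theorem MM_eq {b : ℕ} (a : Fin b → ℝ) (I : Finset (Fin b)) {m g r : ℕ} (hm : m = g + r + 1) (hg : I.card = g) (t : ℝ) :
    MM m g r (PI a I) r t 0 = t - ∑ i ∈ I, a i := by
  unfold MM
  rw [Finset.sum_range_succ]
  have h1 : (PI a I).coeff g = 1 := by rw [← hg]; exact PI_coeff a I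
  rw [h1, show m - 1 - (g + r) = 0 by omega]
  have h2 : (1 : ℝ) * 0 ^ (0 - 1 - (r - r - 1)) * psi t 0 = t := by
    simp [psi]
  rw [h2]
  rcases Nat.eq_zero_or_pos g with h0 | h0
  · have hI : I = ∅ := Finset.card_eq_zero.1 (by omega)
    rw [h0, hI]
    simp
  · obtain ⟨q, rfl⟩ : ∃ q, g = q + 1 := ⟨g - 1, by omega⟩
    rw [Finset.sum_range_succ]
    have h3 : ∑ i ∈ range q, (PI a I).coeff i * (0 : ℝ) ^ (m - 1 - (i + r) - 1 - (r - r - 1)) * psi t (m - 1 - (i + r)) = 0 := by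
      apply Finset.sum_eq_zero
      intro i hi
      rw [mem_range] at hi
      rw [zero_pow (by omega), mul_zero, zero_mul]
    have h4 : (PI a I).coeff q = -∑ i ∈ I, a i := by
      have h5 := Polynomial.prod_X_sub_C_coeff_card_pred I a (by omega)
      rw [hg, Nat.add_sub_cancel] at h5
      exact h5
    rw [h3, h4, show m - 1 - (q + r) = 1 by omega]
    simp [psi]
    ring

end Pool.Agent.RVG
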