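import Pool.Agent.MP_c130bd_co.RVG.Defs

set_option autoImplicit false

namespace Pool.Agent.RVG

open Finset

/-! ## [RVG-TAI] the tails -/

theorem UU_le {T : ℕ} (K : Finset (Fin T)) : UU K + K.card ≤ T := by
  unfold UU
  rw [← card_union_of_disjoint]
  · have h := card_le_univ ((univ.filter fun l => l ∉ K ∧ Even (K.filter (· < l)).card) ∪ K)
    rwa [Fintype.card_fin] at h
  · rw [disjoint_left]
    intro l hl
    exact (mem_filter.1 hl).2.1

theorem lev_le {b T : ℕ} (β : ℕ) (a : Fin b → ℕ) (x : Fin T → ℕ) (X : Finset (Fin b ⊕ Fin T)) :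
    β ≤ lev β a x X ∧ lev β a x X ≤ β + T := by
  unfold lev
  have h1 := UU_le X.toRight
  have h2 : (univ.filter fun k => ∑ i ∈ X.toLeft, a i < x k).card ≤ T := by
    have h := card_le_univ (univ.filter fun k => ∑ i ∈ X.toLeft, a i < x k)
    rwa [Fintype.card_fin] at h
  split_ifs with h3 h4
  · omega
  · rw [h4] at h1 ⊢
    have h5 := Nat.mod_lt (∑ k ∈ X.toRight, dg a X.toLeft (x k)) (by norm_num : 2 > 0)
    omega
  · omega

/-- subsets of the first part -/
theorem TAI_card_left {b T : ℕ} (P : Finset (Fin b) → Prop) [DecidablePred P] :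
    (univ.filter fun X : Finset (Fin b ⊕ Fin T) => X.toRight = ∅ ∧ P X.toLeft).card =
      (univ.filter fun I : Finset (Fin b) => P I).card := by
  apply Finset.card_nbij' (fun X => X.toLeft) (fun I => I.disjSum ∅)
  · intro X hX
    rw [mem_coe, mem_filter] at hX ⊢
    exact ⟨mem_univ _, hX.2.2⟩
  · intro I hI
    rw [mem_coe, mem_filter] at hI ⊢
    refine ⟨mem_univ _, ?_, ?_⟩
    · exact toRight_disjSum
    · rw [toLeft_disjSum]
      exact hI.2
  · intro X hX
    rw [mem_coe, mem_filter] at hX
    show X.toLeft.disjSum ∅ = X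
    rw [← hX.2.1]
    exact toLeft_disjSum_toRight
  · intro I _
    exact toLeft_disjSum

theorem TAI_zero {b T : ℕ} (m β : ℕ) (a : Fin b → ℕ) (x : Fin T → ℕ) (hx : Antitone x)
    (j : ℕ) (hj : 1 ≤ j) (hjT : 2 * j ≤ T) :
    (univ.filter fun X : Finset (Fin b ⊕ Fin T) => X.card + 1 = m ∧ X.toRight = ∅ ∧
      β + j ≤ lev β a x X ∧ lev β a x X + j ≤ β + T).card +
      (univ.filter fun I : Finset (Fin b) => I.card + 1 = m ∧ ∑ i ∈ I, a i < x ⟨T - j, by omega⟩).card =
      (univ.filter fun I : Finset (Fin b) => I.card + 1 = m ∧ ∑ i ∈ I, a i < x ⟨j - 1, by omega⟩).card := by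
  -- the number of the thresholds above `σ`
  have hk : ∀ σ p (hp : p < T), (p + 1 ≤ (univ.filter fun k => σ < x k).card ↔ σ < x ⟨p, hp⟩) := by
    intro σ p hp
    constructor
    · intro h
      by_contra hcon
      have h1 : (univ.filter fun k => σ < x k) ⊆ univ.filter fun k : Fin T => k < ⟨p, hp⟩ := by
        intro k hk
        rw [mem_filter] at hk ⊢
        refine ⟨mem_univ _, ?_⟩
        by_contra h2
        have := hx (not_lt.1 h2)
        omega
      have h2 := card_le_card h1
      have h3 : (univ.filter fun k : Fin T => k < ⟨p, hp⟩).card = p := by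
        have h4 : (univ.filter fun k : Fin T => k < ⟨p, hp⟩) = Finset.Iio ⟨p, hp⟩ := by
          ext k
          simp
        rw [h4, Fin.card_Iio]
      omega
    · intro h
      have h1 : (univ.filter fun k : Fin T => k ≤ ⟨p, hp⟩) ⊆ univ.filter fun k => σ < x k := by
        intro k hk
        rw [mem_filter] at hk ⊢
        exact ⟨mem_univ _, lt_of_lt_of_le h (hx hk.2)⟩
      have h2 := card_le_card h1
      have h3 : (univ.filter fun k : Fin T => k ≤ ⟨p, hp⟩).card = p + 1 := by
        have h4 : (univ.filter fun k : Fin T => k ≤ ⟨p, hp⟩) = Finset.Iic ⟨p, hp⟩ := by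
          ext k
          simp
        rw [h4, Fin.card_Iic]
      omega
  have h1 : (univ.filter fun X : Finset (Fin b ⊕ Fin T) => X.card + 1 = m ∧ X.toRight = ∅ ∧
      β + j ≤ lev β a x X ∧ lev β a x X + j ≤ β + T) =
      univ.filter fun X : Finset (Fin b ⊕ Fin T) => X.toRight = ∅ ∧ (X.toLeft.card + 1 = m ∧
        ∑ i ∈ X.toLeft, a i < x ⟨j - 1, by omega⟩ ∧ ¬ ∑ i ∈ X.toLeft, a i < x ⟨T - j, by omega⟩) := by
    ext X
    simp only [mem_filter, mem_univ, true_and]
    have hcard : X.toLeft.card + X.toRight.card = X.card := Finset.card_toLeft_add_card_toRight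
    by_cases hr : X.toRight = ∅
    · rw [hr, card_empty, add_zero] at hcard
      rw [← hcard]
      have h2 := hk (∑ i ∈ X.toLeft, a i) (j - 1) (by omega)
      have h3 := hk (∑ i ∈ X.toLeft, a i) (T - j) (by omega)
      unfold lev
      rw [if_pos hr]
      rw [← h2, ← h3]
      constructor
      · rintro ⟨h4, h5, h6, h7⟩
        exact ⟨h5, h4, by omega, by omega⟩
      · rintro ⟨h5, h4, h6, h7⟩
        exact ⟨h4, h5, by omega, by omega⟩
    · constructor
      · rintro ⟨_, h5, _⟩
        exact absurd h5 hr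
      · rintro ⟨h5, _⟩
        exact absurd h5 hr
  rw [h1, TAI_card_left (fun I : Finset (Fin b) => I.card + 1 = m ∧
        ∑ i ∈ I, a i < x ⟨j - 1, by omega⟩ ∧ ¬ ∑ i ∈ I, a i < x ⟨T - j, by omega⟩), ← card_union_of_disjoint]
  · congr 1
    ext I
    simp only [mem_union, mem_filter, mem_univ, true_and]
    have h2 : x ⟨T - j, by omega⟩ ≤ x ⟨j - 1, by omega⟩ := hx (by show j - 1 ≤ T - j; omega)
    constructor
    · rintro (h | h)
      · exact ⟨h.1, h.2.1⟩
      · exact ⟨h.1, lt_of_lt_of_le h.2 h2⟩
    · intro h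
      by_cases h3 : ∑ i ∈ I, a i < x ⟨T - j, by omega⟩
      · exact Or.inr ⟨h.1, h3⟩
      · exact Or.inl ⟨h.1, h.2, h3⟩
  · rw [disjoint_left]
    intro I hI hI'
    rw [mem_filter] at hI hI'
    exact hI.2.2.2 hI'.2.2

theorem TAI_delta {T : ℕ} (δ : Fin T → ℕ) (hδ : ∀ k, δ k ≤ 1) (j : ℕ) (hj : 1 ≤ j) (hjT : 2 * j ≤ T) :
    (univ.filter fun k : Fin T => j ≤ (k : ℕ) + δ k ∧ (k : ℕ) + δ k + j ≤ T).card + δ ⟨T - j, by omega⟩ =
      (univ.filter fun k : Fin T => j ≤ (k : ℕ) ∧ (k : ℕ) + j ≤ T).card + δ ⟨j - 1, by omega⟩ := by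
  obtain ⟨p, hp⟩ : ∃ p : Fin T, p = ⟨T - j, by omega⟩ := ⟨_, rfl⟩
  obtain ⟨q, hq⟩ : ∃ q : Fin T, q = ⟨j - 1, by omega⟩ := ⟨_, rfl⟩
  have hpv : (p : ℕ) = T - j := by rw [hp]
  have hqv : (q : ℕ) = j - 1 := by rw [hq]
  obtain ⟨F, hF⟩ : ∃ F : Finset (Fin T), F = univ.filter fun k : Fin T => j ≤ (k : ℕ) ∧ (k : ℕ) + j + 1 ≤ T := ⟨_, rfl⟩
  rw [← hp, ← hq]
  have hpF : p ∉ F := by
    rw [hF, mem_filter]
    rintro ⟨_, _, h⟩
    omega
  have hqF : q ∉ F := by
    rw [hF, mem_filter]
    rintro ⟨_, h, _⟩
    omega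
  have hpq : p ≠ q := by
    intro h
    rw [h] at hpv
    omega
  have h1 : (univ.filter fun k : Fin T => j ≤ (k : ℕ) ∧ (k : ℕ) + j ≤ T) = insert p F := by
    ext k
    rw [mem_insert, hF]
    simp only [mem_filter, mem_univ, true_and]
    constructor
    · rintro ⟨h2, h3⟩
      by_cases h4 : (k : ℕ) = T - j
      · left
        apply Fin.ext
        omega
      · right
        omega
    · rintro (rfl | h)
      · omega
      · omega
  rw [h1, card_insert_of_notMem hpF]
  have hq1 := hδ q
  have hp1 := hδ p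
  have hcase : (univ.filter fun k : Fin T => j ≤ (k : ℕ) + δ k ∧ (k : ℕ) + δ k + j ≤ T) =
      F ∪ ((if δ q = 1 then {q} else ∅) ∪ (if δ p = 0 then {p} else ∅)) := by
    ext k
    have hk1 := hδ k
    simp only [mem_union, mem_filter, mem_univ, true_and]
    rw [hF]
    simp only [mem_filter, mem_univ, true_and]
    by_cases hkp : k = p
    · subst hkp
      have h5 : k ∉ (if δ q = 1 then {q} else ∅ : Finset (Fin T)) := by
        split_ifs
        · rw [mem_singleton]
          exact hpq
        · exact notMem_empty _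
      by_cases h6 : δ k = 0
      · rw [if_pos h6]
        simp only [mem_singleton_self, or_true, iff_true]
        omega
      · rw [if_neg h6]
        simp only [h5, notMem_empty, or_false]
        omega
    · by_cases hkq : k = q
      · subst hkq
        have h5 : k ∉ (if δ p = 0 then {p} else ∅ : Finset (Fin T)) := by
          split_ifs
          · rw [mem_singleton]
            exact hkp
          · exact notMem_empty _
        by_cases h6 : δ k = 1
        · rw [if_pos h6]
          simp only [mem_singleton_self, true_or, or_true, iff_true]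
          omega
        · rw [if_neg h6]
          simp only [h5, notMem_empty, or_false]
          omega
      · have h5 : k ∉ (if δ q = 1 then {q} else ∅ : Finset (Fin T)) := by
          split_ifs
          · rw [mem_singleton]
            exact hkq
          · exact notMem_empty _
        have h6 : k ∉ (if δ p = 0 then {p} else ∅ : Finset (Fin T)) := by
          split_ifs
          · rw [mem_singleton]
            exact hkp
          · exact notMem_empty _
        simp only [h5, h6, or_false]
        have h7 : (k : ℕ) ≠ T - j := fun h => hkp (Fin.ext (by omega))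
        have h8 : (k : ℕ) ≠ j - 1 := fun h => hkq (Fin.ext (by omega))
        omega
  rw [hcase]
  rcases Nat.le_one_iff_eq_zero_or_eq_one.1 hq1 with e1 | e1 <;> rcases Nat.le_one_iff_eq_zero_or_eq_one.1 hp1 with e2 | e2
  · rw [e1, e2, if_neg (by norm_num), if_pos rfl, empty_union, card_union_of_disjoint (by
      rw [disjoint_singleton_right]; exact hpF), card_singleton]
  · rw [e1, e2, if_neg (by norm_num), if_neg (by norm_num), empty_union, union_empty]
  · rw [e1, e2, if_pos rfl, if_pos rfl, card_union_of_disjoint, card_union_of_disjoint, card_singleton, card_singleton]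
    · rw [disjoint_singleton]
      exact hpq.symm
    · rw [disjoint_union_right, disjoint_singleton_right, disjoint_singleton_right]
      exact ⟨hqF, hpF⟩
  · rw [e1, e2, if_pos rfl, if_neg (by norm_num), union_empty, card_union_of_disjoint (by
      rw [disjoint_singleton_right]; exact hqF), card_singleton]

end Pool.Agent.RVG
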